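import Pool.Agent.Helper33.NS4

/-!
# Upper bounds for the `ℓ²`-Betti numbers of right-angled Coxeter groups: bad cliques

`UB G A S k q`: the `k`-th Betti numbers of the full subcomplex spanned by `A`, with signs in `S`, are
at most `(q + ε) |X|` for the far enough finite sets `X` with an action.
-/

set_option autoImplicit false

namespace Pool.Agent.Helper33.BF

open Module Pool.Agent.W907.SG Pool.Agent.W907.SM Pool.Agent.W461.SGN Pool.Agent.W397.SG
  Pool.Agent.TH652.Above Pool.Agent.Y132.SI Pool.Agent.Helper33.NS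

/-- `q` is an asymptotic upper bound for the normalised `k`-th Betti numbers of the full subcomplex
spanned by `A`, with signs in `S`. -/
def UB {V : Type} [Fintype V] [LinearOrder V] (G : SimpleGraph V) (A : Set V) (S : Finset V) (k : ℕ)
    (q : ℝ) : Prop :=
  ∀ ε : ℝ, 0 < ε → ∃ E : Finset (W G), (1 : W G) ∉ E ∧ ∀ (X : Type) [Fintype X] (a : V → X → X)
      (ev : X → W G → X), (∀ v x, a v (a v x) = x) →
      (∀ u v, G.Adj u v → ∀ x, a u (a v x) = a v (a u x)) →
      (∀ x, ev x 1 = x) → (∀ x g h, ev x (g * h) = ev (ev x g) h) →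
      (∀ x v, ev x ((cox G).simple v) = a v x) →
      (∀ g ∈ E, ∀ x, ev x g ≠ x) →
      (beta G (pull ℝ a) A (S : Set V) k : ℝ) ≤ (q + ε) * Fintype.card X

variable {V : Type} [Fintype V] [LinearOrder V] {G : SimpleGraph V}

theorem UB.mono {A : Set V} {S : Finset V} {k : ℕ} {q q' : ℝ} (h : UB G A S k q) (hq : q ≤ q') :
    UB G A S k q' := by
  intro ε hε
  obtain ⟨E, hE, h1⟩ := h ε hε
  refine ⟨E, hE, fun X _ a ev k1 k2 k3 k4 k5 k6 => (h1 X a ev k1 k2 k3 k4 k5 k6).trans ?_⟩
  exact mul_le_mul_of_nonneg_right (by linarith) (Nat.cast_nonneg _)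

/-- degree zero -/
theorem UB.base {A : Set V} {S : Finset V} (hS : G.IsClique (S : Set V)) :
    UB G A S 0 (1 / 2 ^ S.card) := by
  classical
  intro ε hε
  obtain ⟨E0, hE01, hE02⟩ := exists_tor G
  refine ⟨E0, hE01, fun X _ a ev k1 k2 k3 k4 k5 k6 => ?_⟩
  have c1 := ET_dim' (two_ne_zero : (2 : ℝ) ≠ 0) G a k1 k2 (fun T t ht hc => exists_sigma G a ev k3 k4 k5
    (fun T hT g hg hg1 x => k6 g (hE02 T hT g hg hg1) x) T t ht hc) S hS
  have c2 : beta G (pull ℝ a) A (S : Set V) 0 ≤ finrank ℝ (ET ℝ a S) := by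
    have d1 : beta G (pull ℝ a) A (S : Set V) 0 ≤ finrank ℝ (KK G (pull ℝ a) A (S : Set V) 0) := by
      unfold beta
      refine (Nat.sub_le _ _).trans ?_
      exact Submodule.finrank_mono inf_le_left
    refine d1.trans ?_
    let f : KK G (pull ℝ a) A (S : Set V) 0 →ₗ[ℝ] ET ℝ a S :=
      { toFun := fun c => ⟨c.1 ∅, fun t ht x => congrFun (c.2.2 ∅ t (Or.inr (by exact_mod_cast ht))) x⟩
        map_add' := fun _ _ => rfl
        map_smul' := fun _ _ => rfl }
    refine LinearMap.finrank_le_finrank_of_injective (f := f) ?_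
    intro c d hcd
    apply Subtype.ext
    funext T
    by_cases hT : T = ∅
    · subst hT
      exact congrArg Subtype.val hcd
    · have e1 : ¬ (G.IsClique (T : Set V) ∧ (T : Set V) ⊆ A ∧ T.card = 0) := fun h =>
        hT (Finset.card_eq_zero.1 h.2.2)
      rw [c.2.1 T e1, d.2.1 T e1]
  have hX : (0 : ℝ) ≤ Fintype.card X := Nat.cast_nonneg _
  have h2 : (0 : ℝ) < 2 ^ S.card := by positivity
  have c3 : (beta G (pull ℝ a) A (S : Set V) 0 : ℝ) * 2 ^ S.card ≤ Fintype.card X := by
    have : beta G (pull ℝ a) A (S : Set V) 0 * 2 ^ S.card ≤ Fintype.card X := by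
      rw [← c1]
      exact Nat.mul_le_mul_right _ c2
    exact_mod_cast this
  have c4 : (beta G (pull ℝ a) A (S : Set V) 0 : ℝ) ≤ 1 / 2 ^ S.card * Fintype.card X := by
    rw [div_mul_eq_mul_div, one_mul, le_div_iff₀ h2]
    exact c3
  nlinarith

/-- signs of commuting involutions -/
theorem beta_signs {X : Type} [Fintype X] (a : V → X → X) (k1 : ∀ v x, a v (a v x) = x)
    (k2 : ∀ u v, G.Adj u v → ∀ x, a u (a v x) = a v (a u x)) (A : Set V) (k : ℕ) (S : Finset V) :
    G.IsClique (S : Set V) → A ⊆ lk G S →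
    beta G (pull ℝ a) A (S : Set V) k ≤ beta G (pull ℝ a) A ∅ k := by
  classical
  induction S using Finset.induction_on with
  | empty => intro _ _; rw [Finset.coe_empty]
  | insert v S hv ih =>
    intro hS hA
    have h1 := ih (hS.subset (by rw [Finset.coe_insert]; exact Set.subset_insert _ _))
      (fun u hu w hw => hA hu w (Finset.mem_insert_of_mem hw))
    refine le_trans ?_ h1
    rw [Finset.coe_insert]
    refine eig V ℝ (X → ℝ) G (pull ℝ a) A (S : Set V) v (by norm_num) (fun m => by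
        funext x
        rw [pull_apply, pull_apply, k1]) (fun u hu m => ?_) k
    have hu' : G.Adj u v := by
      rcases hu with hu | hu
      · exact hA hu v (Finset.mem_insert_self _ _)
      · refine hS ?_ ?_ ?_
        · exact_mod_cast Finset.mem_insert_of_mem (by exact_mod_cast hu)
        · exact_mod_cast Finset.mem_insert_self _ _
        · rintro rfl
          exact hv (by exact_mod_cast hu)
    funext x
    rw [pull_apply, pull_apply, pull_apply, pull_apply, k2 u v hu']

/-- vanishing -/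
theorem UB.zero {A : Set V} {S : Finset V} {k : ℕ} (hS : G.IsClique (S : Set V)) (hA : A ⊆ lk G S)
    (h : LV (G.induce A) k) : UB G A S k 0 := by
  classical
  intro ε hε
  obtain ⟨N, hN⟩ := exists_nat_gt (1 / ε)
  have hN0 : (0 : ℝ) < N := lt_of_le_of_lt (by positivity) hN
  have hNε : 1 < N * ε := (div_lt_iff₀ hε).1 hN
  obtain ⟨E, hE, h2⟩ := Pool.Agent.W338.SG.small_restrict small tr G A k (h _ _) N
  refine ⟨E, hE, fun X _ a ev k1 k2 k3 k4 k5 k6 => ?_⟩
  have c1 := h2 X a ev k1 k2 k3 k4 k5 k6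
  have c0 := Nat.mul_le_mul_left N (beta_signs a k1 k2 A k S hS hA)
  have c2 : (N : ℝ) * (beta G (pull ℝ a) A (S : Set V) k : ℝ) ≤ Fintype.card X := by
    exact_mod_cast c0.trans c1
  have hX : (0 : ℝ) ≤ Fintype.card X := Nat.cast_nonneg _
  have c3 : (N : ℝ) * (beta G (pull ℝ a) A (S : Set V) k : ℝ) ≤ N * ((0 + ε) * Fintype.card X) := by
    refine c2.trans ?_
    nlinarith
  exact le_of_mul_le_mul_left c3 hN0

/-- adding a vertex -/
theorem UB.insert {A : Set V} {S : Finset V} {v : V} (hv : v ∉ A) (hvS : v ∉ S) {k : ℕ} {q r : ℝ}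
    (h1 : UB G A S (k + 1) q)
    (h2 : UB G (A ∩ G.neighborSet v) (Insert.insert v S) k r) :
    UB G (Insert.insert v A) S (k + 1) (q + r) := by
  intro ε hε
  obtain ⟨E1, hE1, g1⟩ := h1 (ε / 2) (by positivity)
  obtain ⟨E2, hE2, g2⟩ := h2 (ε / 2) (by positivity)
  classical
  refine ⟨E1 ∪ E2, ?_, fun X _ a ev k1 k2 k3 k4 k5 k6 => ?_⟩
  · rw [Finset.mem_union]
    exact fun h => h.elim hE1 hE2
  have c1 := g1 X a ev k1 k2 k3 k4 k5 (fun g hg => k6 g (Finset.mem_union_left _ hg))
  have c2 := g2 X a ev k1 k2 k3 k4 k5 (fun g hg => k6 g (Finset.mem_union_right _ hg))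
  have b1 := (vert V ℝ (X → ℝ) G (pull ℝ a) A (S : Set V) v hv (by exact_mod_cast hvS)).2 k
  rw [Finset.coe_insert] at c2
  have b4 : (beta G (pull ℝ a) (Insert.insert v A) (S : Set V) (k + 1) : ℝ) ≤
      (beta G (pull ℝ a) A (S : Set V) (k + 1) : ℝ) +
      (beta G (pull ℝ a) (A ∩ G.neighborSet v) (Insert.insert v (S : Set V)) k : ℝ) := by
    exact_mod_cast b1
  have hX : (0 : ℝ) ≤ Fintype.card X := Nat.cast_nonneg _
  nlinarith

/-- adding many vertices with vanishing links -/
theorem UB.union {A : Set V} {S : Finset V} {k : ℕ} {q : ℝ} (h1 : UB G A S (k + 1) q) (D : Finset V)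
    (hDS : Disjoint D S)
    (hD : ∀ v ∈ D, v ∉ A → ∀ C : Set V, C ⊆ A ∪ D →
      UB G (C ∩ G.neighborSet v) (Insert.insert v S) k 0) :
    UB G (A ∪ (D : Set V)) S (k + 1) q := by
  classical
  induction D using Finset.induction_on with
  | empty => simpa using h1
  | insert v D hv ih =>
    have h2 := ih (Finset.disjoint_of_subset_left (Finset.subset_insert _ _) hDS)
      fun u hu hA C hC => hD u (Finset.mem_insert_of_mem hu) hA C (hC.trans (by
      rw [Finset.coe_insert]
      exact Set.union_subset_union_right _ (Set.subset_insert _ _)))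
    rw [Finset.coe_insert, Set.union_insert]
    by_cases hvA : v ∈ A
    · have e : Insert.insert v (A ∪ (D : Set V)) = A ∪ (D : Set V) :=
        Set.insert_eq_of_mem (Or.inl hvA)
      rw [e]
      exact h2
    · have h3 := UB.insert (v := v) (by
        rintro (h | h)
        · exact hvA h
        · exact hv h) (Finset.disjoint_left.1 hDS (Finset.mem_insert_self _ _)) h2
        (hD v (Finset.mem_insert_self _ _) hvA (A ∪ (D : Set V)) (by
          rw [Finset.coe_insert]
          exact Set.union_subset_union_right _ (Set.subset_insert _ _)))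
      exact h3.mono (by simp)

end Pool.Agent.Helper33.BF
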