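import Pool.Agent.Helper33.BF1

/-!
# Upper bounds for the `ℓ²`-Betti numbers of right-angled Coxeter groups by the number of bad cliques
-/

set_option autoImplicit false

namespace Pool.Agent.Helper33.BF

open Module Pool.Agent.W907.SG Pool.Agent.W907.SM Pool.Agent.W461.SGN Pool.Agent.W397.SG
  Pool.Agent.TH652.Above Pool.Agent.Y132.SI Pool.Agent.Helper33.NS

/-- Let `B k S` be sets of vertices.  The clique `T` with `k` elements in the link of `S` is bad if
`T \ R` is contained in `B (k - |R|) (S ∪ R)` for each initial segment `R` of `T` such that `T \ R` has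
at least two elements. -/
def Bad {V : Type} [LinearOrder V] (B : ℕ → Finset V → Set V) (S : Finset V) (k : ℕ) (T : Finset V) :
    Prop :=
  ∀ R ⊆ T, (∀ s ∈ R, ∀ t ∈ T \ R, s < t) → R.card + 2 ≤ k →
    ((T \ R : Finset V) : Set V) ⊆ B (k - R.card) (S ∪ R)

open Classical in
/-- The number of the bad cliques with `k` elements which are contained in `A`. -/
noncomputable def badNum {V : Type} [Fintype V] [LinearOrder V] (G : SimpleGraph V)
    (B : ℕ → Finset V → Set V) (S : Finset V) (A : Set V) (k : ℕ) : ℕ :=
  (Finset.univ.filter fun T : Finset V =>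
    G.IsClique (T : Set V) ∧ (T : Set V) ⊆ A ∧ T.card = k ∧ Bad B S k T).card

/-- For each clique `S` and `k ≥ 2` with `k + |S| ≥ I`, the vertices `u` of the link of `S` outside
`B k S` are such that the link of `S ∪ {u}` is in the class `AQ (2 k - 3)`. -/
def GoodFlags {V : Type} [DecidableEq V] (G : SimpleGraph V) (B : ℕ → Finset V → Set V) (I : ℕ) : Prop :=
  ∀ (S : Finset V) (k : ℕ), G.IsClique (S : Set V) → 2 ≤ k → I ≤ k + S.card →
    ∀ u ∈ lk G S, u ∉ B k S → AQ (2 * k - 3) (G.induce (lk G (insert u S)))

variable {V : Type} [Fintype V] [LinearOrder V] {G : SimpleGraph V}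

theorem badNum_mono (G : SimpleGraph V) (B : ℕ → Finset V → Set V) (S : Finset V) {A A' : Set V}
    (h : A ⊆ A') (k : ℕ) : badNum G B S A k ≤ badNum G B S A' k := by
  classical
  unfold badNum
  refine Finset.card_le_card fun T hT => ?_
  rw [Finset.mem_filter] at hT ⊢
  exact ⟨hT.1, hT.2.1, hT.2.2.1.trans h, hT.2.2.2⟩

/-- the bad cliques with and without the smallest vertex -/
theorem badNum_insert (G : SimpleGraph V) (B : ℕ → Finset V → Set V) (S : Finset V) (C : Finset V)
    (v : V) (hv : ∀ x ∈ C, v < x) (k : ℕ)
    (hB : 2 ≤ k + 1 → ((insert v C : Finset V) : Set V) ⊆ B (k + 1) S) :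
    badNum G B S (C : Set V) (k + 1) +
      badNum G B (insert v S) ((C : Set V) ∩ G.neighborSet v) k ≤
      badNum G B S ((insert v C : Finset V) : Set V) (k + 1) := by
  classical
  unfold badNum
  obtain ⟨F1, hF1⟩ : ∃ F : Finset (Finset V), F = Finset.univ.filter fun T : Finset V =>
    G.IsClique (T : Set V) ∧ (T : Set V) ⊆ (C : Set V) ∧ T.card = k + 1 ∧ Bad B S (k + 1) T := ⟨_, rfl⟩
  obtain ⟨F2, hF2⟩ : ∃ F : Finset (Finset V), F = Finset.univ.filter fun T : Finset V =>
    G.IsClique (T : Set V) ∧ (T : Set V) ⊆ (C : Set V) ∩ G.neighborSet v ∧ T.card = k ∧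
      Bad B (insert v S) k T := ⟨_, rfl⟩
  have hvC : v ∉ C := fun h => lt_irrefl v (hv v h)
  have hF2v : ∀ T ∈ F2, v ∉ T := by
    intro T hT h
    rw [hF2, Finset.mem_filter] at hT
    exact hvC (by exact_mod_cast (hT.2.2.1 (by exact_mod_cast h)).1)
  have c1 : F1.card + F2.card = (F1 ∪ F2.image (insert v)).card := by
    rw [Finset.card_union_of_disjoint, Finset.card_image_of_injOn]
    · intro T hT T' hT' h
      have h1 := hF2v T hT
      have h2 := hF2v T' hT'
      rw [← Finset.erase_insert h1, ← Finset.erase_insert h2]
      exact congrArg (fun s => s.erase v) h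
    · rw [Finset.disjoint_left]
      intro T hT hT2
      obtain ⟨T', _, rfl⟩ := Finset.mem_image.1 hT2
      rw [hF1, Finset.mem_filter] at hT
      exact hvC (by exact_mod_cast hT.2.2.1 (by exact_mod_cast Finset.mem_insert_self _ _))
  have c2 : F1.card + F2.card ≤ (Finset.univ.filter fun T : Finset V =>
    G.IsClique (T : Set V) ∧ (T : Set V) ⊆ ((insert v C : Finset V) : Set V) ∧ T.card = k + 1 ∧
      Bad B S (k + 1) T).card := by
    rw [c1]
    refine Finset.card_le_card fun T hT => ?_
    rw [Finset.mem_filter]
    refine ⟨Finset.mem_univ _, ?_⟩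
    rcases Finset.mem_union.1 hT with hT | hT
    · rw [hF1, Finset.mem_filter] at hT
      refine ⟨hT.2.1, hT.2.2.1.trans ?_, hT.2.2.2⟩
      rw [Finset.coe_insert]
      exact Set.subset_insert _ _
    · obtain ⟨T', hT', rfl⟩ := Finset.mem_image.1 hT
      have hvT' := hF2v T' hT'
      rw [hF2, Finset.mem_filter] at hT'
      obtain ⟨_, g1, g2, g3, g4⟩ := hT'
      have hsub : (insert v T' : Finset V) ⊆ insert v C :=
        Finset.insert_subset_insert _ fun x hx => by exact_mod_cast (g2 (by exact_mod_cast hx)).1
      refine ⟨?_, by exact_mod_cast hsub, by rw [Finset.card_insert_of_notMem hvT', g3], ?_⟩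
      · rw [Finset.coe_insert, SimpleGraph.isClique_insert]
        exact ⟨g1, fun b hb _ => (g2 hb).2⟩
      · intro R hR hlt hcard
        by_cases hvR : v ∈ R
        · have e1 : (insert v T') \ R = T' \ (R.erase v) := by
            ext x
            simp only [Finset.mem_sdiff, Finset.mem_insert, Finset.mem_erase]
            constructor
            · rintro ⟨hx | hx, hx2⟩
              · subst hx; exact absurd hvR hx2
              · exact ⟨hx, fun h => hx2 h.2⟩
            · rintro ⟨hx, hx2⟩
              refine ⟨Or.inr hx, fun h => hx2 ⟨?_, h⟩⟩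
              rintro rfl
              exact hvT' hx
          have e2 : insert v S ∪ R.erase v = S ∪ R := by
            rw [Finset.insert_union, ← Finset.union_insert, Finset.insert_erase hvR]
          have e3 : R.card = (R.erase v).card + 1 := by
            rw [Finset.card_erase_of_mem hvR]
            have := Finset.card_pos.2 ⟨v, hvR⟩
            omega
          have e4 : k + 1 - R.card = k - (R.erase v).card := by omega
          rw [e1, e4, ← e2]
          refine g4 (R.erase v) ?_ ?_ (by omega)
          · intro x hx
            obtain ⟨hx1, hx2⟩ := Finset.mem_erase.1 hx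
            rcases Finset.mem_insert.1 (hR hx2) with h | h
            · exact absurd h hx1
            · exact h
          · intro s hs t ht
            rw [← e1] at ht
            exact hlt s (Finset.mem_of_mem_erase hs) t ht
        · have hR0 : R = ∅ := by
            by_contra hne
            obtain ⟨s, hs⟩ := Finset.nonempty_iff_ne_empty.2 hne
            have h1 := hlt s hs v (Finset.mem_sdiff.2 ⟨Finset.mem_insert_self _ _, hvR⟩)
            rcases Finset.mem_insert.1 (hR hs) with h | h
            · subst h; exact hvR hs
            · have h2 := hv s (by exact_mod_cast (g2 (by exact_mod_cast h)).1)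
              exact lt_asymm h1 h2
          subst hR0
          rw [Finset.card_empty] at hcard
          rw [Finset.sdiff_empty, Finset.card_empty, Nat.sub_zero, Finset.union_empty]
          refine Set.Subset.trans ?_ (hB (by omega))
          exact_mod_cast hsub
  rw [hF1, hF2] at c2
  exact c2

/-- no chains -/
theorem UB.empty (G : SimpleGraph V) (S : Finset V) (k : ℕ) : UB G ∅ S (k + 1) 0 := by
  intro ε hε
  refine ⟨∅, Finset.notMem_empty _, fun X _ a ev k1 k2 k3 k4 k5 k6 => ?_⟩
  have h : KK G (pull ℝ a) ∅ (S : Set V) (k + 1) = ⊥ := by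
    rw [eq_bot_iff]
    intro c hc
    rw [Submodule.mem_bot]
    funext T
    refine hc.1 T ?_
    rintro ⟨_, h2, h3⟩
    have h4 : T = ∅ := by
      have := Set.subset_empty_iff.1 h2
      exact_mod_cast this
    rw [h4] at h3
    simp at h3
  have h0 : beta G (pull ℝ a) ∅ (S : Set V) (k + 1) = 0 := by
    unfold beta ZZ
    rw [h, bot_inf_eq, finrank_bot, Nat.zero_sub]
  rw [h0, Nat.cast_zero]
  positivity

/-- **The bound by the number of bad cliques, relative form.** -/
theorem UB.bad (G : SimpleGraph V) (B : ℕ → Finset V → Set V) (I : ℕ) (hB : GoodFlags G B I) :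
    ∀ (k : ℕ) (S : Finset V) (A : Finset V), G.IsClique (S : Set V) → (A : Set V) ⊆ lk G S →
      I ≤ k + S.card → UB G (A : Set V) S k ((badNum G B S (A : Set V) k : ℝ) / 2 ^ (k + S.card)) := by
  classical
  intro k
  induction k with
  | zero =>
    intro S A hS hA _
    refine (UB.base hS).mono ?_
    have h1 : 1 ≤ badNum G B S (A : Set V) 0 := by
      unfold badNum
      refine Finset.card_pos.2 ⟨∅, ?_⟩
      rw [Finset.mem_filter]
      refine ⟨Finset.mem_univ _, ?_, ?_, Finset.card_empty, ?_⟩
      · rw [Finset.coe_empty]; exact SimpleGraph.isClique_empty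
      · rw [Finset.coe_empty]; exact Set.empty_subset _
      · intro R _ _ h; omega
    rw [Nat.zero_add]
    have h2 : (1 : ℝ) ≤ badNum G B S (A : Set V) 0 := by exact_mod_cast h1
    exact div_le_div_of_nonneg_right h2 (by positivity)
  | succ k ih =>
    intro S A hS hA hI
    have key : ∀ C : Finset V, (C : Set V) ⊆ lk G S → (2 ≤ k + 1 → (C : Set V) ⊆ B (k + 1) S) →
        UB G (C : Set V) S (k + 1) ((badNum G B S (C : Set V) (k + 1) : ℝ) / 2 ^ (k + 1 + S.card)) := by
      intro C
      induction C using Finset.induction_on_min with
      | empty =>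
        intro _ _
        rw [Finset.coe_empty]
        exact (UB.empty G S k).mono (by positivity)
      | insert v C hv ihC =>
        intro hC hCB
        have hsub : (C : Set V) ⊆ ((Insert.insert v C : Finset V) : Set V) := by
          rw [Finset.coe_insert]; exact Set.subset_insert _ _
        have g1 := ihC (hsub.trans hC) (fun h => hsub.trans (hCB h))
        have hvl : v ∈ lk G S := hC (by exact_mod_cast Finset.mem_insert_self _ _)
        have hvS : v ∉ S := fun h => G.loopless.irrefl v (hvl v h)
        have hclique : G.IsClique ((Insert.insert v S : Finset V) : Set V) := by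
          rw [Finset.coe_insert, SimpleGraph.isClique_insert]
          exact ⟨hS, fun b hb _ => hvl b hb⟩
        have g2 := ih (Insert.insert v S) (C.filter fun x => G.Adj v x) hclique (by
          intro x hx u hu
          have hx' := Finset.mem_filter.1 (Finset.mem_coe.1 hx)
          rcases Finset.mem_insert.1 hu with h | h
          · rw [h]; exact hx'.2.symm
          · exact hC (hsub hx'.1) u h) (by
          rw [Finset.card_insert_of_notMem hvS]; omega)
        have e1 : ((C.filter fun x => G.Adj v x : Finset V) : Set V) =
            (C : Set V) ∩ G.neighborSet v := by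
          ext x
          simp
        rw [e1] at g2
        have hvC : v ∉ (C : Set V) := fun h => lt_irrefl v (hv v (by exact_mod_cast h))
        have g3 := UB.insert hvC hvS g1 g2
        rw [← Finset.coe_insert] at g3
        refine g3.mono ?_
        have g4 := badNum_insert G B S C v hv k hCB
        rw [Finset.card_insert_of_notMem hvS]
        have e2 : k + (S.card + 1) = k + 1 + S.card := by ring
        rw [e2, ← add_div]
        refine div_le_div_of_nonneg_right ?_ (by positivity)
        exact_mod_cast g4
    by_cases hk : 2 ≤ k + 1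
    · have g1 := key (A.filter fun x => x ∈ B (k + 1) S) (fun x hx => hA (by
        exact_mod_cast (Finset.mem_filter.1 (Finset.mem_coe.1 hx)).1))
        (fun _ x hx => (Finset.mem_filter.1 (Finset.mem_coe.1 hx)).2)
      have g2 := UB.union g1 (A.filter fun x => x ∉ B (k + 1) S) (by
        rw [Finset.disjoint_left]
        intro x hx hxS
        exact G.loopless.irrefl x (hA (by exact_mod_cast (Finset.mem_filter.1 hx).1) x hxS))
        (by
          intro v hv _ C hC
          have hv' := Finset.mem_filter.1 hv
          have hvl : v ∈ lk G S := hA (by exact_mod_cast hv'.1)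
          have hclique : G.IsClique ((Insert.insert v S : Finset V) : Set V) := by
            rw [Finset.coe_insert, SimpleGraph.isClique_insert]
            exact ⟨hS, fun b hb _ => hvl b hb⟩
          have hCA : C ⊆ (A : Set V) := by
            refine hC.trans ?_
            intro x hx
            rcases hx with hx | hx
            · exact_mod_cast (Finset.mem_filter.1 (Finset.mem_coe.1 hx)).1
            · exact_mod_cast (Finset.mem_filter.1 (Finset.mem_coe.1 hx)).1
          have hlk : C ∩ G.neighborSet v ⊆ lk G (Insert.insert v S) := by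
            intro x hx u hu
            rcases Finset.mem_insert.1 hu with h | h
            · rw [h]; exact ((G.mem_neighborSet v x).1 hx.2).symm
            · exact hA (hCA hx.1) u h
          refine UB.zero hclique hlk ?_
          have h2 := (Q_of_AQ (hB S (k + 1) hS hk hI v hvl hv'.2)).2
            {x | x.1 ∈ C ∩ G.neighborSet v} k (by omega)
          rw [lv_sub] at h2
          refine lv_set ?_ h2
          ext x
          simp only [Set.mem_image, Subtype.exists, exists_and_right, exists_eq_right]
          constructor
          · intro h3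
            exact ⟨hlk h3, h3⟩
          · rintro ⟨_, h4⟩
            exact h4)
      have e1 : ((A.filter fun x => x ∈ B (k + 1) S : Finset V) : Set V) ∪
          ((A.filter fun x => x ∉ B (k + 1) S : Finset V) : Set V) = (A : Set V) := by
        rw [← Finset.coe_union, Finset.filter_union_filter_not_eq]
      rw [e1] at g2
      refine g2.mono (div_le_div_of_nonneg_right ?_ (by positivity))
      have hss : ((A.filter fun x => x ∈ B (k + 1) S : Finset V) : Set V) ⊆ (A : Set V) := by
        intro x hx
        exact Finset.mem_coe.2 (Finset.mem_filter.1 (Finset.mem_coe.1 hx)).1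
      have h5 := badNum_mono G B S hss (k + 1)
      exact Nat.cast_le.2 h5
    · exact key A hA (fun h => absurd h hk)

/-- **The bound by the number of bad cliques.** -/
theorem UB.bad_univ (G : SimpleGraph V) (B : ℕ → Finset V → Set V) (I : ℕ) (hB : GoodFlags G B I)
    (i : ℕ) (hi : I ≤ i) :
    UB G Set.univ ∅ i ((badNum G B ∅ Set.univ i : ℝ) / 2 ^ i) := by
  have h := UB.bad G B I hB i ∅ Finset.univ (by simp) (by intro x _ u hu; simp at hu) (by simpa using hi)
  simpa using h

end Pool.Agent.Helper33.BF
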