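import Pool.Agent.Helper33.BF2

/-!
# The Singer conjecture and the Charney-Davis inequality for flag spheres with upper bounds `q i` for the
`ℓ²`-Betti numbers in the degrees `i` above the middle
-/

set_option autoImplicit false

namespace Pool.Agent.Helper33.BF

open Module Pool.Agent.W907.SG Pool.Agent.W907.SM Pool.Agent.W461.SGN Pool.Agent.W397.SG
  Pool.Agent.TH652.Above Pool.Agent.Y132.SI Pool.Agent.Helper33.NS

/-- `q (m + 2) + q (m + 4) + ...` -/
noncomputable def qEven (q : ℕ → ℝ) (m : ℕ) : ℝ :=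
  ∑ j ∈ (Finset.range (m + 1)).filter Even, q (m + 2 + j)

/-- `q (m + 3) + q (m + 5) + ...` -/
noncomputable def qOdd (q : ℕ → ℝ) (m : ℕ) : ℝ :=
  ∑ j ∈ (Finset.range (m + 1)).filter (fun j => ¬ Even j), q (m + 2 + j)

/-- all degrees together -/
theorem ub_all {V : Type} [Fintype V] [LinearOrder V] (G : SimpleGraph V) (q : ℕ → ℝ) (I : ℕ)
    (hq : ∀ i, 0 ≤ q i) (hB : ∀ i, I ≤ i → UB G Set.univ ∅ i (q i)) (ε : ℝ) (hε : 0 < ε) :
    ∃ E : Finset (W G), (1 : W G) ∉ E ∧ ∀ (X : Type) [Fintype X] (a : V → X → X)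
      (ev : X → W G → X), (∀ v x, a v (a v x) = x) →
      (∀ u v, G.Adj u v → ∀ x, a u (a v x) = a v (a u x)) →
      (∀ x, ev x 1 = x) → (∀ x g h, ev x (g * h) = ev (ev x g) h) →
      (∀ x v, ev x ((cox G).simple v) = a v x) →
      (∀ g ∈ E, ∀ x, ev x g ≠ x) → ∀ i : ℕ, I ≤ i →
      (beta G (pull ℝ a) Set.univ ∅ i : ℝ) ≤ (q i + ε) * Fintype.card X := by
  classical
  have h1 : ∀ i : ℕ, ∃ E : Finset (W G), (1 : W G) ∉ E ∧ (I ≤ i →
      ∀ (X : Type) [Fintype X] (a : V → X → X)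
      (ev : X → W G → X), (∀ v x, a v (a v x) = x) →
      (∀ u v, G.Adj u v → ∀ x, a u (a v x) = a v (a u x)) →
      (∀ x, ev x 1 = x) → (∀ x g h, ev x (g * h) = ev (ev x g) h) →
      (∀ x v, ev x ((cox G).simple v) = a v x) →
      (∀ g ∈ E, ∀ x, ev x g ≠ x) →
      (beta G (pull ℝ a) Set.univ ∅ i : ℝ) ≤ (q i + ε) * Fintype.card X) := by
    intro i
    by_cases hi : I ≤ i
    · obtain ⟨E, h2, h3⟩ := hB i hi ε hε
      refine ⟨E, h2, fun _ X _ a ev k1 k2 k3 k4 k5 k6 => ?_⟩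
      have h4 := h3 X a ev k1 k2 k3 k4 k5 k6
      rwa [Finset.coe_empty] at h4
    · exact ⟨∅, Finset.notMem_empty _, fun h => absurd h hi⟩
  choose Ef hEf1 hEf2 using h1
  refine ⟨(Finset.range (Fintype.card V + 1)).biUnion Ef, ?_, ?_⟩
  · rw [Finset.mem_biUnion]
    rintro ⟨i, _, h⟩
    exact hEf1 i h
  intro X _ a ev k1 k2 k3 k4 k5 k6 i hi
  have hX : (0 : ℝ) ≤ Fintype.card X := Nat.cast_nonneg _
  by_cases hiK : i < Fintype.card V + 1
  · exact hEf2 i hi X a ev k1 k2 k3 k4 k5 (fun g hg x =>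
      k6 g (Finset.mem_biUnion.2 ⟨i, Finset.mem_range.2 hiK, hg⟩) x)
  · rw [beta_big G _ Set.univ ∅ (by omega), Nat.cast_zero]
    have := hq i
    positivity

/-- **The bound for the Betti numbers of the subgroups of finite index.** -/
theorem betti_le_ub {V : Type} [Fintype V] [LinearOrder V] (G : SimpleGraph V) (q : ℕ → ℝ) (I : ℕ)
    (hq : ∀ i, 0 ≤ q i) (hB : ∀ i, I ≤ i → UB G Set.univ ∅ i (q i)) (ε : ℝ) (hε : 0 < ε) :
    ∃ E : Finset (W G), (1 : W G) ∉ E ∧ ∀ H : Subgroup (W G), H.FiniteIndex →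
      (∀ g ∈ E, ∀ x : W G, x * g * x⁻¹ ∉ H) → ∀ i : ℕ, I ≤ i →
        (finrank ℝ (HInv G H i) : ℝ) ≤ (q i + ε) * H.index := by
  classical
  obtain ⟨E, hE1, hE2⟩ := ub_all G q I hq hB ε hε
  refine ⟨E, hE1, fun H hfin hE i hi => ?_⟩
  have : Finite (Quotient (QuotientGroup.rightRel H)) :=
    Finite.of_equiv _ (QuotientGroup.quotientRightRelEquivQuotientLeftRel H).symm
  let _ : Fintype (Quotient (QuotientGroup.rightRel H)) := Fintype.ofFinite _
  have hcard : (Fintype.card (Quotient (QuotientGroup.rightRel H)) : ℝ) = H.index := by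
    rw [← Nat.card_eq_fintype_card, Nat.card_congr (QuotientGroup.quotientRightRelEquivQuotientLeftRel H)]
    rfl
  have h4 := hE2 _ (aa G H) (ev G H) (aa_inv G H) (fun u v h x => aa_comm G H u v h x)
    (ev_one G H) (ev_mul G H) (fun _ _ => rfl) (fun g hg x => ev_free G H (fun y => hE g hg y) x) i hi
  rw [hcard] at h4
  rw [finrank_HInv]
  exact h4

/-- vanishing -/
theorem l2van_ub {V : Type} [Fintype V] [LinearOrder V] (G : SimpleGraph V) (i : ℕ)
    (h0 : UB G Set.univ ∅ i 0) : L2Van G i := by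
  classical
  refine large V G i fun N E hE => ?_
  obtain ⟨E', hE', hs⟩ := h0 (1 / (N + 1)) (by positivity)
  have : Fact (Nat.Prime 3) := ⟨Nat.prime_three⟩
  obtain ⟨Y, fY, nY, P, ev, h1, h2, h3, h4⟩ := nilp 3 V G (E ∪ E') (by norm_num) (by
    rw [Finset.mem_union, not_or]
    exact ⟨hE, hE'⟩)
  refine ⟨Y, fY, nY, P.a, ev, P.inv, P.comm, h1, h2, h3, fun g hg => h4 g (Finset.mem_union_left _ hg), ?_⟩
  have h5 := hs Y P.a ev P.inv P.comm h1 h2 h3 fun g hg => h4 g (Finset.mem_union_right _ hg)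
  rw [Finset.coe_empty, zero_add, div_mul_eq_mul_div, one_mul, le_div_iff₀ (by positivity)] at h5
  have h6 : (N : ℝ) * (beta G (pull ℝ P.a) Set.univ ∅ i : ℝ) ≤ Fintype.card Y := by
    refine le_trans ?_ h5
    rw [mul_comm]
    refine mul_le_mul_of_nonneg_left ?_ (Nat.cast_nonneg _)
    linarith
  exact_mod_cast h6

/-- finite sets with signs -/
theorem level {V : Type} [Fintype V] [LinearOrder V] (G : SimpleGraph V) (m : ℕ)
    (hS : HSph (2 * m + 2) G) (q : ℕ → ℝ)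
    (hq : ∀ i, 0 ≤ q i) (hB : ∀ i, m + 2 ≤ i → UB G Set.univ ∅ i (q i)) (ε : ℝ) (hε : 0 < ε) :
    ∃ E : Finset (W G), (1 : W G) ∉ E ∧ ∀ (X : Type) [Fintype X] (a : V → X → X)
      (ev : X → W G → X) (sgn : V → X → Bool), (∀ v x, a v (a v x) = x) →
      (∀ u v, G.Adj u v → ∀ x, a u (a v x) = a v (a u x)) →
      (∀ v x, sgn v (a v x) = !(sgn v x)) → (∀ u v, u ≠ v → ∀ x, sgn u (a v x) = sgn u x) →
      (∀ x, ev x 1 = x) → (∀ x g h, ev x (g * h) = ev (ev x g) h) →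
      (∀ x v, ev x ((cox G).simple v) = a v x) →
      (∀ g ∈ E, ∀ x, ev x g ≠ x) →
      (∀ i : ℕ, m + 1 < i → (beta G (pull ℝ a) Set.univ ∅ i : ℝ) ≤
        (q i + ε) * Fintype.card X) ∧
      (∀ i : ℕ, i < m + 1 → (beta G (pull ℝ a) Set.univ ∅ i : ℝ) ≤
        (q (2 * m + 2 - i) + ε) * Fintype.card X) ∧
      (beta G (pull ℝ a) Set.univ ∅ (m + 1) : ℝ) ≤
        ((-1) ^ (m + 1) * (chiW G : ℝ) + 2 * qEven q m + ε) * Fintype.card X ∧
      ((-1) ^ (m + 1) * (chiW G : ℝ) - 2 * qOdd q m - ε) * Fintype.card X ≤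
        (beta G (pull ℝ a) Set.univ ∅ (m + 1) : ℝ) := by
  classical
  obtain ⟨δ, hδ0, hδε, hδm⟩ : ∃ δ : ℝ, 0 < δ ∧ δ ≤ ε ∧ 2 * (m + 1) * δ ≤ ε := by
    refine ⟨ε / (2 * (m + 1)), by positivity, ?_, ?_⟩
    · rw [div_le_iff₀ (by positivity)]
      nlinarith [Nat.cast_nonneg (α := ℝ) m]
    · rw [mul_div_cancel₀]
      positivity
  obtain ⟨E, hE1, hE2⟩ := ub_all G q (m + 2) hq hB δ hδ0
  refine ⟨E, hE1, fun X _ a ev sgn k1 k2 s1 s2 k3 k4 k5 k6 => ?_⟩
  have hX : (0 : ℝ) ≤ Fintype.card X := Nat.cast_nonneg _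
  obtain ⟨b, hb⟩ : ∃ b : ℕ → ℝ, ∀ j, b j = (beta G (pull ℝ a) Set.univ ∅ j : ℝ) := ⟨_, fun _ => rfl⟩
  have hb0 : ∀ j, 0 ≤ b j := fun j => by rw [hb]; exact Nat.cast_nonneg _
  have hup : ∀ i : ℕ, m + 1 < i → b i ≤ (q i + δ) * Fintype.card X := by
    intro i hi
    rw [hb]
    exact hE2 X a ev k1 k2 k3 k4 k5 k6 i (by omega)
  have hdual : ∀ i : ℕ, i ≤ 2 * m + 2 → b i = b (2 * m + 2 - i) := by
    intro i hi
    rw [hb, hb, Pool.Agent.TH652.Dual.duality_sgn (n := 2 * m + 2) hS k1 k2 s1 s2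
      (i := i) (j := 2 * m + 2 - i) (by omega)]
  have htop : ∀ i : ℕ, 2 * m + 2 < i → b i = 0 := fun i hi => by
    rw [hb, beta_top hS a hi, Nat.cast_zero]
  have heul : ∑ j ∈ Finset.range (Fintype.card V + 1), (-1 : ℝ) ^ j * b j =
      Fintype.card X * (chiW G : ℝ) := by
    have h3 := Pool.Agent.W723.SM.beta_sum (two_ne_zero : (2 : ℝ) ≠ 0) G a sgn k1 k2 s1 s2
    have h4 := congrArg (fun q : ℚ => (q : ℝ)) h3
    push_cast at h4
    rw [← h4]
    exact Finset.sum_congr rfl fun j _ => by rw [hb]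
  have hbig : ∀ i : ℕ, Fintype.card V < i → b i = 0 := fun i hi => by
    rw [hb, beta_big G _ Set.univ ∅ hi, Nat.cast_zero]
  have heul2 : ∑ j ∈ Finset.range (2 * m + 3), (-1 : ℝ) ^ j * b j =
      Fintype.card X * (chiW G : ℝ) := by
    rw [← heul]
    have h1 : ∀ K : ℕ, (∀ i, K ≤ i → b i = 0) → ∑ j ∈ Finset.range K, (-1 : ℝ) ^ j * b j =
        ∑ j ∈ Finset.range (K + (Fintype.card V + 1) + (2 * m + 3)), (-1 : ℝ) ^ j * b j := by
      intro K hK
      refine Finset.sum_subset (Finset.range_mono (by omega)) fun j _ hj => ?_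
      rw [hK j (by simpa using hj), mul_zero]
    have h2 := h1 (2 * m + 3) (fun i hi => htop i (by omega))
    have h3 := h1 (Fintype.card V + 1) (fun i hi => hbig i (by omega))
    rw [h2]
    have h4 : ∑ j ∈ Finset.range (Fintype.card V + 1), (-1 : ℝ) ^ j * b j =
        ∑ j ∈ Finset.range (2 * m + 3 + (Fintype.card V + 1) + (2 * m + 3)), (-1 : ℝ) ^ j * b j := by
      refine Finset.sum_subset (Finset.range_mono (by omega)) fun j _ hj => ?_
      rw [hbig j (by simpa using hj), mul_zero]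
    rw [h4]
  rw [sum_symm m (fun i => (-1 : ℝ) ^ i * b i) (fun i hi => by
    rw [hdual i hi]
    congr 1
    rcases Nat.even_or_odd i with h | h
    · rw [h.neg_one_pow, Even.neg_one_pow]
      rcases h with ⟨r, hr⟩
      exact ⟨m + 1 - r, by omega⟩
    · rw [h.neg_one_pow, Odd.neg_one_pow]
      rcases h with ⟨r, hr⟩
      exact ⟨m - r, by omega⟩)] at heul2
  have hsign : ∀ j : ℕ, (-1 : ℝ) ^ (m + 1) * (-1) ^ (m + 2 + j) = - (-1) ^ j := by
    intro j
    have h1 : (-1 : ℝ) ^ (m + 1) * (-1) ^ (m + 2 + j) = ((-1) ^ (m + 1) * (-1) ^ (m + 1)) * (-1) * (-1) ^ j := by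
      ring
    have h2 : (-1 : ℝ) ^ (m + 1) * (-1) ^ (m + 1) = 1 := by
      rw [← mul_pow]; norm_num
    rw [h1, h2]
    ring
  have hsq : (-1 : ℝ) ^ (m + 1) * (-1) ^ (m + 1) = 1 := by
    rw [← mul_pow]; norm_num
  -- the Euler characteristic in terms of the middle
  have hmid : b (m + 1) = (-1) ^ (m + 1) * (chiW G : ℝ) * Fintype.card X +
      2 * ∑ j ∈ Finset.range (m + 1), (-1 : ℝ) ^ j * b (m + 2 + j) := by
    have h1 : (-1 : ℝ) ^ (m + 1) * ((-1) ^ (m + 1) * b (m + 1) +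
        2 * ∑ j ∈ Finset.range (m + 1), (-1 : ℝ) ^ (m + 2 + j) * b (m + 2 + j)) =
        b (m + 1) - 2 * ∑ j ∈ Finset.range (m + 1), (-1 : ℝ) ^ j * b (m + 2 + j) := by
      rw [mul_add, ← mul_assoc, hsq, one_mul, Finset.mul_sum, Finset.mul_sum, Finset.mul_sum,
        sub_eq_add_neg]
      congr 1
      rw [← Finset.sum_neg_distrib]
      refine Finset.sum_congr rfl fun j _ => ?_
      linear_combination (2 * b (m + 2 + j)) * hsign j
    rw [heul2] at h1
    linarith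
  have hsplit : ∑ j ∈ Finset.range (m + 1), (-1 : ℝ) ^ j * b (m + 2 + j) =
      ∑ j ∈ (Finset.range (m + 1)).filter Even, b (m + 2 + j) -
      ∑ j ∈ (Finset.range (m + 1)).filter (fun j => ¬ Even j), b (m + 2 + j) := by
    rw [← Finset.sum_filter_add_sum_filter_not (Finset.range (m + 1)) Even, sub_eq_add_neg,
      ← Finset.sum_neg_distrib]
    congr 1
    · refine Finset.sum_congr rfl fun j hj => ?_
      rw [(Finset.mem_filter.1 hj).2.neg_one_pow, one_mul]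
    · refine Finset.sum_congr rfl fun j hj => ?_
      rw [(Nat.not_even_iff_odd.1 (Finset.mem_filter.1 hj).2).neg_one_pow]
      ring
  have hbound : ∀ p : ℕ → Prop, ∀ [DecidablePred p],
      ∑ j ∈ (Finset.range (m + 1)).filter p, b (m + 2 + j) ≤
      (∑ j ∈ (Finset.range (m + 1)).filter p, q (m + 2 + j) +
        (m + 1) * δ) * Fintype.card X := by
    intro p _
    have h1 : ∑ j ∈ (Finset.range (m + 1)).filter p, b (m + 2 + j) ≤
        ∑ j ∈ (Finset.range (m + 1)).filter p,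
          (q (m + 2 + j) + δ) * Fintype.card X :=
      Finset.sum_le_sum fun j _ => hup (m + 2 + j) (by omega)
    refine h1.trans ?_
    rw [← Finset.sum_mul, Finset.sum_add_distrib, Finset.sum_const, nsmul_eq_mul]
    refine mul_le_mul_of_nonneg_right ?_ hX
    have h2 : (((Finset.range (m + 1)).filter p).card : ℝ) ≤ m + 1 := by
      have := Finset.card_filter_le (Finset.range (m + 1)) p
      rw [Finset.card_range] at this
      exact_mod_cast this
    have h3 := mul_le_mul_of_nonneg_right h2 hδ0.le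
    linarith
  have hE : qEven q m = ∑ j ∈ (Finset.range (m + 1)).filter Even, q (m + 2 + j) := rfl
  have hO : qOdd q m = ∑ j ∈ (Finset.range (m + 1)).filter (fun j => ¬ Even j), q (m + 2 + j) := rfl
  have hpos : ∀ p : ℕ → Prop, ∀ [DecidablePred p],
      0 ≤ ∑ j ∈ (Finset.range (m + 1)).filter p, b (m + 2 + j) := fun p _ =>
    Finset.sum_nonneg fun j _ => hb0 _
  have hc : (2 * (m + 1) * δ) * (Fintype.card X : ℝ) ≤ ε * Fintype.card X :=
    mul_le_mul_of_nonneg_right hδm hX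
  refine ⟨fun i hi => ?_, fun i hi => ?_, ?_, ?_⟩
  · rw [← hb]
    refine (hup i hi).trans (mul_le_mul_of_nonneg_right ?_ hX)
    linarith
  · rw [← hb, hdual i (by omega)]
    refine (hup _ (by omega)).trans (mul_le_mul_of_nonneg_right ?_ hX)
    linarith
  · rw [← hb, hmid, hsplit, hE]
    have h1 := hbound Even
    have h2 := hpos (fun j => ¬ Even j)
    nlinarith
  · rw [← hb, hmid, hsplit, hO]
    have h1 := hbound (fun j => ¬ Even j)
    have h2 := hpos Even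
    nlinarith

/-- **The Charney-Davis inequality up to the bad simplices.** -/
theorem charney_davis_ub {V : Type} [Fintype V] [LinearOrder V] (G : SimpleGraph V) (m : ℕ)
    (hS : HSph (2 * m + 2) G) (q : ℕ → ℝ)
    (hq : ∀ i, 0 ≤ q i) (hB : ∀ i, m + 2 ≤ i → UB G Set.univ ∅ i (q i)) :
    - (2 * qEven q m) ≤ (-1 : ℝ) ^ (m + 1) * (chiW G : ℝ) := by
  classical
  by_contra hneg
  push Not at hneg
  obtain ⟨ε, hε0, hε⟩ : ∃ ε : ℝ, 0 < ε ∧
      (-1 : ℝ) ^ (m + 1) * (chiW G : ℝ) + 2 * qEven q m + ε < 0 := by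
    refine ⟨(- (2 * qEven q m) - (-1 : ℝ) ^ (m + 1) * (chiW G : ℝ)) / 2, by linarith, ?_⟩
    linarith
  obtain ⟨E, hE1, hE2⟩ := level G m hS q hq hB ε hε0
  have : Fact (Nat.Prime 3) := ⟨Nat.prime_three⟩
  obtain ⟨Y, fY, nY, P, ev, h1, h2, h3, h4⟩ := nilp 3 V G E (by norm_num) hE1
  have h5 := (hE2 Y P.a ev P.sgn P.inv P.comm P.sgn_self P.sgn_other h1 h2 h3 h4).2.2.1
  have h6 : (0 : ℝ) ≤ (beta G (pull ℝ P.a) Set.univ ∅ (m + 1) : ℝ) := Nat.cast_nonneg _
  have h7 : (0 : ℝ) < Fintype.card Y := by exact_mod_cast Fintype.card_pos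
  have h8 := mul_neg_of_neg_of_pos hε h7
  linarith

/-- **The Singer conjecture up to the bad simplices**: the Betti numbers of the subgroups of finite
index of the commutator subgroup. -/
theorem near_singer {V : Type} [Fintype V] [LinearOrder V] (G : SimpleGraph V) (m : ℕ)
    (hS : HSph (2 * m + 2) G) (q : ℕ → ℝ)
    (hq : ∀ i, 0 ≤ q i) (hB : ∀ i, m + 2 ≤ i → UB G Set.univ ∅ i (q i)) (ε : ℝ) (hε : 0 < ε) :
    ∃ E : Finset (W G), (1 : W G) ∉ E ∧ ∀ H : Subgroup (W G), H ≤ commutator (W G) → H.FiniteIndex →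
      (∀ g ∈ E, ∀ x : W G, x * g * x⁻¹ ∉ H) →
      (∀ i : ℕ, m + 1 < i → (finrank ℝ (HInv G H i) : ℝ) ≤
        (q i + ε) * H.index) ∧
      (∀ i : ℕ, i < m + 1 → (finrank ℝ (HInv G H i) : ℝ) ≤
        (q (2 * m + 2 - i) + ε) * H.index) ∧
      (finrank ℝ (HInv G H (m + 1)) : ℝ) ≤
        ((-1) ^ (m + 1) * (chiW G : ℝ) + 2 * qEven q m + ε) * H.index ∧
      ((-1) ^ (m + 1) * (chiW G : ℝ) - 2 * qOdd q m - ε) * H.index ≤
        (finrank ℝ (HInv G H (m + 1)) : ℝ) := by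
  classical
  obtain ⟨E, hE1, hE2⟩ := level G m hS q hq hB ε hε
  refine ⟨E, hE1, fun H hH hfin hE => ?_⟩
  have : Finite (Quotient (QuotientGroup.rightRel H)) :=
    Finite.of_equiv _ (QuotientGroup.quotientRightRelEquivQuotientLeftRel H).symm
  let _ : Fintype (Quotient (QuotientGroup.rightRel H)) := Fintype.ofFinite _
  have hcard : (Fintype.card (Quotient (QuotientGroup.rightRel H)) : ℝ) = H.index := by
    rw [← Nat.card_eq_fintype_card, Nat.card_congr (QuotientGroup.quotientRightRelEquivQuotientLeftRel H)]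
    rfl
  have h4 := hE2 _ (aa G H) (ev G H) (sn G H hH) (aa_inv G H) (fun u v h x => aa_comm G H u v h x)
    (sn_self G H hH) (fun u v h x => sn_other G H hH u v h x)
    (ev_one G H) (ev_mul G H) (fun _ _ => rfl) (fun g hg x => ev_free G H (fun y => hE g hg y) x)
  rw [hcard] at h4
  simp only [finrank_HInv]
  exact h4

end Pool.Agent.Helper33.BF
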