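import Pool.Agent.Helper33.BF3

/-!
# The bounds by the numbers of bad cliques
-/

set_option autoImplicit false

namespace Pool.Agent.Helper33.BF

open Module Pool.Agent.W907.SG Pool.Agent.W907.SM Pool.Agent.W461.SGN Pool.Agent.W397.SG
  Pool.Agent.TH652.Above Pool.Agent.Y132.SI Pool.Agent.Helper33.NS

/-- Number of the bad cliques with `i` elements. -/
noncomputable def badCl {V : Type} [Fintype V] [LinearOrder V] (G : SimpleGraph V)
    (B : ℕ → Finset V → Set V) (i : ℕ) : ℕ := badNum G B ∅ Set.univ i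

/-- The sum of `f_i / 2^i` over `i = m + 2, m + 4, ..., ≤ 2 m + 2`, where `f_i` is the number of the bad
cliques with `i` elements. -/
noncomputable def flagEven {V : Type} [Fintype V] [LinearOrder V] (G : SimpleGraph V)
    (B : ℕ → Finset V → Set V) (m : ℕ) : ℚ :=
  ∑ j ∈ (Finset.range (m + 1)).filter Even, (badCl G B (m + 2 + j) : ℚ) / 2 ^ (m + 2 + j)

/-- The sum of `f_i / 2^i` over `i = m + 3, m + 5, ..., ≤ 2 m + 2`, where `f_i` is the number of the bad
cliques with `i` elements. -/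
noncomputable def flagOdd {V : Type} [Fintype V] [LinearOrder V] (G : SimpleGraph V)
    (B : ℕ → Finset V → Set V) (m : ℕ) : ℚ :=
  ∑ j ∈ (Finset.range (m + 1)).filter (fun j => ¬ Even j),
    (badCl G B (m + 2 + j) : ℚ) / 2 ^ (m + 2 + j)

/-- vanishing -/
theorem l2van_flags {V : Type} [Fintype V] [LinearOrder V] (G : SimpleGraph V)
    (B : ℕ → Finset V → Set V) (I : ℕ) (hB : GoodFlags G B I) (i : ℕ) (hi : I ≤ i)
    (h0 : badCl G B i = 0) : L2Van G i := by
  refine l2van_ub G i ((UB.bad_univ G B I hB i hi).mono ?_)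
  unfold badCl at h0
  rw [h0]
  simp

/-- Betti numbers of the subgroups of finite index -/
theorem betti_le_flags {V : Type} [Fintype V] [LinearOrder V] (G : SimpleGraph V)
    (B : ℕ → Finset V → Set V) (I : ℕ) (hB : GoodFlags G B I) (ε : ℝ) (hε : 0 < ε) :
    ∃ E : Finset (W G), (1 : W G) ∉ E ∧ ∀ H : Subgroup (W G), H.FiniteIndex →
      (∀ g ∈ E, ∀ x : W G, x * g * x⁻¹ ∉ H) → ∀ i : ℕ, I ≤ i →
        (finrank ℝ (HInv G H i) : ℝ) ≤ ((badCl G B i : ℝ) / 2 ^ i + ε) * H.index :=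
  betti_le_ub G (fun i => (badCl G B i : ℝ) / 2 ^ i) I (fun i => by positivity)
    (fun i hi => UB.bad_univ G B I hB i hi) ε hε

/-- **The Charney-Davis inequality up to the bad cliques.** -/
theorem charney_davis_flags {V : Type} [Fintype V] [LinearOrder V] (G : SimpleGraph V) (m : ℕ)
    (hS : HSph (2 * m + 2) G) (B : ℕ → Finset V → Set V) (hB : GoodFlags G B (m + 2)) :
    - (2 * flagEven G B m) ≤ (-1 : ℚ) ^ (m + 1) * chiW G := by
  have h := charney_davis_ub G m hS (fun i => (badCl G B i : ℝ) / 2 ^ i) (fun i => by positivity)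
    (fun i hi => UB.bad_univ G B (m + 2) hB i hi)
  have h2 : ((flagEven G B m : ℚ) : ℝ) = qEven (fun i => (badCl G B i : ℝ) / 2 ^ i) m := by
    unfold flagEven qEven
    push_cast
    rfl
  rw [← h2] at h
  exact_mod_cast h

/-- **The Singer conjecture up to the bad cliques.** -/
theorem near_singer_flags {V : Type} [Fintype V] [LinearOrder V] (G : SimpleGraph V) (m : ℕ)
    (hS : HSph (2 * m + 2) G) (B : ℕ → Finset V → Set V) (hB : GoodFlags G B (m + 2))
    (ε : ℝ) (hε : 0 < ε) :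
    ∃ E : Finset (W G), (1 : W G) ∉ E ∧ ∀ H : Subgroup (W G), H ≤ commutator (W G) → H.FiniteIndex →
      (∀ g ∈ E, ∀ x : W G, x * g * x⁻¹ ∉ H) →
      (∀ i : ℕ, m + 1 < i → (finrank ℝ (HInv G H i) : ℝ) ≤
        ((badCl G B i : ℝ) / 2 ^ i + ε) * H.index) ∧
      (∀ i : ℕ, i < m + 1 → (finrank ℝ (HInv G H i) : ℝ) ≤
        ((badCl G B (2 * m + 2 - i) : ℝ) / 2 ^ (2 * m + 2 - i) + ε) * H.index) ∧
      (finrank ℝ (HInv G H (m + 1)) : ℝ) ≤
        ((-1) ^ (m + 1) * (chiW G : ℝ) + 2 * (flagEven G B m : ℝ) + ε) * H.index ∧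
      ((-1) ^ (m + 1) * (chiW G : ℝ) - 2 * (flagOdd G B m : ℝ) - ε) * H.index ≤
        (finrank ℝ (HInv G H (m + 1)) : ℝ) := by
  have h2 : ((flagEven G B m : ℚ) : ℝ) = qEven (fun i => (badCl G B i : ℝ) / 2 ^ i) m := by
    unfold flagEven qEven
    push_cast
    rfl
  have h3 : ((flagOdd G B m : ℚ) : ℝ) = qOdd (fun i => (badCl G B i : ℝ) / 2 ^ i) m := by
    unfold flagOdd qOdd
    push_cast
    rfl
  rw [h2, h3]
  exact near_singer G m hS (fun i => (badCl G B i : ℝ) / 2 ^ i) (fun i => by positivity)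
    (fun i hi => UB.bad_univ G B (m + 2) hB i hi) ε hε

/-- vanishing for homology spheres, with duality -/
theorem l2van_flags_sphere {V : Type} [Fintype V] [LinearOrder V] (G : SimpleGraph V) (m : ℕ)
    (hS : HSph (2 * m + 2) G) (B : ℕ → Finset V → Set V) (hB : GoodFlags G B (m + 2)) (i : ℕ)
    (hi : m + 1 < i) (h0 : badCl G B i = 0) :
    L2Van G i ∧ ∀ j, i + j = 2 * m + 2 → L2Van G j := by
  have h1 := l2van_flags G B (m + 2) hB i hi h0
  exact ⟨h1, fun j hj => Pool.Agent.TH652.Dual.l2_duality (n := 2 * m + 2) hS (i := j) (j := i)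
    (by omega) h1⟩

end Pool.Agent.Helper33.BF
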