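import Pool.Agent.Y108.SY.Pert2

/-!
# Positivity on the common null vectors of a set of forms
-/

set_option autoImplicit false

open Set Filter Topology MeasureTheory
open scoped Manifold ContDiff

noncomputable section

namespace Pool.Agent.Helper33.CH

open Pool.Agent.Y501.SY
open Pool.Agent.Y455.SY (Q A B BA A_surj Q_eq Q_smul Q_cont Q_sum)
open Pool.Agent.Y108.SY (A_ne Q_cont')

variable {d : ℕ} {X : Type} [TopologicalSpace X] [ChartedSpace (E d) X]

/-- `τ` is positive on the nonzero vectors `v` with `σ(v, J v) = 0` for all `σ` in `S`. -/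
def NP (S : Set (Form d X 2)) (J : End d X) (τ : Form d X 2) (x : X) : Prop :=
  ∀ v : TangentSpace (𝓡 d) x, v ≠ 0 → (∀ σ ∈ S, σ x ![v, J x v] = 0) → 0 < τ x ![v, J x v]

theorem np_sph (S : Set (Form d X 2)) (J : End d X) (x : X) (p : E d) (r : E d → ℝ)
    (h3 : ∀ (s : ℝ) (v : E d), r (s • v) = s ^ 2 * r v)
    (h : ∀ v ∈ Metric.sphere (0 : E d) 1, (∀ σ ∈ S, Q σ J x p v = 0) → 0 < r v) :
    ∀ v : E d, v ≠ 0 → (∀ σ ∈ S, Q σ J x p v = 0) → 0 < r v := by
  intro v hv hq
  have e : v = ‖v‖ • (‖v‖⁻¹ • v) := by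
    rw [smul_smul, mul_inv_cancel₀ (norm_ne_zero_iff.2 hv), one_smul]
  rw [e, h3]
  refine mul_pos (pow_pos (norm_pos_iff.2 hv) 2) (h _ ?_ fun σ hσ => ?_)
  · rw [mem_sphere_zero_iff_norm, norm_smul, norm_inv, norm_norm,
      inv_mul_cancel₀ (norm_ne_zero_iff.2 hv)]
  · rw [Q_smul, hq σ hσ, mul_zero]

section

variable [IsManifold (𝓡 d) ∞ X]

theorem np_chart (S : Set (Form d X 2)) (τ : Form d X 2) (J : End d X) (x : X) {p : E d}
    (hp : p ∈ (chartAt (E d) x).target) :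
    NP S J τ ((chartAt (E d) x).symm p) ↔
      ∀ v : E d, v ≠ 0 → (∀ σ ∈ S, Q σ J x p v = 0) → 0 < Q τ J x p v := by
  constructor
  · intro h v hv h1
    rw [Q_eq _ J x hp]
    refine h _ (A_ne hp hv) fun σ hσ => ?_
    rw [← Q_eq _ J x hp]
    exact h1 σ hσ
  · intro h v hv h1
    obtain ⟨w, hw⟩ := A_surj x hp v
    have h3 := h w (by
      rintro rfl
      apply hv
      rw [← hw, map_zero]
      rfl) (fun σ hσ => by
        rw [Q_eq σ J x hp, hw]
        exact h1 σ hσ)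
    rw [Q_eq τ J x hp, hw] at h3
    exact h3

/-- positivity on the null vectors is stable under small perturbations -/
theorem pertS {J : End d X} (hJ : IsAlmostComplex J) {κ : Type} [Fintype κ]
    {S : Set (Form d X 2)} {τ : Form d X 2} (η : κ → Form d X 2) (hS : ∀ σ ∈ S, IsSmooth σ)
    (hτ : IsSmooth τ) (hη : ∀ k, IsSmooth (η k)) {x : X} (hx : NP S J τ x) :
    ∃ ε : ℝ, 0 < ε ∧ ∀ᶠ y in 𝓝 x, ∀ t : κ → ℝ, (∀ k, |t k| ≤ ε) →
      NP S J (τ + ∑ k, t k • η k) y := by
  classical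
  set c := chartAt (E d) x with hc
  have hcx : c x ∈ c.target := mem_chart_target (E d) x
  have hx' : ∀ v : E d, v ≠ 0 → (∀ σ ∈ S, Q σ J x (c x) v = 0) → 0 < Q τ J x (c x) v := by
    rw [← np_chart S τ J x hcx, c.left_inv (mem_chart_source (E d) x)]
    exact hx
  set G : (E d × (κ → ℝ)) → E d → ℝ := fun z v => Q τ J x z.1 v + ∑ k, z.2 k * Q (η k) J x z.1 v
    with hG
  have key : ∀ᶠ z : E d × (κ → ℝ) in 𝓝 (c x, 0), ∀ v ∈ Metric.sphere (0 : E d) 1,
      ((∀ σ ∈ S, Q σ J x z.1 v = 0) → 0 < G z v) := by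
    refine IsCompact.eventually_forall_of_forall_eventually
      (P := fun (z : E d × (κ → ℝ)) (v : E d) =>
        (∀ σ ∈ S, Q σ J x z.1 v = 0) → 0 < G z v) (isCompact_sphere _ _) ?_
    intro v hv
    have hv0 : v ≠ 0 := by
      rintro rfl
      simp at hv
    by_cases h1 : ∀ σ ∈ S, Q σ J x (c x) v = 0
    · have hcont : ContinuousAt (fun w : (E d × (κ → ℝ)) × E d => G w.1 w.2)
          ((c x, 0), v) := by
        refine (Q_cont' hτ hJ x hcx 0).add ?_
        refine tendsto_finsetSum _ fun k _ => ?_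
        have h3 : ContinuousAt (fun w : (E d × (κ → ℝ)) × E d => w.1.2 k)
            ((c x, 0), v) := by
          fun_prop
        exact h3.mul (Q_cont' (hη k) hJ x hcx 0)
      have hpos : 0 < G (c x, 0) v := by
        simp only [hG, Pi.zero_apply, zero_mul, Finset.sum_const_zero, add_zero]
        exact hx' v hv0 h1
      filter_upwards [hcont.eventually (lt_mem_nhds hpos)] with w hw _
      exact hw
    · push Not at h1
      obtain ⟨σ, hσS, h1⟩ := h1
      have h3 := (Q_cont' (v := v) (hS σ hσS) hJ x hcx (0 : κ → ℝ)).eventually_ne h1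
      filter_upwards [h3] with w hw hw'
      exact absurd (hw' σ hσS) hw
  rw [nhds_prod_eq, eventually_prod_iff] at key
  obtain ⟨pa, hpa, pb', hpb, hP⟩ := key
  rw [Metric.eventually_nhds_iff] at hpb
  obtain ⟨δ, hδ, hpb⟩ := hpb
  refine ⟨δ / 2, by positivity, ?_⟩
  have h1 : ∀ᶠ y in 𝓝 x, pa (c y) :=
    (c.continuousAt (mem_chart_source (E d) x)).eventually hpa
  have h2 : ∀ᶠ y in 𝓝 x, y ∈ c.source := c.open_source.mem_nhds (mem_chart_source (E d) x)
  filter_upwards [h1, h2] with y hy hys t ht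
  have hcy : c y ∈ c.target := c.map_source hys
  rw [← c.left_inv hys, np_chart _ _ J x hcy]
  refine np_sph S J x (c y) _ (fun s v => Q_smul _ J x (c y) v s) ?_
  intro v hv
  rw [Q_sum]
  refine hP hy (hpb ?_) v hv
  rw [dist_zero_right]
  have h3 : ‖t‖ ≤ δ / 2 := by
    rw [pi_norm_le_iff_of_nonneg (by positivity)]
    exact ht
  linarith

/-- lexicographic positivity -/
theorem nullS {J : End d X} (hJ : IsAlmostComplex J) {S : Set (Form d X 2)}
    {θ η : Form d X 2} (hS : ∀ σ ∈ S, IsSmooth σ) (hθ : IsSmooth θ) (hη : IsSmooth η) {F : Set X}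
    (hF : ∀ y ∈ F, ∀ v : TangentSpace (𝓡 d) y, (∀ σ ∈ S, σ y ![v, J y v] = 0) →
      0 ≤ θ y ![v, J y v]) {x : X} (hx : NP (insert θ S) J η x) :
    ∃ ε₀ : ℝ, 0 < ε₀ ∧ ∀ᶠ y in 𝓝 x, y ∈ F → ∀ ε : ℝ, 0 < ε → ε ≤ ε₀ → NP S J (θ + ε • η) y := by
  classical
  set c := chartAt (E d) x with hc
  have hcx : c x ∈ c.target := mem_chart_target (E d) x
  have hF' : ∀ p ∈ c.target, c.symm p ∈ F → ∀ v : E d, (∀ σ ∈ S, Q σ J x p v = 0) →
      0 ≤ Q θ J x p v := by
    intro p hp hpF v h1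
    rw [Q_eq _ J x hp]
    refine hF _ hpF _ fun σ hσ => ?_
    rw [← Q_eq _ J x hp]
    exact h1 σ hσ
  have hx' : ∀ v : E d, v ≠ 0 → (∀ σ ∈ S, Q σ J x (c x) v = 0) → Q θ J x (c x) v = 0 →
      0 < Q η J x (c x) v := by
    have h0 : ∀ v : E d, v ≠ 0 → (∀ σ ∈ insert θ S, Q σ J x (c x) v = 0) →
        0 < Q η J x (c x) v := by
      rw [← np_chart (insert θ S) η J x hcx, c.left_inv (mem_chart_source (E d) x)]
      exact hx
    intro v hv h1 h2
    refine h0 v hv fun σ hσ => ?_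
    rcases mem_insert_iff.1 hσ with rfl | h
    · exact h2
    · exact h1 σ h
  set G : (E d × ℝ) → E d → ℝ := fun z v => Q θ J x z.1 v + z.2 * Q η J x z.1 v with hG
  have key : ∀ᶠ z : E d × ℝ in 𝓝 (c x, 0), ∀ v ∈ Metric.sphere (0 : E d) 1,
      (c.symm z.1 ∈ F → 0 < z.2 → (∀ σ ∈ S, Q σ J x z.1 v = 0) → 0 < G z v) := by
    refine IsCompact.eventually_forall_of_forall_eventually
      (P := fun (z : E d × ℝ) (v : E d) =>
        c.symm z.1 ∈ F → 0 < z.2 → (∀ σ ∈ S, Q σ J x z.1 v = 0) → 0 < G z v)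
      (isCompact_sphere _ _) ?_
    intro v hv
    have hv0 : v ≠ 0 := by
      rintro rfl
      simp at hv
    have h4 : ∀ᶠ w : (E d × ℝ) × E d in 𝓝 ((c x, 0), v), w.1.1 ∈ c.target := by
      have h5 : ContinuousAt (fun w : (E d × ℝ) × E d => w.1.1) ((c x, 0), v) := by fun_prop
      exact h5.eventually (c.open_target.mem_nhds hcx)
    by_cases h1 : ∀ σ ∈ S, Q σ J x (c x) v = 0
    · rcases lt_trichotomy (Q θ J x (c x) v) 0 with h2 | h2 | h2
      · have h3 := (Q_cont' (v := v) hθ hJ x hcx (0 : ℝ)).eventually (gt_mem_nhds h2)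
        filter_upwards [h3, h4] with w hw hw' hwF _ hwσ
        exact absurd (hF' _ hw' hwF _ hwσ) (not_le.2 hw)
      · have hpos := hx' v hv0 h1 h2
        have h3 := (Q_cont' (v := v) hη hJ x hcx (0 : ℝ)).eventually (lt_mem_nhds hpos)
        filter_upwards [h3, h4] with w hw hw' hwF hpos' hwσ
        have h6 := hF' _ hw' hwF w.2 hwσ
        have h7 := mul_pos hpos' hw
        simp only [hG]
        linarith
      · have hcont : ContinuousAt (fun w : (E d × ℝ) × E d => G w.1 w.2) ((c x, 0), v) := by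
          refine (Q_cont' hθ hJ x hcx 0).add ?_
          have h3 : ContinuousAt (fun w : (E d × ℝ) × E d => w.1.2) ((c x, 0), v) := by
            fun_prop
          exact h3.mul (Q_cont' hη hJ x hcx 0)
        have hpos : 0 < G (c x, 0) v := by
          simp only [hG, zero_mul, add_zero]
          exact h2
        filter_upwards [hcont.eventually (lt_mem_nhds hpos)] with w hw _ _ _
        exact hw
    · push Not at h1
      obtain ⟨σ, hσS, h1⟩ := h1
      have h3 := (Q_cont' (v := v) (hS σ hσS) hJ x hcx (0 : ℝ)).eventually_ne h1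
      filter_upwards [h3] with w hw _ _ hw'
      exact absurd (hw' σ hσS) hw
  rw [nhds_prod_eq, eventually_prod_iff] at key
  obtain ⟨pa, hpa, pb', hpb, hP⟩ := key
  rw [Metric.eventually_nhds_iff] at hpb
  obtain ⟨δ, hδ, hpb⟩ := hpb
  refine ⟨δ / 2, by positivity, ?_⟩
  have h1 : ∀ᶠ y in 𝓝 x, pa (c y) :=
    (c.continuousAt (mem_chart_source (E d) x)).eventually hpa
  have h2 : ∀ᶠ y in 𝓝 x, y ∈ c.source := c.open_source.mem_nhds (mem_chart_source (E d) x)
  filter_upwards [h1, h2] with y hy hys hyF ε hε hεδ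
  have hcy : c y ∈ c.target := c.map_source hys
  have hleft : c.symm (c y) = y := c.left_inv hys
  rw [← hleft, np_chart _ _ J x hcy]
  refine np_sph S J x (c y) _ (fun s v => Q_smul _ J x (c y) v s) ?_
  intro v hv hσv
  have h3 : Q (θ + ε • η) J x (c y) v = Q θ J x (c y) v + ε * Q η J x (c y) v := by
    have h4 := Q_sum (κ := Unit) θ (fun _ => η) (fun _ => ε) J x (c y) v
    simpa using h4
  rw [h3]
  refine hP hy (hpb ?_) v hv (by rw [hleft]; exact hyF) hε hσv
  rw [dist_zero_right, Real.norm_eq_abs, abs_of_pos hε]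
  linarith

theorem NP.nhds {J : End d X} (hJ : IsAlmostComplex J) {S : Set (Form d X 2)}
    {τ : Form d X 2} (hS : ∀ σ ∈ S, IsSmooth σ) (hτ : IsSmooth τ) {x : X}
    (h : NP S J τ x) : ∀ᶠ y in 𝓝 x, NP S J τ y := by
  obtain ⟨ε, hε, hp⟩ := pertS hJ (κ := Fin 0) (fun _ => 0) hS hτ (fun k => k.elim0) h
  filter_upwards [hp] with y hy
  have := hy (fun _ => 0) (fun k => k.elim0)
  simpa using this

end

end Pool.Agent.Helper33.CH
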