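import Pool.Agent.Helper33.CH1
import Pool.Agent.Y501.SY.Main3

/-!
# Thin exceptional sets, relative to the common null vectors of a set of forms
-/

set_option autoImplicit false

open Set Filter Topology MeasureTheory
open scoped Manifold ContDiff

noncomputable section

namespace Pool.Agent.Helper33.CH

open Pool.Agent.Y501.SY

section

variable {d : ℕ} {X : Type} [TopologicalSpace X] [ChartedSpace (E d) X]

/-- `C` is thin at `z`, relative to `S` and `J`. -/
def ThinS (S : Set (Form d X 2)) (J : End d X) (C : Set X) (z : X) : Prop :=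
  ∃ (n : ℕ) (a b : Fin n → X → ℝ) (N : Set X), N ∈ 𝓝 z ∧ (∀ i, SmoothFun (d := d) (a i)) ∧
    (∀ i, SmoothFun (d := d) (b i)) ∧
    (∀ i, volume ((fun x => (a i x, b i x)) '' (C ∩ N)) = 0) ∧
    NP S J (∑ i, dfdg (a i) (b i)) z

variable [IsManifold (𝓡 d) ∞ X]

theorem coreS (hG : S_GEN) (hPl : S_PLANAR) {J : End d X}
    (hJ : IsAlmostComplex J) {S : Set (Form d X 2)} (hS : ∀ σ ∈ S, IsSmooth σ)
    {K : Set X} (hK : IsCompact K) {ι : Type} [Fintype ι]
    (c a b : ι → X → ℝ) (M : ι → Set X) (hM : ∀ i, IsClosed (M i))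
    (hcM : ∀ i x, c i x ≠ 0 → x ∈ M i)
    (hc : ∀ i, SmoothFun (d := d) (c i)) (ha : ∀ i, SmoothFun (d := d) (a i))
    (hb : ∀ i, SmoothFun (d := d) (b i))
    (hnull : ∀ i, volume ((fun x => (a i x, b i x)) '' (K ∩ M i)) = 0)
    (htau : ∀ x ∈ K, NP S J (∑ i, hdfdg (c i) (a i) (b i)) x) :
    ∃ (α : Form d X 1) (η : Form d X 2), Pair α η ∧ ∀ x ∈ K, NP S J η x := by
  classical
  -- the error forms
  let e : ι × Bool → Form d X 2 := fun k =>
    if k.2 then hdfdg (fun _ => 1) (c k.1) (b k.1) else hdfdg (fun _ => 1) (c k.1) (a k.1)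
  have he : ∀ k, IsSmooth (e k) := by
    rintro ⟨i, k⟩
    cases k
    · exact (hG d X (fun _ => 1) (c i) (a i) (SmoothFun.const 1) (hc i) (ha i)).2.1
    · exact (hG d X (fun _ => 1) (c i) (b i) (SmoothFun.const 1) (hc i) (hb i)).2.1
  have hts : IsSmooth (∑ i, hdfdg (d := d) (c i) (a i) (b i)) :=
    IsSmooth.sum _ fun i _ => (hG d X (c i) (a i) (b i) (hc i) (ha i) (hb i)).2.1
  obtain ⟨ε, hε, hpert⟩ := unif hK
    (fun ε y => ∀ t : ι × Bool → ℝ, (∀ k, |t k| ≤ ε) →
      NP S J ((∑ i, hdfdg (c i) (a i) (b i)) + ∑ k, t k • e k) y)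
    (fun ε ε' y hle hp t ht => hp t fun k => (ht k).trans hle)
    (fun x hx => pertS hJ e hS hts he (htau x hx))
  have hcpt : ∀ i, IsCompact ((fun x => (a i x, b i x)) '' (K ∩ M i)) := fun i =>
    (hK.inter_right (hM i)).image ((ha i).continuous.prodMk (hb i).continuous)
  choose P Q hPs hQs hPε hQε hPQ using fun i => hPl _ (hcpt i) (hnull i) ε hε
  have s1 : ∀ i, SmoothFun (d := d) (fun x => P i (a i x)) := fun i =>
    SmoothFun.comp1 (hPs i) (ha i)
  have s2 : ∀ i, SmoothFun (d := d) (fun x => Q i (a i x, b i x)) := fun i =>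
    SmoothFun.comp2 (hQs i) (ha i) (hb i)
  have s1' : ∀ i, SmoothFun (d := d) (fun x => c i x * P i (a i x)) := fun i => (hc i).mul (s1 i)
  have s2' : ∀ i, SmoothFun (d := d) (fun x => c i x * Q i (a i x, b i x)) := fun i =>
    (hc i).mul (s2 i)
  have s2'' : ∀ i, SmoothFun (d := d) (fun x => (-1) * (c i x * Q i (a i x, b i x))) := fun i =>
    (SmoothFun.const (-1)).mul (s2' i)
  refine ⟨∑ i, (fdg (fun x => c i x * P i (a i x)) (b i) +
      fdg (fun x => (-1) * (c i x * Q i (a i x, b i x))) (a i)),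
    ∑ i, (dfdg (fun x => c i x * P i (a i x)) (b i) +
      dfdg (fun x => (-1) * (c i x * Q i (a i x, b i x))) (a i)), ?_, ?_⟩
  · exact Pair.sum _ fun i _ => Pair.add _ _ _ _ (Pair.gen _ _ (s1' i) (hb i))
      (Pair.gen _ _ (s2'' i) (ha i))
  · intro x hx v hv hσv
    let t : ι × Bool → ℝ := fun k => if k.2 then P k.1 (a k.1 x) else - Q k.1 (a k.1 x, b k.1 x)
    have ht : ∀ k, |t k| ≤ ε := by
      rintro ⟨i, k⟩
      cases k
      · change |-Q i (a i x, b i x)| ≤ ε
        rw [abs_neg]; exact hQε i _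
      · exact hPε i _
    have h1 := hpert x hx t ht v hv hσv
    refine lt_of_lt_of_eq h1 ?_
    have h2 : ((∑ i, hdfdg (d := d) (c i) (a i) (b i)) + ∑ k, t k • e k) x ![v, J x v] =
        (∑ i, hdfdg (d := d) (c i) (a i) (b i)) x ![v, J x v] +
          (∑ k, t k • e k) x ![v, J x v] := rfl
    rw [h2, sum_apply2, sum_apply2, sum_apply2, Fintype.sum_prod_type, ← Finset.sum_add_distrib]
    refine Finset.sum_congr rfl fun i _ => ?_
    rw [Fintype.sum_bool]
    have h3 : (t (i, true) • e (i, true)) x ![v, J x v] =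
        P i (a i x) * (hdfdg (d := d) (fun _ => 1) (c i) (b i) x ![v, J x v]) := rfl
    have h4 : (t (i, false) • e (i, false)) x ![v, J x v] =
        (- Q i (a i x, b i x)) * (hdfdg (d := d) (fun _ => 1) (c i) (a i) x ![v, J x v]) := rfl
    have h5 : (dfdg (d := d) (fun x => c i x * P i (a i x)) (b i) +
        dfdg (fun x => (-1) * (c i x * Q i (a i x, b i x))) (a i) : Form d X 2) x ![v, J x v] =
        dfdg (d := d) (fun x => c i x * P i (a i x)) (b i) x ![v, J x v] +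
        dfdg (d := d) (fun x => (-1) * (c i x * Q i (a i x, b i x))) (a i) x ![v, J x v] := rfl
    rw [h3, h4, h5, hdfdg_apply, hdfdg_apply, hdfdg_apply, dfdg_apply, dfdg_apply,
      dd_mul (hc i) (s1 i), dd_mul (hc i) (s1 i), dd_comp1 (hPs i) (ha i),
      dd_comp1 (hPs i) (ha i), dd_mul (SmoothFun.const (-1)) (s2' i),
      dd_mul (SmoothFun.const (-1)) (s2' i), dd_mul (hc i) (s2 i), dd_mul (hc i) (s2 i),
      dd_comp2 (hQs i) (ha i) (hb i), dd_comp2 (hQs i) (ha i) (hb i)]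
    have h6 : ∀ w : TangentSpace (𝓡 d) x, dd (d := d) (fun _ : X => (-1 : ℝ)) x w = 0 := by
      intro w
      unfold dd
      rw [mfderiv_const]; rfl
    rw [h6, h6]
    have h7 : c i x * fderiv ℝ (Q i) (a i x, b i x) ((0, 1) : ℝ × ℝ) =
        c i x * (1 - deriv (P i) (a i x)) := by
      by_cases hcx : c i x = 0
      · rw [hcx, zero_mul, zero_mul]
      · have h8 := hPQ i (a i x, b i x) ⟨x, ⟨hx, hcM i x hcx⟩, rfl⟩
        have h9 : fderiv ℝ (Q i) (a i x, b i x) ((0, 1) : ℝ × ℝ) = 1 - deriv (P i) (a i x) := by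
          have h8' : deriv (P i) (a i x) +
            fderiv ℝ (Q i) (a i x, b i x) ((0, 1) : ℝ × ℝ) = 1 := h8
          linarith
        rw [h9]
    generalize fderiv ℝ (Q i) (a i x, b i x) ((0, 1) : ℝ × ℝ) = q at *
    generalize fderiv ℝ (Q i) (a i x, b i x) ((1, 0) : ℝ × ℝ) = r at *
    generalize dd (d := d) (a i) x v = av at *
    generalize dd (d := d) (a i) x (J x v) = aJ at *
    generalize dd (d := d) (b i) x v = bv at *
    generalize dd (d := d) (b i) x (J x v) = bJ at *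
    linear_combination (-(av * bJ - aJ * bv)) * h7

theorem coverS (hG : S_GEN) (hPl : S_PLANAR) [T2Space X]
    {J : End d X} (hJ : IsAlmostComplex J) {S : Set (Form d X 2)} (hS : ∀ σ ∈ S, IsSmooth σ)
    {K : Set X} (hK : IsCompact K) (hthin : ∀ z ∈ K, ThinS S J K z) :
    ∃ (α : Form d X 1) (η : Form d X 2), Pair α η ∧ ∀ x ∈ K, NP S J η x := by
  classical
  have hchi : ∀ z ∈ K, ∃ (n : ℕ) (a b : Fin n → X → ℝ) (χ : X → ℝ) (M : Set X),
      (∀ i, SmoothFun (d := d) (a i)) ∧ (∀ i, SmoothFun (d := d) (b i)) ∧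
      SmoothFun (d := d) χ ∧ (∀ y, 0 ≤ χ y) ∧ 0 < χ z ∧ IsClosed M ∧ (∀ y, χ y ≠ 0 → y ∈ M) ∧
      (∀ i, volume ((fun x => (a i x, b i x)) '' (K ∩ M)) = 0) ∧
      ∀ y, χ y ≠ 0 → NP S J (∑ i, dfdg (a i) (b i)) y := by
    intro z hz
    obtain ⟨n, a, b, N, hNz, ha, hb, hnull, hposz⟩ := hthin z hz
    have hts : IsSmooth (∑ i, dfdg (d := d) (a i) (b i)) := by
      refine IsSmooth.sum _ fun i _ => ?_
      have := (hG d X (fun _ => 1) (a i) (b i) (SmoothFun.const 1) (ha i) (hb i)).2.1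
      have h2 : hdfdg (d := d) (fun _ => (1 : ℝ)) (a i) (b i) = dfdg (a i) (b i) := by
        funext x; exact one_smul ℝ _
      rwa [h2] at this
    have hnear := NP.nhds hJ hS hts hposz
    obtain ⟨f, hf⟩ := (SmoothBumpFunction.nhds_basis_support (I := 𝓡 d)
      (Filter.inter_mem hnear hNz)).ex_mem
    refine ⟨n, a, b, f, tsupport f, ha, hb, f.contMDiff, fun y => f.nonneg,
      by rw [f.eq_one]; exact one_pos, isClosed_tsupport f, fun y hy => subset_tsupport _ hy,
      fun i => ?_, fun y hy => ?_⟩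
    · refine measure_mono_null ?_ (hnull i)
      exact image_mono (inter_subset_inter_right _ (fun y hy => (hf hy).2))
    · exact (hf (subset_tsupport _ hy)).1
  choose! n a b χ M ha hb hχ hχ0 hχz hMc hχM hnull hχt using hchi
  obtain ⟨t, htK, htc⟩ := hK.elim_nhds_subcover (fun z => {y | z ∈ K → 0 < χ z y})
    (fun z hz => by
      have := (isOpen_lt continuous_const (hχ z hz).continuous).mem_nhds (hχz z hz)
      filter_upwards [this] with y hy _ using hy)
  refine coreS hG hPl hJ hS hK (ι := Σ z : ↥t, Fin (n z))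
    (fun i x => χ i.1 x) (fun i => a i.1 i.2) (fun i => b i.1 i.2) (fun i => M i.1)
    (fun i => hMc _ (htK _ i.1.2)) (fun i x h => hχM _ (htK _ i.1.2) x h)
    (fun i => hχ _ (htK _ i.1.2)) (fun i => ha _ (htK _ i.1.2) _) (fun i => hb _ (htK _ i.1.2) _)
    (fun i => hnull _ (htK _ i.1.2) _) ?_
  intro x hx v hv hσv
  rw [sum_apply2, Fintype.sum_sigma]
  have h1 : ∀ z : ↥t, ∑ i : Fin (n z), (hdfdg (d := d) (fun x => χ z x)
      (a z i) (b z i)) x ![v, J x v] =
      χ z x * (∑ i, dfdg (d := d) (a z i) (b z i)) x ![v, J x v] := by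
    intro z
    rw [sum_apply2, Finset.mul_sum]
    refine Finset.sum_congr rfl fun i _ => ?_
    rw [hdfdg_apply, dfdg_apply]
  have h3 : ∀ z : ↥t, 0 ≤ χ z x * (∑ i, dfdg (d := d) (a z i) (b z i)) x ![v, J x v] := by
    intro z
    by_cases h : χ z x = 0
    · rw [h, zero_mul]
    · exact mul_nonneg (hχ0 _ (htK _ z.2) _) (hχt z (htK _ z.2) x h v hv hσv).le
  obtain ⟨z, hzt, hz⟩ := mem_iUnion₂.1 (htc hx)
  have hz' : 0 < χ z x := hz (htK z hzt)
  calc (0 : ℝ) < χ z x * (∑ i, dfdg (d := d) (a z i) (b z i)) x ![v, J x v] :=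
        mul_pos hz' (hχt z (htK z hzt) x hz'.ne' v hv hσv)
    _ ≤ ∑ z : ↥t, χ z x * (∑ i, dfdg (d := d) (a z i) (b z i)) x ![v, J x v] :=
        Finset.single_le_sum
          (f := fun z : ↥t => χ z x * (∑ i, dfdg (d := d) (a z i) (b z i)) x ![v, J x v])
          (fun z _ => h3 z) (Finset.mem_univ (⟨z, hzt⟩ : ↥t))
    _ = _ := Finset.sum_congr rfl fun z _ => (h1 z).symm

omit [IsManifold (𝓡 d) ∞ X] in
theorem glueS {J : End d X} (hJ : IsAlmostComplex J) (S : Set (Form d X 2)) {D : Set X}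
    (hD : IsCompact D)
    (h : ∀ z ∈ D, ∃ (u : X → ℝ) (α : Form d X 1) (η : Form d X 2), SmoothFun (d := d) u ∧
      (∀ x ∈ D, ∀ v : TangentSpace (𝓡 d) x, (∀ σ ∈ S, σ x ![v, J x v] = 0) →
        dd u x v = 0) ∧
      (∀ x, 0 ≤ u x) ∧ 0 < u z ∧ Pair α η ∧
      ∀ x ∈ D, u x ≠ 0 → NP S J η x) :
    ∃ (α : Form d X 1) (η : Form d X 2), Pair α η ∧ ∀ x ∈ D, NP S J η x := by
  classical
  choose! u α η hu hu0 hun huz hpair hpos using h
  obtain ⟨t, htD, htc⟩ := hD.elim_nhds_subcover (fun z => {y | z ∈ D → 0 < u z y})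
    (fun z hz => by
      have := (isOpen_lt continuous_const (hu z hz).continuous).mem_nhds (huz z hz)
      filter_upwards [this] with y hy _ using hy)
  have h1 : ∀ z : ↥t, ∃ (α' : Form d X 1) (η' : Form d X 2), Pair α' η' ∧
      ∀ x (v w : TangentSpace (𝓡 d) x), η' x ![v, w] = u z x * η z x ![v, w] +
        (dd (u z) x v * α z x ![w] - dd (u z) x w * α z x ![v]) := by
    intro z
    obtain ⟨α', η', h1, _, h3⟩ := (hpair z (htD z z.2)).smulFun (hu z (htD z z.2))
    exact ⟨α', η', h1, h3⟩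
  choose α' η' hp' he' using h1
  refine ⟨∑ z, α' z, ∑ z, η' z, Pair.sum _ fun z _ => hp' z, ?_⟩
  intro x hxD v hv hσ
  have hσ' : ∀ σ ∈ S, σ x ![J x v, J x (J x v)] = 0 := fun σ h => by rw [null_J hJ]; exact hσ σ h
  have h2 : ∀ z : ↥t, η' z x ![v, J x v] = u z x * η z x ![v, J x v] := by
    intro z
    rw [he', hu0 z (htD z z.2) x hxD v hσ, hu0 z (htD z z.2) x hxD (J x v) hσ']
    ring
  have h3 : ∀ z : ↥t, 0 ≤ η' z x ![v, J x v] := by
    intro z
    rw [h2]
    by_cases h : u z x = 0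
    · rw [h, zero_mul]
    · exact mul_nonneg (hun z (htD z z.2) x) (hpos z (htD z z.2) x hxD h v hv hσ).le
  rw [sum_apply2]
  obtain ⟨z, hzt, hz⟩ := mem_iUnion₂.1 (htc hxD)
  have hz' : 0 < u z x := hz (htD z hzt)
  have h4 : 0 < η' ⟨z, hzt⟩ x ![v, J x v] := by
    rw [h2]
    exact mul_pos hz' (hpos z (htD z hzt) x hxD hz'.ne' v hv hσ)
  exact lt_of_lt_of_le h4 (Finset.single_le_sum (f := fun z : ↥t => η' z x ![v, J x v])
    (fun z _ => h3 z) (Finset.mem_univ (⟨z, hzt⟩ : ↥t)))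

/-- The points of `F` which have a nonzero vector null for all forms in `S`. -/
def DS (S : Set (Form d X 2)) (J : End d X) (F : Set X) : Set X :=
  {x | x ∈ F ∧ ∃ v : TangentSpace (𝓡 d) x, v ≠ 0 ∧ ∀ σ ∈ S, σ x ![v, J x v] = 0}

/-- level two -/
theorem levelS (hG : S_GEN) (hPl : S_PLANAR) [CompactSpace X] [T2Space X]
    {J : End d X} (hJ : IsAlmostComplex J) {S : Set (Form d X 2)}
    (hS : ∀ σ ∈ S, IsSmooth σ) {F : Set X} (hF : IsClosed F)
    (hthin : ∀ z ∈ DS S J F, ThinS S J (connectedComponentIn (DS S J F) z) z) :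
    ∃ (α : Form d X 1) (η : Form d X 2), Pair α η ∧ ∀ x ∈ F, NP S J η x := by
  have hopen : IsOpen {x : X | NP S J 0 x} := by
    rw [isOpen_iff_eventually]
    intro x hx
    exact NP.nhds hJ hS IsSmooth.zero hx
  have hDeq : DS S J F = F ∩ {x : X | NP S J 0 x}ᶜ := by
    ext x
    constructor
    · rintro ⟨hx, v, hv, h1⟩
      refine ⟨hx, fun h => ?_⟩
      have := h v hv h1
      exact lt_irrefl _ this
    · rintro ⟨hx, h⟩
      refine ⟨hx, ?_⟩
      by_contra hne
      exact h fun v hv h1 => absurd ⟨v, hv, h1⟩ hne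
  have hDc : IsClosed (DS S J F) := by
    rw [hDeq]; exact hF.inter hopen.isClosed_compl
  have hD : IsCompact (DS S J F) := hDc.isCompact
  obtain ⟨α, η, hpair, hη⟩ := glueS hJ S hD
    (by
      intro z hz
      obtain ⟨α, η, hpair, hη⟩ := coverS hG hPl hJ hS
        (compact_comp' hD hz) (by
          intro w hw
          have hwF := connectedComponentIn_subset _ _ hw
          rw [connectedComponentIn_eq hw]
          exact hthin w hwF)
      have hU : IsOpen {x | ∀ᶠ y in 𝓝 x, NP S J η y} := isOpen_setOfPred_eventually_nhds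
      have hcc : connectedComponentIn (DS S J F ∩ (fun _ : X => (0 : E 0)) ⁻¹' {0}) z ⊆
          {x | ∀ᶠ y in 𝓝 x, NP S J η y} := by
        have : (fun _ : X => (0 : E 0)) ⁻¹' {0} = univ := by
          ext x; simp
        rw [this, inter_univ]
        intro x hx
        exact NP.nhds hJ hS (hpair.props hG).2.1 (hη x hx)
      obtain ⟨u, hu, hu0, huz, huU, hud⟩ := sepfun (d := d) (m := 0) (Y := E 0) (f := fun _ : X => (0 : E 0))
        contMDiff_const hD hz hU hcc
      refine ⟨u, α, η, hu, fun x hx v _ => hud x hx v ?_, hu0, huz, hpair, ?_⟩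
      · rw [mfderiv_const]; rfl
      · intro x hx hux
        exact (huU x hx hux).self_of_nhds)
  refine ⟨α, η, hpair, fun x hx v hv h1 => hη x ⟨hx, v, hv, h1⟩ v hv h1⟩

end

end Pool.Agent.Helper33.CH
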