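import Pool.Agent.Helper33.CH2
import Pool.Agent.Y501.SY.FinalG

/-!
# Chains of closed forms
-/

set_option autoImplicit false

open Set Filter Topology MeasureTheory
open scoped Manifold ContDiff

noncomputable section

namespace Pool.Agent.Helper33.CH

open Pool.Agent.Y501.SY

section

variable {d : ℕ} {X : Type} [TopologicalSpace X] [ChartedSpace (E d) X]
  [IsManifold (𝓡 d) ∞ X]

/-- An exact form is added to `ζ` which makes it positive on the common null vectors of the forms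
in `S`. -/
theorem fibreS (hG : S_GEN) (hPr : S_PROD) (hPl : S_PLANAR)
    [CompactSpace X] [T2Space X] {J : End d X} (hJ : IsAlmostComplex J)
    {m : ℕ} {Y : Type} [TopologicalSpace Y]
    [ChartedSpace (E m) Y] [IsManifold (𝓡 m) ∞ Y] [T2Space Y] [SigmaCompactSpace Y] {f : X → Y}
    (hf : ContMDiff (𝓡 d) (𝓡 m) ∞ f) {S : Set (Form d X 2)} (hS : ∀ σ ∈ S, IsSmooth σ)
    {ζ : Form d X 2} (hζ : IsSmooth ζ) (hζc : IsClosedForm ζ)
    (hker : ∀ (x : X) (v : TangentSpace (𝓡 d) x), (∀ σ ∈ S, σ x ![v, J x v] = 0) →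
      mfderiv (𝓡 d) (𝓡 m) f x v = 0)
    (hfib : ∀ y : Y, ∃ (β : Form d X 1) (ρ : Form d X 2), IsSmooth β ∧ IsSmooth ρ ∧ IsD β ρ ∧
      (∀ x ∈ f ⁻¹' {y}, ∀ v : TangentSpace (𝓡 d) x, (∀ σ ∈ S, σ x ![v, J x v] = 0) →
        0 ≤ (ζ + ρ) x ![v, J x v]) ∧
      ∀ z ∈ DS (insert (ζ + ρ) S) J (f ⁻¹' {y}),
        ThinS (insert (ζ + ρ) S) J
          (connectedComponentIn (DS (insert (ζ + ρ) S) J (f ⁻¹' {y})) z) z) :
    ∃ (α : Form d X 1) (ρ : Form d X 2), IsSmooth α ∧ IsSmooth ρ ∧ IsD α ρ ∧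
      IsClosedForm (ζ + ρ) ∧ ∀ x, NP S J (ζ + ρ) x := by
  classical
  -- the fibre forms
  have hlev : ∀ y : Y, ∃ (γ : Form d X 1) (ρ : Form d X 2), IsSmooth γ ∧ IsSmooth ρ ∧ IsD γ ρ ∧
      IsClosedForm ρ ∧ ∀ x ∈ f ⁻¹' {y}, NP S J (ζ + ρ) x := by
    intro y
    obtain ⟨β, ρ, hβ, hρ, hβρ, hpos2, hthin⟩ := hfib y
    have hF : IsClosed (f ⁻¹' {y}) := isClosed_singleton.preimage hf.continuous
    have hθ : IsSmooth (ζ + ρ) := hζ.add hρ
    have hS' : ∀ σ ∈ insert (ζ + ρ) S, IsSmooth σ := by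
      intro σ h
      rcases mem_insert_iff.1 h with rfl | h
      · exact hθ
      · exact hS σ h
    have hρc : IsClosedForm ρ := by
      have h1 := (hPr d X (fun _ => 1) β ρ (SmoothFun.const 1) hβ hρ hβρ).2.2.2.1
      have h2 : prodD (fun _ : X => (1 : ℝ)) β ρ = ρ := by
        funext x
        ext m
        have h3 := (hPr d X (fun _ => 1) β ρ (SmoothFun.const 1) hβ hρ hβρ).2.2.2.2 x (m 0) (m 1)
        have h4 : ![m 0, m 1] = m := by
          funext i; fin_cases i <;> rfl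
        have h6 : ∀ w : TangentSpace (𝓡 d) x, dd (d := d) (fun _ : X => (1 : ℝ)) x w = 0 := by
          intro w
          unfold dd
          rw [mfderiv_const]; rfl
        rw [h6, h6, h4] at h3
        rw [h3]; ring
      rwa [h2] at h1
    obtain ⟨α, η, hpair, hη⟩ := levelS hG hPl hJ hS' hF hthin
    obtain ⟨hα, hηs, hαη, hηc⟩ := hpair.props hG
    obtain ⟨ε, hε, ht⟩ := unif hF.isCompact
      (fun ε x => x ∈ f ⁻¹' {y} → ∀ ε' : ℝ, 0 < ε' → ε' ≤ ε → NP S J ((ζ + ρ) + ε' • η) x)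
      (fun ε ε' y hle hp hy ε'' h0 h1 => hp hy ε'' h0 (h1.trans hle))
      (fun x hx => nullS hJ hS hθ hηs (F := f ⁻¹' {y})
        (fun x hx v hv => hpos2 x hx v hv) (hη x hx))
    refine ⟨β + ε • α, ρ + ε • η, hβ.add (hα.smul ε), hρ.add (hηs.smul ε),
      hβρ.add (hαη.smul ε) hβ (hα.smul ε), ?_, ?_⟩
    · have h1 := hρc.add (hηc.smul ε) hρ (hηs.smul ε)
      have h2 : (0 : Form d X 3) + ε • (0 : Form d X 3) = 0 := by rw [smul_zero, add_zero]
      rw [h2] at h1
      exact h1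
    · intro x hx
      have := ht x hx hx ε hε le_rfl
      rw [← add_assoc]
      exact this
  choose γ ρ hγ hρ hγρ hρc hnull using hlev
  -- neighbourhoods
  have hV : ∀ y : Y, ∃ V : Set Y, IsOpen V ∧ y ∈ V ∧
      ∀ x, f x ∈ V → NP S J (ζ + ρ y) x := by
    intro y
    have hU : IsOpen {x : X | NP S J (ζ + ρ y) x} := by
      rw [isOpen_iff_eventually]
      intro x hx
      exact NP.nhds hJ hS (hζ.add (hρ y)) hx
    have hK : IsCompact (f '' {x : X | NP S J (ζ + ρ y) x}ᶜ) :=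
      hU.isClosed_compl.isCompact.image hf.continuous
    refine ⟨(f '' {x : X | NP S J (ζ + ρ y) x}ᶜ)ᶜ, hK.isClosed.isOpen_compl, ?_, ?_⟩
    · rintro ⟨x, hx, hxy⟩
      exact hx (hnull y x hxy)
    · intro x hx
      by_contra hne
      exact hx ⟨x, hne, rfl⟩
  choose V hVo hyV hVn using hV
  have hR : IsCompact (range f) := isCompact_range hf.continuous
  obtain ⟨t, htc⟩ := hR.elim_finite_subcover V hVo (fun y _ => mem_iUnion.2 ⟨y, hyV y⟩)
  obtain ⟨r, hr⟩ := SmoothPartitionOfUnity.exists_isSubordinate (𝓡 m) hR.isClosed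
    (fun y : ↥t => V y) (fun y => hVo y) (by
      intro x hx
      obtain ⟨y, hy, hxy⟩ := mem_iUnion₂.1 (htc hx)
      exact mem_iUnion.2 ⟨⟨y, hy⟩, hxy⟩)
  have hrs : ∀ y : ↥t, SmoothFun (d := d) (fun x => r y (f x)) := fun y =>
    (r y).contMDiff.comp hf
  have hsum : ∀ x : X, ∑ y : ↥t, r y (f x) = 1 := by
    intro x
    rw [← finsum_eq_sum_of_fintype]
    exact r.sum_eq_one (mem_range_self x)
  have hP1 := fun y : ↥t => hPr d X (fun x => r y (f x)) (γ y) (ρ y) (hrs y) (hγ y) (hρ y) (hγρ y)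
  let α : Form d X 1 := ∑ y : ↥t, (fun x => r y (f x) • γ y x : Form d X 1)
  let η : Form d X 2 := ∑ y : ↥t, prodD (fun x => r y (f x)) (γ y) (ρ y)
  have hαs : IsSmooth α := IsSmooth.sum _ fun y _ => (hP1 y).1
  have hηs : IsSmooth η := IsSmooth.sum _ fun y _ => (hP1 y).2.1
  have hdsum : ∀ s : Finset ↥t, IsD (∑ y ∈ s, (fun x => r y (f x) • γ y x : Form d X 1))
      (∑ y ∈ s, prodD (fun x => r y (f x)) (γ y) (ρ y)) ∧
      IsClosedForm (∑ y ∈ s, prodD (fun x => r y (f x)) (γ y) (ρ y)) := by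
    intro s
    induction s using Finset.induction_on with
    | empty =>
      rw [Finset.sum_empty, Finset.sum_empty]
      exact ⟨IsD.zero, IsD.zero⟩
    | insert a s ha ih =>
      rw [Finset.sum_insert ha, Finset.sum_insert ha]
      refine ⟨(hP1 a).2.2.1.add ih.1 (hP1 a).1 (IsSmooth.sum _ fun y _ => (hP1 y).1), ?_⟩
      have h1 := (hP1 a).2.2.2.1.add ih.2 (hP1 a).2.1 (IsSmooth.sum _ fun y _ => (hP1 y).2.1)
      rwa [add_zero] at h1
  have hαη : IsD α η := (hdsum Finset.univ).1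
  have hηc : IsClosedForm η := (hdsum Finset.univ).2
  have hcl : IsClosedForm (ζ + η) := by
    have h1 := hζc.add hηc hζ hηs
    rwa [add_zero] at h1
  refine ⟨α, η, hαs, hηs, hαη, hcl, ?_⟩
  intro x v hv h0
  have h0' : ∀ σ ∈ S, σ x ![J x v, J x (J x v)] = 0 := fun σ h => by
    rw [null_J hJ]; exact h0 σ h
  have hdu : ∀ (y : ↥t) (w : TangentSpace (𝓡 d) x), mfderiv (𝓡 d) (𝓡 m) f x w = 0 →
      dd (d := d) (fun x => r y (f x)) x w = 0 := by
    intro y w hw
    have hbd : MDifferentiableAt (𝓡 m) 𝓘(ℝ, ℝ) (r y) (f x) :=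
      ((r y).contMDiff (f x)).mdifferentiableAt (by simp)
    have hfd : MDifferentiableAt (𝓡 d) (𝓡 m) f x := (hf x).mdifferentiableAt (by simp)
    have h1 := (hbd.hasMFDerivAt.comp x hfd.hasMFDerivAt).mfderiv
    have h2 := congrArg (fun L => L w) h1
    refine Eq.trans h2 ?_
    change (mfderiv (𝓡 m) 𝓘(ℝ, ℝ) (r y) (f x)) (mfderiv (𝓡 d) (𝓡 m) f x w) = 0
    rw [hw, map_zero]
  have h1 : (ζ + η) x ![v, J x v] = ∑ y : ↥t, r y (f x) * (ζ + ρ y) x ![v, J x v] := by
    have e1 : (ζ + η) x ![v, J x v] = ζ x ![v, J x v] + η x ![v, J x v] := rfl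
    have e2 : η x ![v, J x v] = ∑ y : ↥t, r y (f x) * ρ y x ![v, J x v] := by
      change (∑ y : ↥t, prodD (fun x => r y (f x)) (γ y) (ρ y)) x ![v, J x v] = _
      rw [sum_apply2]
      refine Finset.sum_congr rfl fun y _ => ?_
      rw [(hP1 y).2.2.2.2, hdu y v (hker x v h0), hdu y (J x v) (hker x _ h0')]
      ring
    have e3 : ζ x ![v, J x v] = ∑ y : ↥t, r y (f x) * ζ x ![v, J x v] := by
      rw [← Finset.sum_mul, hsum, one_mul]
    rw [e1, e2]
    nth_rewrite 1 [e3]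
    rw [← Finset.sum_add_distrib]
    refine Finset.sum_congr rfl fun y _ => ?_
    have e4 : (ζ + ρ y) x ![v, J x v] = ζ x ![v, J x v] + ρ y x ![v, J x v] := rfl
    rw [e4]; ring
  rw [h1]
  have h2 : ∀ y : ↥t, r y (f x) ≠ 0 → 0 < (ζ + ρ y) x ![v, J x v] := by
    intro y hy
    have h3 : f x ∈ V y := hr y (subset_tsupport _ hy)
    exact hVn y x h3 v hv h0
  have h3 : ∀ y : ↥t, 0 ≤ r y (f x) * (ζ + ρ y) x ![v, J x v] := by
    intro y
    by_cases h : r y (f x) = 0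
    · rw [h, zero_mul]
    · exact mul_nonneg (r.nonneg y _) (h2 y h).le
  obtain ⟨y, hy⟩ : ∃ y : ↥t, 0 < r y (f x) := r.exists_pos_of_mem (mem_range_self x)
  exact lt_of_lt_of_le (mul_pos hy (h2 y hy.ne'))
    (Finset.single_le_sum (f := fun y : ↥t => r y (f x) * (ζ + ρ y) x ![v, J x v])
      (fun y _ => h3 y) (Finset.mem_univ y))

/-- the forms of a list -/
def LS (l : List (Form d X 2)) : Set (Form d X 2) := {σ | σ ∈ l}

/-- Chains: the last form comes first; every form is nonnegative on the common null vectors of the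
forms which follow it in the list. -/
def Chain (J : End d X) : List (Form d X 2) → Prop
  | [] => True
  | σ :: l => IsSmooth σ ∧ IsClosedForm σ ∧
      (∀ (x : X) (v : TangentSpace (𝓡 d) x), (∀ τ ∈ l, τ x ![v, J x v] = 0) →
        0 ≤ σ x ![v, J x v]) ∧ Chain J l

omit [IsManifold (𝓡 d) ∞ X] in
theorem Chain.smooth {J : End d X} {l : List (Form d X 2)} (h : Chain J l) :
    ∀ σ ∈ LS l, IsSmooth σ := by
  induction l with
  | nil => intro σ hσ; exact absurd hσ (by simp [LS])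
  | cons a l ih =>
    intro σ hσ
    rcases List.mem_cons.1 hσ with rfl | h'
    · exact h.1
    · exact ih h.2.2.2 σ h'

/-- nested combinations -/
def Tower (P : Form d X 2 → Prop) : List (Form d X 2) → Form d X 2 → Prop
  | [], w => P w
  | σ :: l, w => ∃ t₀ : ℝ, 0 < t₀ ∧ ∀ t : ℝ, 0 < t → t ≤ t₀ → Tower P l (σ + t • w)

theorem tower [CompactSpace X] {J : End d X} (hJ : IsAlmostComplex J)
    (P : Form d X 2 → Prop)
    (hP : ∀ w : Form d X 2, IsSmooth w → IsClosedForm w → (∀ x, TamesAt w J x) → P w)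
    (l : List (Form d X 2)) (hl : Chain J l) (w : Form d X 2) (hw : IsSmooth w)
    (hwc : IsClosedForm w) (hpos : ∀ x, NP (LS l) J w x) : Tower P l w := by
  induction l generalizing w with
  | nil => exact hP w hw hwc fun x v hv => hpos x v hv fun σ hσ => absurd hσ (by simp [LS])
  | cons σ l ih =>
    obtain ⟨hσ, hσc, hnn, hl'⟩ := hl
    obtain ⟨t₀, ht₀, ht⟩ := unif (isCompact_univ (X := X))
      (fun ε y => ∀ ε' : ℝ, 0 < ε' → ε' ≤ ε → NP (LS l) J (σ + ε' • w) y)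
      (fun ε ε' y hle hp ε'' h0 h1 => hp ε'' h0 (h1.trans hle))
      (fun x _ => by
        have hx : NP (insert σ (LS l)) J w x := by
          intro v hv h
          refine hpos x v hv fun τ hτ => h τ ?_
          rcases List.mem_cons.1 hτ with h' | h'
          · exact mem_insert_iff.2 (Or.inl h')
          · exact mem_insert_iff.2 (Or.inr h')
        obtain ⟨ε₀, h0, h1⟩ := nullS hJ hl'.smooth hσ hw (F := univ)
          (fun y _ v hv => hnn y v hv) hx
        exact ⟨ε₀, h0, h1.mono fun y hy => hy (mem_univ y)⟩)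
    refine ⟨t₀, ht₀, fun t h0 h1 => ih hl' (σ + t • w) (hσ.add (hw.smul t)) ?_ fun x =>
      ht x (mem_univ x) t h0 h1⟩
    have h3 := hσc.add (hwc.smul t) hσ (hw.smul t)
    have h2 : (0 : Form d X 3) + t • (0 : Form d X 3) = 0 := by rw [smul_zero, add_zero]
    rw [h2] at h3
    exact h3

end

end Pool.Agent.Helper33.CH
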