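import Pool.Agent.Helper33.CH3

/-!
# The theorem with several levels
-/

set_option autoImplicit false

open Set Filter Topology MeasureTheory
open scoped Manifold ContDiff

noncomputable section

namespace Pool.Agent.Helper33.CH

open Pool.Agent.Y501.SY

section

variable {d : ℕ} {X : Type} [TopologicalSpace X] [ChartedSpace (E d) X]
  [IsManifold (𝓡 d) ∞ X]

omit [IsManifold (𝓡 d) ∞ X] in
theorem sum_fun {κ : Type} (u : κ → X → ℝ) (hu : ∀ z, SmoothFun (d := d) (u z))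
    (N : (x : X) → TangentSpace (𝓡 d) x → Prop)
    (hdu : ∀ z (x : X) (v : TangentSpace (𝓡 d) x), N x v → dd (u z) x v = 0) (s : Finset κ) :
    SmoothFun (d := d) (fun x => ∑ z ∈ s, u z x) ∧
      ∀ (x : X) (v : TangentSpace (𝓡 d) x), N x v → dd (fun x => ∑ z ∈ s, u z x) x v = 0 := by
  classical
  induction s using Finset.induction_on with
  | empty =>
    simp only [Finset.sum_empty]
    refine ⟨SmoothFun.const 0, fun x v _ => ?_⟩
    unfold dd
    rw [mfderiv_const]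
    rfl
  | insert a s ha ih =>
    simp only [Finset.sum_insert ha]
    refine ⟨(hu a).add ih.1, fun x v hv => ?_⟩
    rw [dd_add (hu a) ih.1, hdu a x v hv, ih.2 x v hv, add_zero]

/-- A nonnegative form on a `J`-invariant cone field from forms given locally, over the supports of
functions which are constant along the cone field. -/
theorem weakC (hPr : S_PROD) [CompactSpace X] {J : End d X}
    {ζ : Form d X 2} (hζ : IsSmooth ζ) (hζc : IsClosedForm ζ)
    (N M : (x : X) → TangentSpace (𝓡 d) x → Prop)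
    (hNJ : ∀ (x : X) (v : TangentSpace (𝓡 d) x), N x v → N x (J x v))
    (h : ∀ z : X, ∃ (u : X → ℝ) (β : Form d X 1) (ρ : Form d X 2), SmoothFun (d := d) u ∧
      (∀ x, 0 ≤ u x) ∧ 0 < u z ∧
      (∀ (x : X) (v : TangentSpace (𝓡 d) x), N x v → dd u x v = 0) ∧
      IsSmooth β ∧ IsSmooth ρ ∧ IsD β ρ ∧
      ∀ x, u x ≠ 0 → ∀ v : TangentSpace (𝓡 d) x, N x v →
        0 ≤ (ζ + ρ) x ![v, J x v] ∧ ((ζ + ρ) x ![v, J x v] = 0 ↔ M x v)) :
    ∃ (α : Form d X 1) (η : Form d X 2), IsSmooth α ∧ IsSmooth η ∧ IsD α η ∧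
      IsClosedForm (ζ + η) ∧ ∀ (x : X) (v : TangentSpace (𝓡 d) x), N x v →
        0 ≤ (ζ + η) x ![v, J x v] ∧ ((ζ + η) x ![v, J x v] = 0 ↔ M x v) := by
  classical
  choose u β ρ hu hu0 huz hdu hβ hρ hβρ hpos using h
  obtain ⟨t, -, htc⟩ := (isCompact_univ (X := X)).elim_nhds_subcover (fun z => {y | 0 < u z y})
    (fun z _ => (isOpen_lt continuous_const (hu z).continuous).mem_nhds (huz z))
  have hex : ∀ x : X, ∃ z : ↥t, 0 < u z x := by
    intro x
    obtain ⟨z, hzt, hz⟩ := mem_iUnion₂.1 (htc (mem_univ x))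
    exact ⟨⟨z, hzt⟩, hz⟩
  obtain ⟨hU, hdU⟩ := sum_fun (fun z : ↥t => u z) (fun z => hu z) N (fun z => hdu z) Finset.univ
  set U : X → ℝ := fun x => ∑ z : ↥t, u z x with hUdef
  have hUpos : ∀ x, 0 < U x := by
    intro x
    obtain ⟨z, hz⟩ := hex x
    exact lt_of_lt_of_le hz (Finset.single_le_sum (f := fun z : ↥t => u z x)
      (fun z _ => hu0 z x) (Finset.mem_univ z))
  have hg : SmoothFun (d := d) (fun x => (U x)⁻¹) :=
    ContMDiff.inv₀ (I' := 𝓡 d) hU fun x => (hUpos x).ne'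
  have hdg : ∀ (x : X) (v : TangentSpace (𝓡 d) x), N x v → dd (fun x => (U x)⁻¹) x v = 0 := by
    intro x v hv
    have h1 : (fun x => U x * (U x)⁻¹) = fun _ : X => (1 : ℝ) := by
      funext y
      exact mul_inv_cancel₀ (hUpos y).ne'
    have h2 := dd_mul hU hg x v
    rw [h1] at h2
    have h3 : dd (d := d) (fun _ : X => (1 : ℝ)) x v = 0 := by
      unfold dd
      rw [mfderiv_const]; rfl
    rw [h3, hdU x v hv] at h2
    have h4 : U x * dd (fun x => (U x)⁻¹) x v = 0 := by linarith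
    rcases mul_eq_zero.1 h4 with h5 | h5
    · exact absurd h5 (hUpos x).ne'
    · exact h5
  -- the normalised functions
  have hr : ∀ z : ↥t, SmoothFun (d := d) (fun x => u z x * (U x)⁻¹) := fun z => (hu z).mul hg
  have hdr : ∀ (z : ↥t) (x : X) (v : TangentSpace (𝓡 d) x), N x v →
      dd (fun x => u z x * (U x)⁻¹) x v = 0 := by
    intro z x v hv
    rw [dd_mul (hu z) hg, hdg x v hv, hdu z x v hv]
    ring
  have hr0 : ∀ (z : ↥t) (x : X), 0 ≤ u z x * (U x)⁻¹ := fun z x =>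
    mul_nonneg (hu0 z x) (inv_nonneg.2 (hUpos x).le)
  have hsum : ∀ x : X, ∑ z : ↥t, u z x * (U x)⁻¹ = 1 := by
    intro x
    rw [← Finset.sum_mul]
    exact mul_inv_cancel₀ (hUpos x).ne'
  have hP1 := fun z : ↥t => hPr d X (fun x => u z x * (U x)⁻¹) (β z) (ρ z) (hr z) (hβ z) (hρ z)
    (hβρ z)
  let α : Form d X 1 := ∑ z : ↥t, (fun x => (u z x * (U x)⁻¹) • β z x : Form d X 1)
  let η : Form d X 2 := ∑ z : ↥t, prodD (fun x => u z x * (U x)⁻¹) (β z) (ρ z)
  have hαs : IsSmooth α := IsSmooth.sum _ fun z _ => (hP1 z).1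
  have hηs : IsSmooth η := IsSmooth.sum _ fun z _ => (hP1 z).2.1
  have hdsum : ∀ s : Finset ↥t,
      IsD (∑ z ∈ s, (fun x => (u z x * (U x)⁻¹) • β z x : Form d X 1))
      (∑ z ∈ s, prodD (fun x => u z x * (U x)⁻¹) (β z) (ρ z)) ∧
      IsClosedForm (∑ z ∈ s, prodD (fun x => u z x * (U x)⁻¹) (β z) (ρ z)) := by
    intro s
    induction s using Finset.induction_on with
    | empty =>
      rw [Finset.sum_empty, Finset.sum_empty]
      exact ⟨IsD.zero, IsD.zero⟩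
    | insert a s ha ih =>
      rw [Finset.sum_insert ha, Finset.sum_insert ha]
      refine ⟨(hP1 a).2.2.1.add ih.1 (hP1 a).1 (IsSmooth.sum _ fun y _ => (hP1 y).1), ?_⟩
      have h1 := (hP1 a).2.2.2.1.add ih.2 (hP1 a).2.1 (IsSmooth.sum _ fun y _ => (hP1 y).2.1)
      rwa [add_zero] at h1
  have hcl : IsClosedForm (ζ + η) := by
    have h1 := hζc.add (hdsum Finset.univ).2 hζ hηs
    rwa [add_zero] at h1
  refine ⟨α, η, hαs, hηs, (hdsum Finset.univ).1, hcl, fun x v hv => ?_⟩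
  have h1 : (ζ + η) x ![v, J x v] =
      ∑ z : ↥t, (u z x * (U x)⁻¹) * (ζ + ρ z) x ![v, J x v] := by
    have e1 : (ζ + η) x ![v, J x v] = ζ x ![v, J x v] + η x ![v, J x v] := rfl
    have e2 : η x ![v, J x v] = ∑ z : ↥t, (u z x * (U x)⁻¹) * ρ z x ![v, J x v] := by
      change (∑ z : ↥t, prodD (fun x => u z x * (U x)⁻¹) (β z) (ρ z)) x ![v, J x v] = _
      rw [sum_apply2]
      refine Finset.sum_congr rfl fun z _ => ?_
      rw [(hP1 z).2.2.2.2, hdr z x v hv, hdr z x (J x v) (hNJ x v hv)]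
      ring
    have e3 : ζ x ![v, J x v] = ∑ z : ↥t, (u z x * (U x)⁻¹) * ζ x ![v, J x v] := by
      rw [← Finset.sum_mul, hsum, one_mul]
    rw [e1, e2]
    nth_rewrite 1 [e3]
    rw [← Finset.sum_add_distrib]
    refine Finset.sum_congr rfl fun z _ => ?_
    have e4 : (ζ + ρ z) x ![v, J x v] = ζ x ![v, J x v] + ρ z x ![v, J x v] := rfl
    rw [e4]; ring
  have h2 : ∀ z : ↥t, 0 ≤ (u z x * (U x)⁻¹) * (ζ + ρ z) x ![v, J x v] := by
    intro z
    by_cases hz : u z x = 0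
    · rw [hz, zero_mul, zero_mul]
    · exact mul_nonneg (hr0 z x) (hpos z x hz v hv).1
  rw [h1]
  refine ⟨Finset.sum_nonneg fun z _ => h2 z, fun h3 => ?_, fun h3 => ?_⟩
  · obtain ⟨z, hz⟩ := hex x
    have h4 := (Finset.sum_eq_zero_iff_of_nonneg fun z _ => h2 z).1 h3 z (Finset.mem_univ z)
    have h5 : (u z x * (U x)⁻¹) ≠ 0 := (mul_pos hz (inv_pos.2 (hUpos x))).ne'
    have h6 : (ζ + ρ z) x ![v, J x v] = 0 := by
      rcases mul_eq_zero.1 h4 with h | h
      · exact absurd h h5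
      · exact h
    exact (hpos z x hz.ne' v hv).2.1 h6
  · refine Finset.sum_eq_zero fun z _ => ?_
    by_cases hz : u z x = 0
    · rw [hz, zero_mul, zero_mul]
    · rw [(hpos z x hz v hv).2.2 h3, mul_zero]

/-- nested combinations -/
def Nested (P : Form d X 2 → Prop) (s : ℕ → Form d X 2) : ℕ → Form d X 2 → Prop
  | 0, w => P w
  | i + 1, w => ∃ t₀ : ℝ, 0 < t₀ ∧ ∀ t : ℝ, 0 < t → t ≤ t₀ → Nested P s i (s i + t • w)

/-- the forms `s j`, `j < i` -/
def below (s : ℕ → Form d X 2) (i : ℕ) : Set (Form d X 2) := {σ | ∃ j < i, σ = s j}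

theorem nested [CompactSpace X] {J : End d X} (hJ : IsAlmostComplex J)
    (P : Form d X 2 → Prop)
    (hP : ∀ w : Form d X 2, IsSmooth w → IsClosedForm w → (∀ x, TamesAt w J x) → P w)
    (s : ℕ → Form d X 2) (k : ℕ) (hs : ∀ i < k, IsSmooth (s i))
    (hsc : ∀ i < k, IsClosedForm (s i))
    (hnn : ∀ i < k, ∀ (x : X) (v : TangentSpace (𝓡 d) x),
      (∀ σ ∈ below s i, σ x ![v, J x v] = 0) → 0 ≤ s i x ![v, J x v])
    (w : Form d X 2) (hw : IsSmooth w)
    (hwc : IsClosedForm w) (hpos : ∀ x, NP (below s k) J w x) : Nested P s k w := by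
  induction k generalizing w with
  | zero =>
    exact hP w hw hwc fun x v hv => hpos x v hv fun σ hσ => by
      obtain ⟨j, hj, _⟩ := hσ
      exact absurd hj (Nat.not_lt_zero _)
  | succ k ih =>
    have hb : below s (k + 1) = insert (s k) (below s k) := by
      ext σ
      constructor
      · rintro ⟨j, hj, rfl⟩
        rcases Nat.lt_succ_iff_lt_or_eq.1 hj with h | h
        · exact mem_insert_iff.2 (Or.inr ⟨j, h, rfl⟩)
        · exact mem_insert_iff.2 (Or.inl (by rw [h]))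
      · intro h
        rcases mem_insert_iff.1 h with rfl | ⟨j, hj, rfl⟩
        · exact ⟨k, Nat.lt_succ_self k, rfl⟩
        · exact ⟨j, Nat.lt_succ_of_lt hj, rfl⟩
    have hbs : ∀ σ ∈ below s k, IsSmooth σ := by
      rintro σ ⟨j, hj, rfl⟩
      exact hs j (Nat.lt_succ_of_lt hj)
    obtain ⟨t₀, ht₀, ht⟩ := unif (isCompact_univ (X := X))
      (fun ε y => ∀ ε' : ℝ, 0 < ε' → ε' ≤ ε → NP (below s k) J (s k + ε' • w) y)
      (fun ε ε' y hle hp ε'' h0 h1 => hp ε'' h0 (h1.trans hle))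
      (fun x _ => by
        have hx : NP (insert (s k) (below s k)) J w x := by
          rw [← hb]
          exact hpos x
        obtain ⟨ε₀, h0, h1⟩ := nullS hJ hbs (hs k (Nat.lt_succ_self k)) hw (F := univ)
          (fun y _ v hv => hnn k (Nat.lt_succ_self k) y v hv) hx
        exact ⟨ε₀, h0, h1.mono fun y hy => hy (mem_univ y)⟩)
    refine ⟨t₀, ht₀, fun t h0 h1 => ih (fun i hi => hs i (Nat.lt_succ_of_lt hi))
      (fun i hi => hsc i (Nat.lt_succ_of_lt hi)) (fun i hi => hnn i (Nat.lt_succ_of_lt hi))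
      (s k + t • w) ((hs k (Nat.lt_succ_self k)).add (hw.smul t)) ?_ fun x =>
      ht x (mem_univ x) t h0 h1⟩
    have h3 := (hsc k (Nat.lt_succ_self k)).add (hwc.smul t) (hs k (Nat.lt_succ_self k))
      (hw.smul t)
    have h2 : (0 : Form d X 3) + t • (0 : Form d X 3) = 0 := by rw [smul_zero, add_zero]
    rw [h2] at h3
    exact h3

/-- **Several levels.** -/
theorem multi (hG : S_GEN) (hPr : S_PROD) (hPl : S_PLANAR)
    [CompactSpace X] [T2Space X] {J : End d X} (hJ : IsAlmostComplex J)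
    (P : Form d X 2 → Prop)
    (hP : ∀ w : Form d X 2, IsSmooth w → IsClosedForm w → (∀ x, TamesAt w J x) → P w)
    (k : ℕ) (ζ : ℕ → Form d X 2) (hζ : ∀ i ≤ k, IsSmooth (ζ i))
    (hζc : ∀ i ≤ k, IsClosedForm (ζ i))
    (N : ℕ → (x : X) → TangentSpace (𝓡 d) x → Prop) (hN0 : ∀ x v, N 0 x v)
    (hNs : ∀ i < k, ∀ x v, N (i + 1) x v → N i x v)
    (hlev : ∀ i < k, ∀ z : X, ∃ (u : X → ℝ) (β : Form d X 1) (ρ : Form d X 2),
      SmoothFun (d := d) u ∧ (∀ x, 0 ≤ u x) ∧ 0 < u z ∧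
      (∀ (x : X) (v : TangentSpace (𝓡 d) x), N i x v → dd u x v = 0) ∧
      IsSmooth β ∧ IsSmooth ρ ∧ IsD β ρ ∧
      ∀ x, u x ≠ 0 → ∀ v : TangentSpace (𝓡 d) x, N i x v →
        0 ≤ (ζ i + ρ) x ![v, J x v] ∧ ((ζ i + ρ) x ![v, J x v] = 0 ↔ N (i + 1) x v))
    {m : ℕ} {Y : Type} [TopologicalSpace Y]
    [ChartedSpace (E m) Y] [IsManifold (𝓡 m) ∞ Y] [T2Space Y] [SigmaCompactSpace Y] {f : X → Y}
    (hf : ContMDiff (𝓡 d) (𝓡 m) ∞ f)
    (hker : ∀ (x : X) (v : TangentSpace (𝓡 d) x), N k x v → mfderiv (𝓡 d) (𝓡 m) f x v = 0)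
    (hfib : ∀ y : Y, ∃ (β : Form d X 1) (ρ : Form d X 2), IsSmooth β ∧ IsSmooth ρ ∧ IsD β ρ ∧
      (∀ x ∈ f ⁻¹' {y}, ∀ v : TangentSpace (𝓡 d) x, N k x v → 0 ≤ (ζ k + ρ) x ![v, J x v]) ∧
      ∀ z ∈ {x | x ∈ f ⁻¹' {y} ∧ ∃ v : TangentSpace (𝓡 d) x, v ≠ 0 ∧ N k x v ∧
          (ζ k + ρ) x ![v, J x v] = 0},
        ∀ S : Set (Form d X 2), (∀ v : TangentSpace (𝓡 d) z, (∀ σ ∈ S, σ z ![v, J z v] = 0) →
            N k z v ∧ (ζ k + ρ) z ![v, J z v] = 0) →
        ThinS S J (connectedComponentIn {x | x ∈ f ⁻¹' {y} ∧ ∃ v : TangentSpace (𝓡 d) x,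
          v ≠ 0 ∧ N k x v ∧ (ζ k + ρ) x ![v, J x v] = 0} z) z) :
    ∃ (α : ℕ → Form d X 1) (ρ : ℕ → Form d X 2), (∀ i ≤ k, IsSmooth (α i) ∧ IsSmooth (ρ i) ∧
      IsD (α i) (ρ i)) ∧ Nested P (fun i => ζ i + ρ i) k (ζ k + ρ k) := by
  classical
  -- the cones are invariant
  have hNJ : ∀ i ≤ k, ∀ (x : X) (v : TangentSpace (𝓡 d) x), N i x v → N i x (J x v) := by
    intro i
    induction i with
    | zero => exact fun _ x v _ => hN0 x _
    | succ i ih =>
      intro hi x v hv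
      have h1 := ih (by omega) x v (hNs i hi x v hv)
      obtain ⟨u, β, ρ, _, _, huz, _, _, _, _, hpos⟩ := hlev i hi x
      have h2 := (hpos x huz.ne' v (hNs i hi x v hv)).2.2 hv
      refine (hpos x huz.ne' (J x v) h1).2.1 ?_
      rw [null_J hJ]
      exact h2
  have hw : ∀ i, ∃ (α : Form d X 1) (η : Form d X 2), i < k → (IsSmooth α ∧ IsSmooth η ∧
      IsD α η ∧ IsClosedForm (ζ i + η) ∧ ∀ (x : X) (v : TangentSpace (𝓡 d) x), N i x v →
        0 ≤ (ζ i + η) x ![v, J x v] ∧ ((ζ i + η) x ![v, J x v] = 0 ↔ N (i + 1) x v)) := by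
    intro i
    by_cases hi : i < k
    · obtain ⟨α, η, h1, h2, h3, h4, h5⟩ := weakC hPr (hζ i hi.le) (hζc i hi.le) (N i) (N (i + 1))
        (hNJ i hi.le) (hlev i hi)
      exact ⟨α, η, fun _ => ⟨h1, h2, h3, h4, h5⟩⟩
    · exact ⟨0, 0, fun h => absurd h hi⟩
  choose α η hw using hw
  -- the common null vectors
  have hcom : ∀ i ≤ k, ∀ (x : X) (v : TangentSpace (𝓡 d) x),
      N i x v ↔ ∀ σ ∈ below (fun i => ζ i + η i) i, σ x ![v, J x v] = 0 := by
    intro i
    induction i with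
    | zero =>
      intro _ x v
      exact ⟨fun _ σ ⟨j, hj, _⟩ => absurd hj (Nat.not_lt_zero _), fun _ => hN0 x v⟩
    | succ i ih =>
      intro hi x v
      have h1 := ih (by omega) x v
      have h2 := (hw i hi).2.2.2.2 x v
      constructor
      · rintro hv σ ⟨j, hj, rfl⟩
        rcases Nat.lt_succ_iff_lt_or_eq.1 hj with h | h
        · exact h1.1 (hNs i hi x v hv) _ ⟨j, h, rfl⟩
        · subst h
          exact (h2 (hNs j hi x v hv)).2.2 hv
      · intro h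
        have h3 : N i x v := h1.2 fun σ ⟨j, hj, hσ⟩ => h σ ⟨j, Nat.lt_succ_of_lt hj, hσ⟩
        exact (h2 h3).2.1 (h _ ⟨i, Nat.lt_succ_self i, rfl⟩)
  have hSs : ∀ σ ∈ below (fun i => ζ i + η i) k, IsSmooth σ := by
    rintro σ ⟨j, hj, rfl⟩
    exact (hζ j hj.le).add (hw j hj).2.1
  obtain ⟨α', η', h1, h2, h3, h4, h5⟩ := fibreS hG hPr hPl hJ hf hSs (hζ k le_rfl)
    (hζc k le_rfl) (fun x v hv => hker x v ((hcom k le_rfl x v).2 hv)) (by
      intro y
      obtain ⟨β, ρ, g1, g2, g3, g4, g5⟩ := hfib y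
      have hDS : DS (insert (ζ k + ρ) (below (fun i => ζ i + η i) k)) J (f ⁻¹' {y}) =
          {x | x ∈ f ⁻¹' {y} ∧ ∃ v : TangentSpace (𝓡 d) x, v ≠ 0 ∧ N k x v ∧
            (ζ k + ρ) x ![v, J x v] = 0} := by
        ext x
        constructor
        · rintro ⟨hx, v, hv, h⟩
          exact ⟨hx, v, hv, (hcom k le_rfl x v).2 fun σ hσ => h σ (mem_insert_of_mem _ hσ),
            h _ (mem_insert _ _)⟩
        · rintro ⟨hx, v, hv, h, h'⟩
          refine ⟨hx, v, hv, fun σ hσ => ?_⟩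
          rcases mem_insert_iff.1 hσ with rfl | hσ
          · exact h'
          · exact (hcom k le_rfl x v).1 h σ hσ
      refine ⟨β, ρ, g1, g2, g3, fun x hx v hv => g4 x hx v ((hcom k le_rfl x v).2 hv), ?_⟩
      rw [hDS]
      exact fun z hz => g5 z hz _ fun v hv =>
        ⟨(hcom k le_rfl z v).2 fun σ hσ => hv σ (mem_insert_of_mem _ hσ),
          hv _ (mem_insert _ _)⟩)
  -- the forms
  let A : ℕ → Form d X 1 := fun i => if i < k then α i else α'
  let R : ℕ → Form d X 2 := fun i => if i < k then η i else η'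
  have hR : ∀ i < k, R i = η i := fun i hi => if_pos hi
  have hRk : R k = η' := if_neg (lt_irrefl k)
  have hA : ∀ i < k, A i = α i := fun i hi => if_pos hi
  have hAk : A k = α' := if_neg (lt_irrefl k)
  have hbel : below (fun i => ζ i + R i) k = below (fun i => ζ i + η i) k := by
    ext σ
    constructor
    · rintro ⟨j, hj, rfl⟩
      exact ⟨j, hj, by simp only [hR j hj]⟩
    · rintro ⟨j, hj, rfl⟩
      exact ⟨j, hj, by simp only [hR j hj]⟩
  have hbel' : ∀ i ≤ k, below (fun i => ζ i + R i) i = below (fun i => ζ i + η i) i := by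
    intro i hi
    ext σ
    constructor
    · rintro ⟨j, hj, rfl⟩
      exact ⟨j, hj, by simp only [hR j (lt_of_lt_of_le hj hi)]⟩
    · rintro ⟨j, hj, rfl⟩
      exact ⟨j, hj, by simp only [hR j (lt_of_lt_of_le hj hi)]⟩
  refine ⟨A, R, fun i hi => ?_, ?_⟩
  · rcases Nat.lt_or_ge i k with h | h
    · rw [hA i h, hR i h]
      exact ⟨(hw i h).1, (hw i h).2.1, (hw i h).2.2.1⟩
    · have : i = k := le_antisymm hi h
      subst this
      rw [hAk, hRk]
      exact ⟨h1, h2, h3⟩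
  · refine nested hJ P hP _ k (fun i hi => ?_) (fun i hi => ?_) (fun i hi x v hv => ?_) _ ?_ ?_ ?_
    · simp only [hR i hi]
      exact (hζ i hi.le).add (hw i hi).2.1
    · simp only [hR i hi]
      exact (hw i hi).2.2.2.1
    · rw [hbel' i hi.le] at hv
      simp only [hR i hi]
      exact ((hw i hi).2.2.2.2 x v ((hcom i hi.le x v).2 hv)).1
    · rw [hRk]
      exact (hζ k le_rfl).add h2
    · rw [hRk]
      exact h4
    · intro x
      rw [hRk, hbel]
      exact h5 x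

end

end Pool.Agent.Helper33.CH
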