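import Pool.Agent.Helper33.CHP
import Pool.Agent.Helper33.CH4
import Pool.Agent.Y501.SY.Bridge
import Pool.Agent.Y501.SY.BridgeU

/-!
# Comparison of the definitions
-/

set_option autoImplicit false

open Set Filter Topology MeasureTheory
open scoped Manifold ContDiff

noncomputable section

namespace Pool.Agent.Helper33.CHP

open Pool.Agent.Y501 Pool.Agent.Y501.SYP Pool.Agent.Helper33

section

variable {d : ℕ} {X : Type} [TopologicalSpace X] [ChartedSpace (ES d) X]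

attribute [local instance] Pool.Agent.Y501.SYP.cs Pool.Agent.Y501.SYP.mf

theorem thinS_of [IsManifold 𝓘(ℝ, ES d) ∞ X] [T2Space X] {J : End (ES d) X}
    (hJ : IsAlmostComplex J) {C : Set X}
    {z : X} {R : TangentSpace 𝓘(ℝ, ES d) z → Prop} (h : SmallAt J C z R)
    (S : Set (SY.Form d X 2)) (hS : ∀ v : TangentSpace (𝓡 d) z, (∀ σ ∈ S, σ z ![v, J z v] = 0) → R v) :
    CH.ThinS (d := d) (X := X) S J C z := by
  have h0 : ∀ {C : Set X}, SY.ThinAt (d := d) (X := X) 0 J C z →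
      CH.ThinS (d := d) (X := X) S J C z := by
    rintro C ⟨n, a, b, N, hN, ha, hb, hnull, hpos⟩
    exact ⟨n, a, b, N, hN, ha, hb, hnull, fun v hv _ => hpos v hv le_rfl⟩
  rcases h with h | h | h
  · exact h0 (SY.thin_of_haus (ac_of J hJ) 0 z h)
  · exact h0 (Pool.Agent.Y388.SY.t_TR d X J (ac_of J hJ) 0 C z h)
  · obtain ⟨n, a, b, hab, hpos⟩ := h
    choose N hN hN0 using fun i => (hab i).null
    refine ⟨n, a, b, ⋂ i, N i, Filter.iInter_mem.2 hN, fun i => (hab i).smooth_a,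
      fun i => (hab i).smooth_b, fun i => ?_, fun v hv h1 => ?_⟩
    · exact measure_mono_null (image_mono (inter_subset_inter_right _ (iInter_subset _ _))) (hN0 i)
    · have h3 := hpos v hv (hS v h1)
      have e := SY.sum_apply2 (d := d) (X := X) Finset.univ
        (fun i => SY.dfdg (d := d) (X := X) (a i) (b i)) z ![v, J z v]
      refine lt_of_lt_of_eq h3 (Eq.trans ?_ e.symm)
      exact Finset.sum_congr rfl fun i _ =>
        (SY.dfdg_apply (d := d) (X := X) (a i) (b i) z v (J z v)).symm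

theorem nested_iff (P : Form (ES d) X 2 → Prop) (s : ℕ → Form (ES d) X 2) (k : ℕ)
    (w : Form (ES d) X 2) (h : CH.Nested (d := d) (X := X) P s k w) : NestedForms P s k w := by
  induction k generalizing w with
  | zero => exact h
  | succ k ih =>
    obtain ⟨T, hT, h⟩ := h
    exact ⟨T, hT, fun t h0 h1 => ih _ (h t h0 h1)⟩

/-- **Several levels.** -/
theorem severalLevels {m : ℕ} {Y : Type} [TopologicalSpace Y] [ChartedSpace (ES m) Y]
    [IsManifold 𝓘(ℝ, ES d) ∞ X] [CompactSpace X] [T2Space X]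
    [IsManifold 𝓘(ℝ, ES m) ∞ Y] [T2Space Y] [SigmaCompactSpace Y]
    (J : End (ES d) X) (hJ : IsAlmostComplex J)
    (k : ℕ) (ζ : ℕ → Form (ES d) X 2) (hζ : ∀ i ≤ k, IsSmooth (ζ i) ∧ IsClosedForm (ζ i))
    (N : ℕ → Cone (ES d) X) (hN0 : ∀ x v, N 0 x v)
    (hlev : ∀ i < k, Level (ζ i) J (N i) (N (i + 1)))
    (f : X → Y) (hf : ContMDiff 𝓘(ℝ, ES d) 𝓘(ℝ, ES m) ∞ f)
    (hker : ∀ (x : X) (v : TangentSpace 𝓘(ℝ, ES d) x), N k x v →
      mfderiv 𝓘(ℝ, ES d) 𝓘(ℝ, ES m) f x v = 0)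
    (hfib : ∀ y : Y, GoodOver (N k) (ζ k) J (f ⁻¹' {y})) :
    ∃ (α : ℕ → Form (ES d) X 1) (ρ : ℕ → Form (ES d) X 2),
      (∀ i ≤ k, IsSmooth (α i) ∧ IsSmooth (ρ i) ∧ IsD (α i) (ρ i)) ∧
      NestedForms (TamingInHomotopyClass J) (fun i => addF (ζ i) (ρ i)) k
        (addF (ζ k) (ρ k)) := by
  obtain ⟨α, ρ, h1, h2⟩ := CH.multi (d := d) (X := X) (m := m) (Y := Y)
    Pool.Agent.Y484.SY.t_GEN Pool.Agent.Y658.SY.t_PROD Pool.Agent.Y925.SY.t_PLANAR
    (ac_of J hJ) (TamingInHomotopyClass J)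
    (fun w hw hwc ht => ⟨symp_of ((smooth_iff w).2 hw) ((closed_iff w).2 hwc) ht,
      fun τ hτ t h0 h1 => seg_nondeg hτ ht t h0 h1⟩)
    k ζ (fun i hi => (smooth_iff _).1 (hζ i hi).1) (fun i hi => (closed_iff _).1 (hζ i hi).2)
    N hN0 (fun i hi => (hlev i hi).1)
    (fun i hi z => by
      obtain ⟨u, β, ρ, g1, g2, g3, g4, g5, g6, g7, g8⟩ := (hlev i hi).2 z
      exact ⟨u, β, ρ, g1, g2, g3, g4, (smooth_iff β).1 g5, (smooth_iff ρ).1 g6,
        (isD_iff β ρ).1 g7, g8⟩)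
    (f := f) hf hker
    (by
      intro y
      obtain ⟨β, ρ, g1, g2, g3, g4, g5⟩ := hfib y
      exact ⟨β, ρ, (smooth_iff β).1 g1, (smooth_iff ρ).1 g2, (isD_iff β ρ).1 g3, g4,
        fun z hz S hS => thinS_of hJ (g5 z hz) S hS⟩)
  exact ⟨α, ρ, fun i hi => ⟨(smooth_iff _).2 (h1 i hi).1, (smooth_iff _).2 (h1 i hi).2.1,
    (isD_iff _ _).2 (h1 i hi).2.2⟩, nested_iff _ _ _ _ h2⟩

end

end Pool.Agent.Helper33.CHP
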