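import Pool.Agent.Helper33.CHT
import Pool.Agent.Helper33.CH5
import Pool.Agent.Y604.SY.Pull

/-!
# Towers of smooth maps
-/

set_option autoImplicit false

open Set Filter Topology MeasureTheory
open scoped Manifold ContDiff

noncomputable section

namespace Pool.Agent.Helper33.CHP

open Pool.Agent.Y501 Pool.Agent.Y501.SYP Pool.Agent.Helper33

section

variable {d : ℕ} {X : Type} [TopologicalSpace X] [ChartedSpace (ES d) X]

attribute [local instance] Pool.Agent.Y501.SYP.cs Pool.Agent.Y501.SYP.mf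

theorem pull_null {m : ℕ} {Y : Type} [TopologicalSpace Y] [ChartedSpace (ES m) Y] (p : X → Y)
    (τ : Form (ES m) Y 2) (J : End (ES d) X) (x : X) (v : TangentSpace 𝓘(ℝ, ES d) x)
    (h : kerD m p x v) : qd (pullBack p τ) J x v = 0 := by
  unfold qd pullBack
  rw [ContinuousAlternatingMap.compContinuousLinearMap_apply]
  refine (τ (p x)).map_coord_zero 0 ?_
  exact h

/-- **Towers.** -/
theorem towers [IsManifold 𝓘(ℝ, ES d) ∞ X] [CompactSpace X] [T2Space X] (k : ℕ)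
    (m : ℕ → ℕ) (Y : ℕ → Type) [∀ i, TopologicalSpace (Y i)] [∀ i, ChartedSpace (ES (m i)) (Y i)]
    [∀ i, IsManifold 𝓘(ℝ, ES (m i)) ∞ (Y i)] [T2Space (Y k)] [SigmaCompactSpace (Y k)]
    (J : End (ES d) X) (hJ : IsAlmostComplex J)
    (p : ∀ i, X → Y i) (hp : ∀ i ≤ k, ContMDiff 𝓘(ℝ, ES d) 𝓘(ℝ, ES (m i)) ∞ (p i))
    (τ : ∀ i, Form (ES (m i)) (Y i) 2) (hτ : ∀ i ≤ k, IsSmooth (τ i) ∧ IsClosedForm (τ i))
    (hnest : ∀ i ≤ k, ∀ (x : X) (v : TangentSpace 𝓘(ℝ, ES d) x), kerD (m i) (p i) x v →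
      before m p i x v)
    (hpos : ∀ i ≤ k, ∀ (x : X) (v : TangentSpace 𝓘(ℝ, ES d) x), before m p i x v →
      0 ≤ qd (pullBack (p i) (τ i)) J x v ∧
        (qd (pullBack (p i) (τ i)) J x v = 0 → kerD (m i) (p i) x v))
    (ζ : Form (ES d) X 2) (hζ : IsSmooth ζ) (hζc : IsClosedForm ζ)
    (hfib : ∀ y : Y k, GoodOver (kerD (m k) (p k)) ζ J (p k ⁻¹' {y})) :
    ∃ (α : Form (ES d) X 1) (ρ : Form (ES d) X 2), IsSmooth α ∧ IsSmooth ρ ∧ IsD α ρ ∧
      NestedForms (TamingInHomotopyClass J) (fun i => pullBack (p i) (τ i)) (k + 1)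
        (addF ζ ρ) := by
  have hJ' := ac_of J hJ
  set s : ℕ → SY.Form d X 2 := fun i => pullBack (p i) (τ i) with hs
  have hsm : ∀ i ≤ k, SY.IsSmooth (d := d) (X := X) (s i) ∧
      SY.IsClosedForm (d := d) (X := X) (s i) := fun i hi =>
    Pool.Agent.Y604.SY.t_PULL d (m i) X (Y i) (p i) (τ i) (hp i hi)
      ((smooth_iff (τ i)).1 (hτ i hi).1) ((closed_iff (τ i)).1 (hτ i hi).2)
  -- the common null vectors
  have hcom : ∀ i ≤ k + 1, ∀ (x : X) (v : TangentSpace (𝓡 d) x),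
      before m p i x v ↔ ∀ σ ∈ CH.below s i, σ x ![v, J x v] = 0 := by
    intro i
    induction i with
    | zero =>
      intro _ x v
      exact ⟨fun _ σ ⟨j, hj, _⟩ => absurd hj (Nat.not_lt_zero _), fun _ => trivial⟩
    | succ i ih =>
      intro hi x v
      have h1 := ih (by omega) x v
      have hik : i ≤ k := by omega
      constructor
      · rintro hv σ ⟨j, hj, rfl⟩
        rcases Nat.lt_succ_iff_lt_or_eq.1 hj with h | h
        · exact h1.1 (hnest i hik x v hv) _ ⟨j, h, rfl⟩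
        · subst h
          exact pull_null (p j) (τ j) J x v hv
      · intro h
        have h3 : before m p i x v := h1.2 fun σ ⟨j, hj, hσ⟩ => h σ ⟨j, Nat.lt_succ_of_lt hj, hσ⟩
        exact (hpos i hik x v h3).2 (h _ ⟨i, Nat.lt_succ_self i, rfl⟩)
  have hSs : ∀ σ ∈ CH.below s (k + 1), SY.IsSmooth (d := d) (X := X) σ := by
    rintro σ ⟨j, hj, rfl⟩
    exact (hsm j (by omega)).1
  obtain ⟨α, ρ, h1, h2, h3, h4, h5⟩ := CH.fibreS (d := d) (X := X) (m := m k) (Y := Y k)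
    Pool.Agent.Y484.SY.t_GEN Pool.Agent.Y658.SY.t_PROD Pool.Agent.Y925.SY.t_PLANAR hJ'
    (f := p k) (hp k le_rfl) hSs ((smooth_iff ζ).1 hζ) ((closed_iff ζ).1 hζc)
    (fun x v hv => (hcom (k + 1) le_rfl x v).2 hv) (by
      intro y
      obtain ⟨β, ρ, g1, g2, g3, g4, g5⟩ := hfib y
      have hDS : CH.DS (insert (addF ζ ρ : SY.Form d X 2) (CH.below s (k + 1))) J (p k ⁻¹' {y}) =
          ExcN (kerD (m k) (p k)) (addF ζ ρ) J (p k ⁻¹' {y}) := by
        ext x
        constructor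
        · rintro ⟨hx, v, hv, h⟩
          exact ⟨hx, v, hv, (hcom (k + 1) le_rfl x v).2 fun σ hσ => h σ (mem_insert_of_mem _ hσ),
            h _ (mem_insert _ _)⟩
        · rintro ⟨hx, v, hv, h, h'⟩
          refine ⟨hx, v, hv, fun σ hσ => ?_⟩
          rcases mem_insert_iff.1 hσ with rfl | hσ
          · exact h'
          · exact (hcom (k + 1) le_rfl x v).1 h σ hσ
      refine ⟨β, ρ, (smooth_iff β).1 g1, (smooth_iff ρ).1 g2, (isD_iff β ρ).1 g3,
        fun x hx v hv => g4 x hx v ((hcom (k + 1) le_rfl x v).2 hv), ?_⟩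
      intro z hz
      change z ∈ CH.DS (insert (addF ζ ρ : SY.Form d X 2) (CH.below s (k + 1))) J (p k ⁻¹' {y}) at hz
      change CH.ThinS (insert (addF ζ ρ : SY.Form d X 2) (CH.below s (k + 1))) J
        (connectedComponentIn (CH.DS (insert (addF ζ ρ : SY.Form d X 2) (CH.below s (k + 1))) J
          (p k ⁻¹' {y})) z) z
      rw [hDS] at hz ⊢
      exact thinS_of hJ (g5 z hz) _ fun v hv =>
        ⟨(hcom (k + 1) le_rfl z v).2 fun σ hσ => hv σ (mem_insert_of_mem _ hσ),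
          hv _ (mem_insert _ _)⟩)
  refine ⟨α, ρ, (smooth_iff _).2 h1, (smooth_iff _).2 h2, (isD_iff _ _).2 h3,
    nested_iff _ _ _ _ (CH.nested hJ' (TamingInHomotopyClass J)
      (fun w hw hwc ht => ⟨symp_of ((smooth_iff w).2 hw) ((closed_iff w).2 hwc) ht,
        fun τ hτ t h0 h1 => seg_nondeg hτ ht t h0 h1⟩) s (k + 1)
      (fun i hi => (hsm i (by omega)).1) (fun i hi => (hsm i (by omega)).2)
      (fun i hi x v hv => (hpos i (by omega) x v ((hcom i (by omega) x v).2 hv)).1)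
      (addF ζ ρ) (((smooth_iff ζ).1 hζ).add h2) h4 h5)⟩

end

end Pool.Agent.Helper33.CHP
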