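import Pool.Agent.Y501.SY.PubU

/-!
# Chains of cone fields in the tangent bundle of an almost complex manifold

The definitions used in the statement of the theorem on symplectic forms with several levels.
-/

set_option autoImplicit false

open Set Filter Topology MeasureTheory
open scoped Manifold ContDiff

noncomputable section

namespace Pool.Agent.Helper33.CHP

open Pool.Agent.Y501.SYP

section

variable {V : Type} [NormedAddCommGroup V] [NormedSpace ℝ V]
  {X : Type} [TopologicalSpace X] [ChartedSpace V X]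

variable (V X) in
/-- a set of tangent vectors at each point of `X` -/
abbrev Cone : Type := (x : X) → TangentSpace 𝓘(ℝ, V) x → Prop

/-- A level from `N` down to `M`: up to exact forms, the form `ζ` is nonnegative on `N` and null exactly on
`M`, locally along `N`. This means that each point `z` has a smooth function `u ≥ 0` with `u(z) > 0` and
`du = 0` on `N` (for instance `u = r ∘ f` for a map `f : X → Y` with `N ⊆ ker df`) and a smooth one-form
`β` such that at all points with `u ≠ 0` the form `θ = ζ + dβ` has `θ(v, J v) ≥ 0` for all `v` in `N`, with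
equality exactly for `v` in `M`. -/
def Level (ζ : Form V X 2) (J : End V X) (N M : Cone V X) : Prop :=
  (∀ (x : X) (v : TangentSpace 𝓘(ℝ, V) x), M x v → N x v) ∧
  ∀ z : X, ∃ (u : X → ℝ) (β : Form V X 1) (ρ : Form V X 2),
    SmoothFun (V := V) u ∧ (∀ x, 0 ≤ u x) ∧ 0 < u z ∧
    (∀ (x : X) (v : TangentSpace 𝓘(ℝ, V) x), N x v → dd u x v = 0) ∧
    IsSmooth β ∧ IsSmooth ρ ∧ IsD β ρ ∧
    ∀ x, u x ≠ 0 → ∀ v : TangentSpace 𝓘(ℝ, V) x, N x v →
      0 ≤ qd (addF ζ ρ) J x v ∧ (qd (addF ζ ρ) J x v = 0 ↔ M x v)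

/-- the points of `F` with a nonzero vector in `N` which is null for `θ` -/
def ExcN (N : Cone V X) (θ : Form V X 2) (J : End V X) (F : Set X) : Set X :=
  {x | x ∈ F ∧ ∃ v : TangentSpace 𝓘(ℝ, V) x, v ≠ 0 ∧ N x v ∧ qd θ J x v = 0}

/-- For some smooth one-form `β` the form `θ = ζ + dβ` is nonnegative on the vectors of `N` over `F`, and
the components of the set of points of `F` with a nonzero vector in `N` which is null for `θ` are small at
all their points. -/
def GoodOver [MeasurableSpace V] [BorelSpace V] (N : Cone V X) (ζ : Form V X 2) (J : End V X)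
    (F : Set X) : Prop :=
  ∃ (β : Form V X 1) (ρ : Form V X 2), IsSmooth β ∧ IsSmooth ρ ∧ IsD β ρ ∧
    (∀ x ∈ F, ∀ v : TangentSpace 𝓘(ℝ, V) x, N x v → 0 ≤ qd (addF ζ ρ) J x v) ∧
    ∀ z ∈ ExcN N (addF ζ ρ) J F,
      SmallAt J (connectedComponentIn (ExcN N (addF ζ ρ) J F) z) z
        (fun v => N z v ∧ qd (addF ζ ρ) J z v = 0)

/-- `w` is a symplectic form taming `J`, and it is homotopic through nondegenerate forms (on a segment) to
every form taming `J`. -/
def TamingInHomotopyClass (J : End V X) (w : Form V X 2) : Prop :=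
  IsTamingSymplectic w J ∧ ∀ τ : Form V X 2, (∀ x, TamesAt τ J x) →
    ∀ t : ℝ, 0 ≤ t → t ≤ 1 → Nondeg (seg τ w t)

/-- The forms `s₀ + t₁ (s₁ + t₂ (s₂ + ⋯ + t_k w))` have the property `P` for all sufficiently small `t_k > 0`,
all sufficiently small `t_{k-1} > 0` (depending on `t_k`), …, all sufficiently small `t₁ > 0` (depending on
`t₂, …, t_k`). -/
def NestedForms (P : Form V X 2 → Prop) (s : ℕ → Form V X 2) : ℕ → Form V X 2 → Prop
  | 0, w => P w
  | i + 1, w => ∃ T : ℝ, 0 < T ∧ ∀ t : ℝ, 0 < t → t ≤ T → NestedForms P s i (comb (s i) t w)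

end

end Pool.Agent.Helper33.CHP
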