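import Pool.Agent.Helper33.CHP

/-!
# Towers of smooth maps: definitions
-/

set_option autoImplicit false

open Set Filter Topology MeasureTheory
open scoped Manifold ContDiff

noncomputable section

namespace Pool.Agent.Helper33.CHP

open Pool.Agent.Y501.SYP

section

variable {d m : ℕ} {X Y : Type} [TopologicalSpace X] [ChartedSpace (ES d) X]
  [TopologicalSpace Y] [ChartedSpace (ES m) Y]

/-- the pull-back of a two-form by a map -/
def pullBack (p : X → Y) (τ : Form (ES m) Y 2) : Form (ES d) X 2 := fun x =>
  (τ (p x)).compContinuousLinearMap (mfderiv 𝓘(ℝ, ES d) 𝓘(ℝ, ES m) p x)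

variable (m) in
/-- the vectors killed by the differential of `p` -/
def kerD (p : X → Y) : Cone (ES d) X := fun x v => mfderiv 𝓘(ℝ, ES d) 𝓘(ℝ, ES m) p x v = 0

end

section

variable {d : ℕ} {X : Type} [TopologicalSpace X] [ChartedSpace (ES d) X]

/-- the cone field before the step number `i` of a tower: all vectors for `i = 0`, the kernel of the
differential of `p (i - 1)` for `i > 0` -/
def before (m : ℕ → ℕ) {Y : ℕ → Type} [∀ i, TopologicalSpace (Y i)]
    [∀ i, ChartedSpace (ES (m i)) (Y i)] (p : ∀ i, X → Y i) : ℕ → Cone (ES d) X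
  | 0 => fun _ _ => True
  | i + 1 => kerD (m i) (p i)

end

end Pool.Agent.Helper33.CHP
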