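import Pool.Agent.TH144.MB.Tan

/-!
# Separation of points and of tangent vectors by semi-invariant monomials, groups of any order
-/

set_option autoImplicit false

namespace Pool.Agent.Helper33.FQ

open MvPolynomial Pool.Agent.TH144.MB

section
variable {G : Type} [Group G] {n : ℕ}

theorem chr_add (α : Fin n → G →* ℂˣ) (a b : Fin n →₀ ℕ) : chr α (a + b) = chr α a * chr α b := by
  refine MonoidHom.ext fun g => ?_
  rw [MonoidHom.mul_apply, chr_apply, chr_apply, chr_apply, ← Finset.prod_mul_distrib]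
  exact Finset.prod_congr rfl fun i _ => by rw [Finsupp.add_apply, pow_add]

theorem chr_pow_single (α : Fin n → G →* ℂˣ) (i : Fin n) (s : ℕ) (g : G) :
    chr α (Finsupp.single i s) g = α i g ^ s := by
  classical
  rw [chr_apply, Finset.prod_eq_single i]
  · rw [Finsupp.single_eq_same]
  · intro j _ hj
    rw [Finsupp.single_eq_of_ne hj, pow_zero]
  · intro h; exact absurd (Finset.mem_univ _) h

theorem chr_single (α : Fin n → G →* ℂˣ) (i : Fin n) : chr α (Finsupp.single i 1) = α i :=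
  MonoidHom.ext fun g => by rw [chr_pow_single, pow_one]

theorem c1 (ψ χ : G →* ℂˣ) : ψ * (ψ⁻¹ * χ) = χ :=
  MonoidHom.ext fun g => by
    rw [MonoidHom.mul_apply, MonoidHom.mul_apply, MonoidHom.inv_apply, mul_inv_cancel_left]

theorem c2 (ψ χ : G →* ℂˣ) : ψ * χ * χ⁻¹ = ψ :=
  MonoidHom.ext fun g => by
    rw [MonoidHom.mul_apply, MonoidHom.mul_apply, MonoidHom.inv_apply, mul_inv_cancel_right]

theorem c3 (ψ χ : G →* ℂˣ) : ψ * χ⁻¹ * χ = ψ :=
  MonoidHom.ext fun g => by
    rw [MonoidHom.mul_apply, MonoidHom.mul_apply, MonoidHom.inv_apply, inv_mul_cancel_right]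

theorem c4 (ψ χ χ' : G →* ℂˣ) : ψ * χ⁻¹ * χ'⁻¹ * χ = ψ * χ'⁻¹ :=
  MonoidHom.ext fun g => by
    rw [MonoidHom.mul_apply, MonoidHom.mul_apply, MonoidHom.mul_apply, MonoidHom.mul_apply,
      MonoidHom.inv_apply, MonoidHom.inv_apply, mul_assoc, mul_comm ((χ' g)⁻¹), ← mul_assoc,
      inv_mul_cancel_right]

theorem mon_add (v : Fin n → ℂ) (a b : Fin n →₀ ℕ) : mon (a + b) v = mon a v * mon b v := by
  simp only [mon, Finsupp.add_apply, pow_add, Finset.prod_mul_distrib]

theorem mon_single (v : Fin n → ℂ) (i : Fin n) : mon (Finsupp.single i 1) v = v i := by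
  classical
  unfold mon
  rw [Finset.prod_eq_single i]
  · simp
  · intro j _ hj
    rw [Finsupp.single_eq_of_ne hj, pow_zero]
  · intro h; exact absurd (Finset.mem_univ _) h

/-- the product of the `φ i ^ m i` -/
def val {A : Type} [CommGroup A] (φ : Fin n → A) (m : Fin n →₀ ℕ) : A := ∏ i, φ i ^ m i

theorem val_add {A : Type} [CommGroup A] (φ : Fin n → A) (a b : Fin n →₀ ℕ) :
    val φ (a + b) = val φ a * val φ b := by
  simp only [val, Finsupp.add_apply, pow_add, Finset.prod_mul_distrib]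

/-- the monomials of degree `s` and type `ψ` which do not vanish at `y` -/
def MM (α : Fin n → G →* ℂˣ) (y : Fin n → ℂ) (s : ℕ) (ψ : G →* ℂˣ) (m : Fin n →₀ ℕ) : Prop :=
  m.degree = s ∧ chr α m = ψ ∧ mon m y ≠ 0

theorem MM.add {α : Fin n → G →* ℂˣ} {y : Fin n → ℂ} {s t : ℕ} {ψ ψ' : G →* ℂˣ} {a b : Fin n →₀ ℕ}
    (ha : MM α y s ψ a) (hb : MM α y t ψ' b) : MM α y (s + t) (ψ * ψ') (a + b) :=
  ⟨by rw [map_add, ha.1, hb.1], by rw [chr_add, ha.2.1, hb.2.1],
    by rw [mon_add]; exact mul_ne_zero ha.2.2 hb.2.2⟩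

theorem MM.single {α : Fin n → G →* ℂˣ} {y : Fin n → ℂ} {i : Fin n} (hi : y i ≠ 0) :
    MM α y 1 (α i) (Finsupp.single i 1) :=
  ⟨by rw [Finsupp.degree_single], chr_single α i, by rw [mon_single]; exact hi⟩

theorem MM.factor {α : Fin n → G →* ℂˣ} {y : Fin n → ℂ} {s : ℕ} {ψ : G →* ℂˣ} {m : Fin n →₀ ℕ}
    (h : MM α y (s + 1) ψ m) : ∃ (i : Fin n) (a : Fin n →₀ ℕ), y i ≠ 0 ∧ m = a + Finsupp.single i 1 ∧
      MM α y s (ψ * (α i)⁻¹) a := by
  classical
  obtain ⟨h1, h2, h3⟩ := h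
  obtain ⟨i, hi⟩ : ∃ i, m i ≠ 0 := by
    by_contra hc
    push Not at hc
    have : m = 0 := Finsupp.ext hc
    rw [this, map_zero] at h1
    omega
  have hm : m = (m - Finsupp.single i 1) + Finsupp.single i 1 := by
    rw [tsub_add_cancel_of_le]
    rw [Finsupp.single_le_iff]
    omega
  have hyi : y i ≠ 0 := by
    intro h0
    apply h3
    unfold mon
    exact Finset.prod_eq_zero (Finset.mem_univ i) (by rw [h0, zero_pow hi])
  refine ⟨i, m - Finsupp.single i 1, hyi, hm, ?_, ?_, ?_⟩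
  · rw [hm, map_add, Finsupp.degree_single] at h1
    omega
  · rw [hm, chr_add, chr_single] at h2
    rw [← h2, c2]
  · rw [hm, mon_add] at h3
    exact left_ne_zero_of_mul h3

end

section
variable {G : Type} [Group G] [Fintype G] {n : ℕ} (S : Sit ℂ G n)

theorem exists_MM {ρ : ℕ} (hρ : TopBound S.I ρ) {y : Fin n → ℂ} (hy0 : y ≠ 0)
    (hy : ∀ p ∈ S.I, eval y p = 0) (χ : G →* ℂˣ) {t : ℕ} (ht : ρ ≤ t) : ∃ m, MM S.α y t χ m := by
  obtain ⟨m, h⟩ := S.exists_mono hρ hy0 hy χ ht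
  exact ⟨m, h⟩

/-- If a multiplicative function of monomials is constant on those of degree `e ≥ 2 ρ + 1` and
type `χ`, then it is constant on those of degree `s` and type `ψ` for all `s > ρ` and all `ψ`. -/
theorem const {A : Type} [CommGroup A] {ρ : ℕ} (hρ : TopBound S.I ρ) {y : Fin n → ℂ} (hy0 : y ≠ 0)
    (hy : ∀ p ∈ S.I, eval y p = 0) (φ : Fin n → A) (χ : G →* ℂˣ) {e : ℕ} (he : 2 * ρ + 1 ≤ e)
    (c : A) (h : ∀ m, MM S.α y e χ m → val φ m = c) (s : ℕ) (hs : ρ + 1 ≤ s) :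
    ∀ (ψ : G →* ℂˣ) (m m' : Fin n →₀ ℕ), MM S.α y s ψ m → MM S.α y s ψ m' → val φ m = val φ m' := by
  induction s, hs using Nat.le_induction with
  | base =>
    intro ψ m m' hm hm'
    obtain ⟨d, hd⟩ := exists_MM S hρ hy0 hy (ψ⁻¹ * χ) (t := e - (ρ + 1)) (by omega)
    have e1 : ρ + 1 + (e - (ρ + 1)) = e := by omega
    have h1 := hm.add hd
    have h2 := hm'.add hd
    rw [e1, c1] at h1 h2
    have h3 := (h _ h1).trans (h _ h2).symm
    rw [val_add, val_add] at h3
    exact mul_right_cancel h3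
  | succ s hs ih =>
    intro ψ m m' hm hm'
    obtain ⟨i, a, hi, rfl, ha⟩ := hm.factor
    obtain ⟨j, b, hj, rfl, hb⟩ := hm'.factor
    obtain ⟨d, hd⟩ := exists_MM S hρ hy0 hy (ψ * (S.α i)⁻¹ * (S.α j)⁻¹) (t := s - 1) (by omega)
    have e1 : s - 1 + 1 = s := by omega
    have h1 := hd.add (MM.single (α := S.α) hj)
    have h2 := hd.add (MM.single (α := S.α) hi)
    rw [e1, c3] at h1
    rw [e1, c4] at h2
    have h3 := ih _ _ _ ha h1
    have h4 := ih _ _ _ hb h2
    rw [val_add, val_add, h3, h4, val_add, val_add]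
    exact mul_right_comm _ _ _

/-- separation of points -/
theorem points {ρ : ℕ} (hρ : TopBound S.I ρ) {y y' : Fin n → ℂ} (hy0 : y ≠ 0)
    (hy : ∀ p ∈ S.I, eval y p = 0) (hy'0 : y' ≠ 0) (hy' : ∀ p ∈ S.I, eval y' p = 0)
    (hne : ∀ g, mv S.α g y' ∉ Submodule.span ℂ {y}) (χ : G →* ℂˣ) {e : ℕ} (he : 2 * ρ + 1 ≤ e) :
    ∃ F, Typ S.α χ e F ∧ eval y F ≠ 0 ∧ eval y' F = 0 := by
  classical
  by_contra hcon
  push Not at hcon
  -- the supports
  have hs1 : ∀ i, y i ≠ 0 → y' i ≠ 0 := by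
    intro i hi hi'
    obtain ⟨m, hm, hmc, hmy⟩ := S.exists_mono hρ hy0 hy (χ * (S.α i)⁻¹) (t := e - 1) (by omega)
    have h2 := (typ_monomial hmc).X_mul
    rw [hm, Nat.sub_add_cancel (by omega)] at h2
    refine hcon _ h2 ?_ ?_
    · rw [map_mul, eval_X, eval_mono]
      exact mul_ne_zero hi hmy
    · rw [map_mul, eval_X, hi', zero_mul]
  -- a form with value one
  obtain ⟨m0, hm0, hmc0, hmy0⟩ := S.exists_mono hρ hy'0 hy' χ (t := e) (by omega)
  have hF0 := typ_monomial hmc0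
  rw [hm0] at hF0
  have hprop : ∀ F, Typ S.α χ e F → eval y F * mon m0 y' = eval y' F * mon m0 y := by
    intro F hF
    have h1 := hcon (F - C (eval y' F / mon m0 y') * monomial m0 1) (hF.sub (hF0.C_mul _))
    by_contra h2
    refine h1 ?_ ?_
    · rw [map_sub, map_mul, eval_C, eval_mono]
      intro h3
      apply h2
      field_simp at h3
      linear_combination h3
    · rw [map_sub, map_mul, eval_C, eval_mono, div_mul_cancel₀ _ hmy0, sub_self]
  have hs2 : ∀ i, y' i ≠ 0 → y i ≠ 0 := by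
    intro i hi' hi
    obtain ⟨m, hm, hmc, hmy⟩ := S.exists_mono hρ hy'0 hy' (χ * (S.α i)⁻¹) (t := e - 1) (by omega)
    have h2 := (typ_monomial hmc).X_mul
    rw [hm, Nat.sub_add_cancel (by omega)] at h2
    have h3 := hprop _ h2
    rw [map_mul, map_mul, eval_X, eval_X, hi, zero_mul, zero_mul, eval_mono] at h3
    have h4 : mon m0 y = 0 := by
      rcases mul_eq_zero.1 h3.symm with h | h
      · exact absurd h (mul_ne_zero hi' hmy)
      · exact h
    obtain ⟨m1, hm1, hmc1, hmy1⟩ := S.exists_mono hρ hy0 hy χ (t := e) (by omega)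
    have hF1 := typ_monomial hmc1
    rw [hm1] at hF1
    have h5 := hprop _ hF1
    rw [h4, mul_zero, eval_mono] at h5
    exact mul_ne_zero hmy1 hmy0 h5
  have hsupp : ∀ m, mon m y' ≠ 0 ↔ mon m y ≠ 0 := by
    intro m
    have h1 : ∀ (v w : Fin n → ℂ), (∀ i, v i ≠ 0 → w i ≠ 0) → mon m v ≠ 0 → mon m w ≠ 0 := by
      intro v w h h2
      unfold mon at h2 ⊢
      rw [Finset.prod_ne_zero_iff] at h2 ⊢
      intro i hi
      rcases Nat.eq_zero_or_pos (m i) with h3 | h3
      · rw [h3, pow_zero]; exact one_ne_zero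
      · refine pow_ne_zero _ (h i ?_)
        intro h4
        exact h2 i hi (by rw [h4, zero_pow h3.ne'])
    exact ⟨h1 _ _ hs2, h1 _ _ hs1⟩
  -- the quotient
  let φ : Fin n → ℂˣ := fun i => if h : y i ≠ 0 then Units.mk0 (y' i / y i)
    (div_ne_zero (hs1 i h) h) else 1
  have hφ : ∀ m, mon m y ≠ 0 → mon m y' = ((val φ m : ℂˣ) : ℂ) * mon m y := by
    intro m hm
    unfold mon val
    rw [Units.coe_prod, ← Finset.prod_mul_distrib]
    refine Finset.prod_congr rfl fun i _ => ?_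
    rw [Units.val_pow_eq_pow_val, ← mul_pow]
    rcases Nat.eq_zero_or_pos (m i) with h3 | h3
    · rw [h3, pow_zero, pow_zero]
    · have h4 : y i ≠ 0 := by
        intro h5
        apply hm
        unfold mon
        exact Finset.prod_eq_zero (Finset.mem_univ i) (by rw [h5, zero_pow h3.ne'])
      congr 1
      simp only [φ, dif_pos h4, Units.val_mk0]
      rw [div_mul_cancel₀ _ h4]
  have hm0y : mon m0 y ≠ 0 := (hsupp m0).1 hmy0
  have hc : ∀ m, MM S.α y e χ m → val φ m = val φ m0 := by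
    intro m hm
    have hF := typ_monomial hm.2.1
    rw [hm.1] at hF
    have h1 := hprop _ hF
    rw [eval_mono, eval_mono, hφ m hm.2.2, hφ m0 hm0y] at h1
    ext
    have h2 : (((val φ m0 : ℂˣ) : ℂ) - ((val φ m : ℂˣ) : ℂ)) * (mon m y * mon m0 y) = 0 := by
      linear_combination h1
    rcases mul_eq_zero.1 h2 with h3 | h3
    · exact (sub_eq_zero.1 h3).symm
    · exact absurd h3 (mul_ne_zero hm.2.2 hm0y)
  -- a large degree
  obtain ⟨F, hF, hFy, hFy'⟩ := S.points hρ hy0 hy hy'0 hy' hne χ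
    (t := max (ρ + 1) (Fintype.card G)) (le_max_left _ _) (le_max_right _ _)
  set s := max (ρ + 1) (Fintype.card G) with hs
  have hconst := const S hρ hy0 hy φ χ he _ hc s (le_max_left _ _) χ
  obtain ⟨m1, hm1⟩ := exists_MM S hρ hy0 hy χ (t := s) ((Nat.le_succ ρ).trans (le_max_left _ _))
  have hL : ∀ v, (Fintype.card G : ℂ) * eval v F = Lam S.α χ v F := by
    intro v
    unfold Lam
    have h1 : ∀ g, (((χ g)⁻¹ : ℂˣ) : ℂ) * eval (mv S.α g v) F = eval v F := by
      intro g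
      rw [hF.2, ← mul_assoc, Units.inv_mul, one_mul]
    simp only [h1]
    rw [Finset.sum_const, Finset.card_univ, nsmul_eq_mul]
  have hG : (Fintype.card G : ℂ) ≠ 0 := Nat.cast_ne_zero.2 Fintype.card_ne_zero
  have h1 : Lam S.α χ y' F = ((val φ m1 : ℂˣ) : ℂ) * Lam S.α χ y F := by
    rw [Lam_eq, Lam_eq, Finset.mul_sum]
    refine Finset.sum_congr rfl fun m hm => ?_
    split_ifs with hχ
    · by_cases h0 : mon m y = 0
      · have h2 : mon m y' = 0 := by
          by_contra h3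
          exact (hsupp m).1 h3 h0
        rw [h0, h2]
        ring
      · have h2 : MM S.α y s χ m := by
          refine ⟨?_, hχ, h0⟩
          by_contra h3
          exact (MvPolynomial.mem_support_iff.1 hm) (hF.1.coeff_eq_zero h3)
        rw [hφ m h0, hconst _ _ h2 hm1]
        ring
    · rw [mul_zero]
  rw [← hL, ← hL, hFy', mul_zero] at h1
  exact mul_ne_zero (Units.ne_zero _) (mul_ne_zero hG hFy) h1.symm

/-- separation of tangent vectors -/
theorem tangents {ρ : ℕ} (hρ : TopBound S.I ρ) {y u : Fin n → ℂ} (hy0 : y ≠ 0)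
    (hy : ∀ p ∈ S.I, eval y p = 0) (hne : u ∉ Submodule.span ℂ {y}) (χ : G →* ℂˣ) {e : ℕ}
    (he : 2 * ρ + 1 ≤ e) : ∃ F, Typ S.α χ e F ∧ eval y F = 0 ∧ dv F y u ≠ 0 := by
  classical
  by_contra hcon
  push Not at hcon
  have h1 : ∀ i, y i = 0 → u i = 0 := by
    intro i hi
    obtain ⟨m, hm, hmc, hmy⟩ := S.exists_mono hρ hy0 hy (χ * (S.α i)⁻¹) (t := e - 1) (by omega)
    have h2 := (typ_monomial hmc).X_mul
    rw [hm, Nat.sub_add_cancel (by omega)] at h2
    have h3 := hcon _ h2 (by rw [map_mul, eval_X, hi, zero_mul])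
    rw [dv_X_mul, hi, zero_mul, add_zero, eval_mono] at h3
    rcases mul_eq_zero.1 h3 with h | h
    · exact absurd h hmy
    · exact h
  let ξ : Fin n → ℂ := fun i => u i / y i
  have hξ : u = fun i => ξ i * y i := by
    funext i
    by_cases hi : y i = 0
    · rw [h1 i hi, hi, mul_zero]
    · simp only [ξ]
      rw [div_mul_cancel₀ _ hi]
  let φ : Fin n → Multiplicative ℂ := fun i => Multiplicative.ofAdd (ξ i)
  have hval : ∀ m : Fin n →₀ ℕ, (val φ m).toAdd = ∑ i, (m i : ℂ) * ξ i := by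
    intro m
    unfold val
    rw [toAdd_prod]
    refine Finset.sum_congr rfl fun i _ => ?_
    rw [toAdd_pow, nsmul_eq_mul]
    rfl
  obtain ⟨m0, hm0, hmc0, hmy0⟩ := S.exists_mono hρ hy0 hy χ (t := e) (by omega)
  have hF0 := typ_monomial hmc0
  rw [hm0] at hF0
  have hc : ∀ m, MM S.α y e χ m → val φ m = val φ m0 := by
    intro m hm
    have hF := typ_monomial hm.2.1
    rw [hm.1] at hF
    have h2 := hcon (C (mon m0 y) * monomial m 1 - C (mon m y) * monomial m0 1)
      ((hF.C_mul _).sub (hF0.C_mul _)) (by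
        rw [map_sub, map_mul, map_mul, eval_C, eval_C, eval_mono, eval_mono]
        ring)
    rw [dv_sub, dv_C_mul, dv_C_mul, hξ, dv_monomial, dv_monomial, ← hval, ← hval] at h2
    have h3 : ((val φ m).toAdd - (val φ m0).toAdd) * (mon m y * mon m0 y) = 0 := by
      linear_combination h2
    rcases mul_eq_zero.1 h3 with h4 | h4
    · exact Multiplicative.toAdd.injective (sub_eq_zero.1 h4)
    · exact absurd h4 (mul_ne_zero hm.2.2 hmy0)
  -- all quotients are equal
  obtain ⟨i0, hi0⟩ : ∃ i, y i ≠ 0 := by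
    by_contra hc
    push Not at hc
    exact hy0 (funext hc)
  have hr : 0 < Fintype.card G := Fintype.card_pos
  set s := Fintype.card G * (ρ + 1) with hs
  have hs1 : ρ + 1 ≤ s := Nat.le_mul_of_pos_left _ hr
  have hpow : ∀ i, y i ≠ 0 → MM S.α y s 1 (Finsupp.single i s) := by
    intro i hi
    refine ⟨by rw [Finsupp.degree_single], ?_, ?_⟩
    · refine MonoidHom.ext fun g => ?_
      rw [chr_pow_single, hs, pow_mul, ← map_pow, pow_card_eq_one, map_one, one_pow,
        MonoidHom.one_apply]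
    · unfold mon
      rw [Finset.prod_ne_zero_iff]
      intro j _
      by_cases hj : j = i
      · subst hj
        exact pow_ne_zero _ hi
      · rw [Finsupp.single_eq_of_ne hj, pow_zero]
        exact one_ne_zero
  have hsum : ∀ i, ∑ j, ((Finsupp.single i s j : ℕ) : ℂ) * ξ j = s * ξ i := by
    intro i
    rw [Finset.sum_eq_single i]
    · rw [Finsupp.single_eq_same]
    · intro j _ hj
      rw [Finsupp.single_eq_of_ne hj, Nat.cast_zero, zero_mul]
    · intro h; exact absurd (Finset.mem_univ _) h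
  have heq : ∀ i, y i ≠ 0 → ξ i = ξ i0 := by
    intro i hi
    have h2 := const S hρ hy0 hy φ χ he _ hc s hs1 1 _ _ (hpow i hi) (hpow i0 hi0)
    have h3 := congrArg Multiplicative.toAdd h2
    rw [hval, hval, hsum, hsum] at h3
    have h4 : (s : ℂ) ≠ 0 := Nat.cast_ne_zero.2 (by omega)
    exact mul_left_cancel₀ h4 h3
  apply hne
  refine Submodule.mem_span_singleton.2 ⟨ξ i0, ?_⟩
  funext i
  rw [Pi.smul_apply, smul_eq_mul]
  by_cases hi : y i = 0
  · rw [hi, mul_zero, h1 i hi]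
  · rw [← heq i hi]
    exact (congrFun hξ i).symm

end

end Pool.Agent.Helper33.FQ
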