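import Pool.Agent.TH144.MB.Hyper
import Pool.Agent.Helper33.FQ1

/-!
# Étale quotients by finite diagonal groups: definitions, freeness and very ampleness
-/

set_option autoImplicit false

namespace Pool.Agent.Helper33.FQ

open MvPolynomial

/-- A homogeneous ideal `I` in `ℂ[x_0, …, x_N]` and an action of `G` on `ℂ^(N+1)` by diagonal
matrices, the `i`-th coordinate being multiplied by the character `α i`. The ideal `I` is
stable under `G`, and no element `g ≠ 1` fixes a line in its zero set. -/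
structure DiagonalCover (G : Type) [Group G] (N : ℕ) where
  I : Ideal (MvPolynomial (Fin (N + 1)) ℂ)
  homogeneous : ∀ p ∈ I, ∀ n, homogeneousComponent n p ∈ I
  α : Fin (N + 1) → G →* ℂˣ
  stable : ∀ (g : G), ∀ p ∈ I, bind₁ (fun i => C (α i g : ℂ) * X i) p ∈ I
  free : ∀ v : Fin (N + 1) → ℂ, v ≠ 0 → (∀ p ∈ I, eval v p = 0) → ∀ (g : G) (μ : ℂ),
    (∀ i, (α i g : ℂ) * v i = μ * v i) → g = 1

/-- the linear form with coefficients `a` -/
noncomputable def linForm {N : ℕ} (a : Fin (N + 1) → ℂ) : MvPolynomial (Fin (N + 1)) ℂ :=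
  ∑ i, C (a i) * X i

/-- `I` is generated by `c = N - n` forms of degrees `d j ≥ 1`, and `κ = ∑ d j - (N + 1)`. -/
def CompleteIntersection {N : ℕ} (I : Ideal (MvPolynomial (Fin (N + 1)) ℂ)) (n : ℕ) (κ : ℤ) :
    Prop :=
  ∃ (c : ℕ) (f : Fin c → MvPolynomial (Fin (N + 1)) ℂ) (d : Fin c → ℕ),
    (∀ j, (f j).IsHomogeneous (d j) ∧ 0 < d j) ∧ I = Ideal.span (Set.range f) ∧
    N = n + c ∧ κ = ∑ j, (d j : ℤ) - (N + 1)

/-- There are `n + 1` linear forms which are a regular sequence modulo `I`, and modulo `I` and these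
linear forms there are no nonzero forms of degree `> κ + n + 1`. For the ideal of an arithmetically
Cohen-Macaulay variety of dimension `n` this says that the `a`-invariant is at most `κ`. -/
def CohenMacaulay {N : ℕ} (I : Ideal (MvPolynomial (Fin (N + 1)) ℂ)) (n : ℕ) (κ : ℤ) : Prop :=
  ∃ a : Fin (n + 1) → Fin (N + 1) → ℂ,
    (∀ i p, linForm (a i) * p ∈ I ⊔ Ideal.span ((fun j => linForm (a j)) '' {j | j < i}) →
      p ∈ I ⊔ Ideal.span ((fun j => linForm (a j)) '' {j | j < i})) ∧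
    ∀ t : ℕ, κ + n + 1 < t → ∀ p : MvPolynomial (Fin (N + 1)) ℂ, p.IsHomogeneous t →
      p ∈ I ⊔ Ideal.span (Set.range fun j => linForm (a j))

/-- The forms of degree `e` on which `G` acts by the character `χ`: the sections of the line bundle
on `X = Y/G` given by `e` and `χ`. -/
def Section {G : Type} [Group G] {N : ℕ} (D : DiagonalCover G N) (e : ℕ) (χ : G →* ℂˣ)
    (F : MvPolynomial (Fin (N + 1)) ℂ) : Prop :=
  F.IsHomogeneous e ∧
    ∀ (g : G) (x : Fin (N + 1) → ℂ), eval (fun i => (D.α i g : ℂ) * x i) F = χ g * eval x F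

open Pool.Agent.TH144.MB in
theorem reg_ofFn {N : ℕ} (s : ℕ) : ∀ (a : Fin s → Fin (N + 1) → ℂ)
    (I : Ideal (MvPolynomial (Fin (N + 1)) ℂ)),
    (∀ i p, linForm (a i) * p ∈ I ⊔ Ideal.span ((fun j => linForm (a j)) '' {j | j < i}) →
      p ∈ I ⊔ Ideal.span ((fun j => linForm (a j)) '' {j | j < i})) →
    Reg I ((List.ofFn a).map lin) := by
  induction s with
  | zero => intro a I _; simp [Reg]
  | succ s ih =>
    intro a I h
    rw [List.ofFn_succ, List.map_cons]
    refine ⟨?_, ih _ _ ?_⟩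
    · have h0 := h 0
      have h1 : {j : Fin (s + 1) | j < 0} = ∅ := by
        ext j
        simp
      rw [h1, Set.image_empty, Ideal.span_empty, sup_bot_eq] at h0
      exact h0
    · intro i p
      have h0 := h i.succ p
      have h1 : {j : Fin (s + 1) | j < i.succ} = {0} ∪ Fin.succ '' {j | j < i} := by
        ext j
        refine Fin.cases ?_ (fun j => ?_) j
        · simp
        · simp [Fin.succ_ne_zero]
      have h2 : I ⊔ Ideal.span ((fun j => linForm (a j)) '' {j | j < i.succ})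
          = I ⊔ Ideal.span {lin (a 0)}
            ⊔ Ideal.span ((fun j => linForm (a (Fin.succ j))) '' {j | j < i}) := by
        rw [h1, Set.image_union, Set.image_singleton, Ideal.span_union, ← sup_assoc,
          Set.image_image]
        rfl
      rw [h2] at h0
      exact h0

open Pool.Agent.TH144.MB in
theorem le_ext_ofFn {N : ℕ} (s : ℕ) (a : Fin s → Fin (N + 1) → ℂ)
    (I : Ideal (MvPolynomial (Fin (N + 1)) ℂ)) :
    I ⊔ Ideal.span (Set.range fun j => linForm (a j)) ≤ ext I ((List.ofFn a).map lin) := by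
  have h4 : ∀ (L : List (MvPolynomial (Fin (N + 1)) ℂ))
      (I : Ideal (MvPolynomial (Fin (N + 1)) ℂ)), ∀ f ∈ L, f ∈ ext I L := by
    intro L
    induction L with
    | nil => intro I f hf; simp at hf
    | cons g L ih =>
      intro I f hf
      rw [ext_cons]
      rcases List.mem_cons.1 hf with rfl | hf
      · exact Ideal.mem_sup_right (Ideal.mem_span_singleton_self f)
      · exact Ideal.mem_sup_left (ih I f hf)
  refine sup_le (le_ext _ _) ?_
  rw [Ideal.span_le]
  rintro _ ⟨j, rfl⟩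
  refine h4 _ _ _ (List.mem_map.2 ⟨a j, ?_, rfl⟩)
  rw [List.mem_ofFn]
  exact ⟨j, rfl⟩

/-- the degree bound -/
theorem exists_top {G : Type} [Group G] {N : ℕ} (D : DiagonalCover G N) (n : ℕ) (κ : ℤ)
    (hY : CompleteIntersection D.I n κ ∨ CohenMacaulay D.I n κ)
    (y : Fin (N + 1) → ℂ) (hy : ∀ p ∈ D.I, eval y p = 0) :
    ∃ ρ : ℕ, Pool.Agent.TH144.MB.TopBound D.I ρ ∧ (ρ : ℤ) = κ + n + 1 := by
  classical
  rcases hY with ⟨c, f, d, hfd, hI, hN, hκ⟩ | ⟨a, ha, hb⟩
  · refine ⟨∑ j, (d j - 1), ?_, ?_⟩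
    · rw [hI]
      exact Pool.Agent.TH144.MB.topBound_forms f d (fun j => (hfd j).1) fun j => (hfd j).2
    · have h1 : ((∑ j, (d j - 1) : ℕ) : ℤ) = ∑ j, (d j : ℤ) - c := by
        rw [Nat.cast_sum]
        have h2 : ∀ j, ((d j - 1 : ℕ) : ℤ) = (d j : ℤ) - 1 := fun j => by
          have := (hfd j).2
          omega
        simp only [h2]
        rw [Finset.sum_sub_distrib]
        simp
      have h3 : (N : ℤ) = n + c := by exact_mod_cast hN
      rw [h1, hκ, h3]
      ring
  · rcases lt_or_ge (κ + n + 1) 0 with h0 | h0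
    · exfalso
      have h1 := hb 0 (by simpa using h0) 1 (isHomogeneous_one _ _)
      have h2 : D.I ⊔ Ideal.span (Set.range fun j => linForm (a j))
          ≤ RingHom.ker (eval (fun i => (0 : ℂ) * y i)) := by
        refine sup_le (fun p hp => RingHom.mem_ker.2
          (Pool.Agent.TH144.MB.cone D.homogeneous hy 0 p hp)) ?_
        rw [Ideal.span_le]
        rintro _ ⟨j, rfl⟩
        refine RingHom.mem_ker.2 ?_
        simp [linForm]
      have h3 := RingHom.mem_ker.1 (h2 h1)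
      rw [map_one] at h3
      exact one_ne_zero h3
    · refine ⟨(κ + n + 1).toNat, ?_, by omega⟩
      refine Pool.Agent.TH144.MB.topBound_cm D.homogeneous (List.ofFn a)
        (reg_ofFn (n + 1) a D.I ha) ?_
      intro t ht p hp
      refine le_ext_ofFn (n + 1) a D.I (hb t ?_ p hp)
      omega

/-- the underlying situation of the starting library -/
noncomputable def DiagonalCover.sit {G : Type} [Group G] {N : ℕ} (D : DiagonalCover G N) :
    Pool.Agent.TH144.MB.Sit ℂ G (N + 1) where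
  I := D.I
  hom := D.homogeneous
  α := D.α
  stable := by
    intro v hv g p hp
    rw [← Pool.Agent.TH144.MB.eval_act]
    exact hv _ (D.stable g p hp)
  free := D.free

/-- **Freeness**: for `e ≥ κ + n + 1` the monomials of degree `e` and type `χ` have no common zero. -/
theorem free {G : Type} [Group G] [Finite G] {N : ℕ} (D : DiagonalCover G N) (n : ℕ) (κ : ℤ)
    (hY : CompleteIntersection D.I n κ ∨ CohenMacaulay D.I n κ)
    (e : ℕ) (he : κ + n + 1 ≤ e) (χ : G →* ℂˣ)
    (y : Fin (N + 1) → ℂ) (hy0 : y ≠ 0) (hy : ∀ p ∈ D.I, eval y p = 0) :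
    ∃ μ : Fin (N + 1) →₀ ℕ, Section D e χ (monomial μ 1) ∧ eval y (monomial μ 1) ≠ 0 := by
  classical
  have _ := Fintype.ofFinite G
  obtain ⟨ρ, hρ, hρe⟩ := exists_top D n κ hY y hy
  obtain ⟨μ, h1, h2, h3⟩ := D.sit.exists_mono hρ hy0 hy χ (t := e) (by omega)
  have h4 := Pool.Agent.TH144.MB.typ_monomial h2
  rw [h1] at h4
  exact ⟨μ, h4, by rw [Pool.Agent.TH144.MB.eval_mono]; exact h3⟩

/-- **Points are separated** for `e ≥ 2 (κ + n + 1) + 1`. -/
theorem sep_points {G : Type} [Group G] [Finite G] {N : ℕ} (D : DiagonalCover G N) (n : ℕ) (κ : ℤ)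
    (hY : CompleteIntersection D.I n κ ∨ CohenMacaulay D.I n κ)
    (e : ℕ) (he : 2 * (κ + n + 1) + 1 ≤ e) (χ : G →* ℂˣ)
    (y z : Fin (N + 1) → ℂ) (hy0 : y ≠ 0) (hz0 : z ≠ 0) (hy : ∀ p ∈ D.I, eval y p = 0)
    (hz : ∀ p ∈ D.I, eval z p = 0) (hyz : ¬ ∃ (g : G) (c : ℂ), ∀ i, z i = c * (D.α i g * y i)) :
    ∃ F, Section D e χ F ∧ eval y F = 0 ∧ eval z F ≠ 0 := by
  classical
  have _ := Fintype.ofFinite G
  obtain ⟨ρ, hρ, hρe⟩ := exists_top D n κ hY y hy
  obtain ⟨F, h1, h2, h3⟩ := points D.sit hρ (y := z) (y' := y) hz0 hz hy0 hy (by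
    intro g h
    obtain ⟨c, hc⟩ := Submodule.mem_span_singleton.1 h
    have hc0 : c ≠ 0 := by
      rintro rfl
      rw [zero_smul] at hc
      exact hy0 (funext fun i =>
        (Pool.Agent.TH144.MB.mv_supp D.α g y i).1 (congrFun hc i).symm)
    refine hyz ⟨g, c⁻¹, fun i => ?_⟩
    have h1 := congrFun hc i
    simp only [Pi.smul_apply, smul_eq_mul, Pool.Agent.TH144.MB.mv] at h1
    have h2 : z i = c⁻¹ * (c * z i) := by
      rw [← mul_assoc, inv_mul_cancel₀ hc0, one_mul]
    rw [h2, h1]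
    rfl) χ (e := e) (by omega)
  exact ⟨F, h1, h3, h2⟩

/-- **Tangent vectors are separated** for `e ≥ 2 (κ + n + 1) + 1`. -/
theorem sep_tangents {G : Type} [Group G] [Finite G] {N : ℕ} (D : DiagonalCover G N) (n : ℕ) (κ : ℤ)
    (hY : CompleteIntersection D.I n κ ∨ CohenMacaulay D.I n κ)
    (e : ℕ) (he : 2 * (κ + n + 1) + 1 ≤ e) (χ : G →* ℂˣ)
    (y u : Fin (N + 1) → ℂ) (hy0 : y ≠ 0) (hy : ∀ p ∈ D.I, eval y p = 0)
    (hne : ¬ ∃ c : ℂ, ∀ i, u i = c * y i) :
    ∃ F, Section D e χ F ∧ eval y F = 0 ∧ ∑ i, eval y (pderiv i F) * u i ≠ 0 := by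
  classical
  have _ := Fintype.ofFinite G
  obtain ⟨ρ, hρ, hρe⟩ := exists_top D n κ hY y hy
  exact tangents D.sit hρ hy0 hy (by
    intro h
    obtain ⟨c, hc⟩ := Submodule.mem_span_singleton.1 h
    exact hne ⟨c, fun i => by rw [← hc]; rfl⟩) χ (e := e) (by omega)

end Pool.Agent.Helper33.FQ
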