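import Mathlib

/-!
# Signed sums over the permutations of `Fin m × Bool`: change of basis and reduction to pairs of
permutations of `Fin m`
-/

set_option autoImplicit false

namespace Pool.Agent.Helper33.KG

open Finset

variable {m : ℕ}

/-- the sign of a permutation as a complex number -/
def sg {J : Type} [Fintype J] [DecidableEq J] (σ : Equiv.Perm J) : ℂ := ((Equiv.Perm.sign σ : ℤ) : ℂ)

theorem sg_mul {J : Type} [Fintype J] [DecidableEq J] (σ τ : Equiv.Perm J) :
    sg (σ * τ) = sg σ * sg τ := by
  unfold sg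
  rw [Equiv.Perm.sign_mul]
  push_cast
  rfl

/-- the alternating sum of a family of bilinear expressions -/
def Alt (F : Fin m → (Fin m × Bool) → (Fin m × Bool) → ℂ) : ℂ :=
  ∑ σ : Equiv.Perm (Fin m × Bool), sg σ * ∏ b : Fin m, F b (σ (b, false)) (σ (b, true))

/-- the two choices -/
def pr (g : Fin m → (Fin m × Bool) × (Fin m × Bool)) : Fin m × Bool → Fin m × Bool :=
  fun q => if q.2 then (g q.1).2 else (g q.1).1

theorem det_pr (M : Matrix (Fin m × Bool) (Fin m × Bool) ℂ)
    (g : Fin m → (Fin m × Bool) × (Fin m × Bool)) :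
    ∑ σ : Equiv.Perm (Fin m × Bool), sg σ *
      ∏ b : Fin m, (M (σ (b, false)) (g b).1 * M (σ (b, true)) (g b).2) =
    (Matrix.of fun i j => M i (pr g j)).det := by
  rw [Matrix.det_apply']
  refine sum_congr rfl fun σ _ => ?_
  unfold sg
  congr 1
  rw [Fintype.prod_prod_type]
  refine prod_congr rfl fun b _ => ?_
  rw [Fintype.prod_bool]
  simp only [Matrix.of_apply, pr, if_true, Bool.false_eq_true, if_false]
  ring

theorem det_col (M : Matrix (Fin m × Bool) (Fin m × Bool) ℂ) (σ : Equiv.Perm (Fin m × Bool)) :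
    (Matrix.of fun i j => M i (σ j)).det = sg σ * M.det :=
  Matrix.det_permute' σ M

theorem det_noninj (M : Matrix (Fin m × Bool) (Fin m × Bool) ℂ) (f : Fin m × Bool → Fin m × Bool)
    (h : ¬ Function.Injective f) : (Matrix.of fun i j => M i (f j)).det = 0 := by
  unfold Function.Injective at h
  push Not at h
  obtain ⟨p, q, hpq, hne⟩ := h
  refine Matrix.det_zero_of_column_eq hne fun i => ?_
  simp only [Matrix.of_apply, hpq]

/-- **Change of basis.** -/
theorem alt_change (M : Matrix (Fin m × Bool) (Fin m × Bool) ℂ)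
    (F : Fin m → (Fin m × Bool) → (Fin m × Bool) → ℂ) :
    Alt (fun b i j => ∑ p : (Fin m × Bool) × (Fin m × Bool), M i p.1 * M j p.2 * F b p.1 p.2) =
      M.det * Alt F := by
  classical
  unfold Alt
  have h1 : ∀ σ : Equiv.Perm (Fin m × Bool),
      sg σ * ∏ b : Fin m, ∑ p : (Fin m × Bool) × (Fin m × Bool),
        M (σ (b, false)) p.1 * M (σ (b, true)) p.2 * F b p.1 p.2 =
      ∑ g : Fin m → (Fin m × Bool) × (Fin m × Bool), (∏ b, F b (g b).1 (g b).2) *
        (sg σ * ∏ b : Fin m, (M (σ (b, false)) (g b).1 * M (σ (b, true)) (g b).2)) := by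
    intro σ
    rw [Finset.prod_univ_sum, Finset.mul_sum, Fintype.piFinset_univ]
    refine sum_congr rfl fun g _ => ?_
    rw [prod_mul_distrib]
    ring
  rw [sum_congr rfl fun σ _ => h1 σ, sum_comm]
  have h2 : ∀ g : Fin m → (Fin m × Bool) × (Fin m × Bool),
      ∑ σ : Equiv.Perm (Fin m × Bool), (∏ b, F b (g b).1 (g b).2) *
        (sg σ * ∏ b : Fin m, (M (σ (b, false)) (g b).1 * M (σ (b, true)) (g b).2)) =
      (∏ b, F b (g b).1 (g b).2) * (Matrix.of fun i j => M i (pr g j)).det := by
    intro g
    rw [← Finset.mul_sum, det_pr]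
  rw [sum_congr rfl fun g _ => h2 g, Finset.mul_sum]
  symm
  refine Fintype.sum_of_injective
    (fun (σ : Equiv.Perm (Fin m × Bool)) (b : Fin m) => (σ (b, false), σ (b, true))) ?_ _ _ ?_ ?_
  · intro σ τ h
    ext1 q
    obtain ⟨b, β⟩ := q
    have h3 := congrFun h b
    simp only [Prod.mk.injEq] at h3
    cases β
    · exact h3.1
    · exact h3.2
  · intro g hg
    rw [det_noninj, mul_zero]
    intro hi
    apply hg
    refine ⟨Equiv.ofBijective (pr g) (Finite.injective_iff_bijective.1 hi), ?_⟩
    funext b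
    simp [pr]
  · intro σ
    have : pr (fun b => (σ (b, false), σ (b, true))) = σ := by
      funext q
      obtain ⟨b, β⟩ := q
      cases β <;> rfl
    rw [this, det_col]
    ring

/-- swaps inside the blocks selected by `u` -/
def bs (u : Fin m → Bool) : Equiv.Perm (Fin m × Bool) :=
  Equiv.prodCongrRight (fun b => if u b then Equiv.swap false true else Equiv.refl Bool)

theorem sg_bs (u : Fin m → Bool) : sg (bs u) = ∏ b, (if u b then (-1 : ℂ) else 1) := by
  unfold sg bs
  rw [Equiv.Perm.sign_prodCongrRight]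
  push_cast
  refine Finset.prod_congr rfl fun b _ => ?_
  split_ifs with h
  · simp
  · simp

/-- **Reduction of antisymmetric pairs.** -/
theorem alt_flip (H : Fin m → (Fin m × Bool) → (Fin m × Bool) → ℂ) :
    Alt (fun b i j => H b i j - H b j i) = 2 ^ m * Alt H := by
  have h1 : ∀ u : Fin m → Bool, Alt H = ∑ σ : Equiv.Perm (Fin m × Bool), sg σ *
      ∏ b : Fin m, (if u b then -H b (σ (b, true)) (σ (b, false))
        else H b (σ (b, false)) (σ (b, true))) := by
    intro u
    unfold Alt
    rw [← Equiv.sum_comp (Equiv.mulRight (bs u))]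
    refine Finset.sum_congr rfl fun σ _ => ?_
    simp only [Equiv.coe_mulRight, sg_mul, Equiv.Perm.mul_apply, sg_bs]
    rw [mul_assoc, ← Finset.prod_mul_distrib]
    congr 1
    refine Finset.prod_congr rfl fun b _ => ?_
    by_cases hb : u b
    · simp [hb, bs]
    · simp [hb, bs]
  have h2 : ∑ u : Fin m → Bool, Alt H = 2 ^ m * Alt H := by
    rw [Finset.sum_const, Finset.card_univ, Fintype.card_fun, Fintype.card_bool, nsmul_eq_mul,
      Fintype.card_fin]
    push_cast
    rfl
  rw [← h2]
  have h3 : ∑ u : Fin m → Bool, Alt H = _ :=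
    Finset.sum_congr (s₁ := (Finset.univ : Finset (Fin m → Bool))) rfl fun u _ => h1 u
  rw [h3]
  symm
  rw [Finset.sum_comm]
  unfold Alt
  refine Finset.sum_congr rfl fun σ _ => ?_
  rw [← Finset.mul_sum]
  congr 1
  rw [← Fintype.prod_sum (fun (b : Fin m) (β : Bool) => if β
        then -H b (σ (b, true)) (σ (b, false))
        else H b (σ (b, false)) (σ (b, true)))]
  refine Finset.prod_congr rfl fun b _ => ?_
  rw [Fintype.sum_bool]
  simp
  ring

/-- **Permutations preserving the type.** -/
theorem alt_type (H : Fin m → (Fin m × Bool) → (Fin m × Bool) → ℂ)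
    (hH : ∀ b i j, (i.2 = true ∨ j.2 = false) → H b i j = 0) :
    Alt H = ∑ ρ : Equiv.Perm (Fin m), ∑ θ : Equiv.Perm (Fin m), sg ρ * sg θ *
      ∏ b : Fin m, H b (ρ b, false) (θ b, true) := by
  classical
  unfold Alt
  rw [← Fintype.sum_prod_type' (f := fun (ρ θ : Equiv.Perm (Fin m)) => sg ρ * sg θ *
      ∏ b : Fin m, H b (ρ b, false) (θ b, true))]
  symm
  refine Fintype.sum_of_injective
    (fun (p : Equiv.Perm (Fin m) × Equiv.Perm (Fin m)) =>
      (Equiv.prodCongrLeft (fun β : Bool => if β then p.2 else p.1) :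
        Equiv.Perm (Fin m × Bool))) ?_ _ _ ?_ ?_
  · intro p q h
    refine Prod.ext ?_ ?_
    · ext1 b
      have h3 := congrArg (fun σ : Equiv.Perm (Fin m × Bool) => (σ (b, false)).1) h
      simpa using h3
    · ext1 b
      have h3 := congrArg (fun σ : Equiv.Perm (Fin m × Bool) => (σ (b, true)).1) h
      simpa using h3
  · intro σ hσ
    by_contra hne
    apply hσ
    have h0 : ∀ b, (σ (b, false)).2 = false ∧ (σ (b, true)).2 = true := by
      intro b
      by_contra hb
      apply hne
      rw [Finset.prod_eq_zero (Finset.mem_univ b), mul_zero]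
      apply hH
      by_contra hc
      push Not at hc
      apply hb
      obtain ⟨h4, h5⟩ := hc
      exact ⟨by simpa using h4, by simpa using h5⟩
    have h1 : ∀ q : Fin m × Bool, (σ q).2 = q.2 := by
      rintro ⟨b, β⟩
      cases β
      · exact (h0 b).1
      · exact (h0 b).2
    have hinj : ∀ β : Bool, Function.Injective fun b : Fin m => (σ (b, β)).1 := by
      intro β b c hbc
      have : σ (b, β) = σ (c, β) := Prod.ext hbc (by rw [h1, h1])
      have := σ.injective this
      exact congrArg Prod.fst this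
    refine ⟨(Equiv.ofBijective _ (Finite.injective_iff_bijective.1 (hinj false)),
      Equiv.ofBijective _ (Finite.injective_iff_bijective.1 (hinj true))), ?_⟩
    ext1 q
    obtain ⟨b, β⟩ := q
    cases β
    · exact Prod.ext rfl ((h1 (b, false)).symm)
    · exact Prod.ext rfl ((h1 (b, true)).symm)
  · intro p
    have hs : sg (Equiv.prodCongrLeft (fun β : Bool => if β then p.2 else p.1) :
        Equiv.Perm (Fin m × Bool)) = sg p.1 * sg p.2 := by
      unfold sg
      rw [Equiv.Perm.sign_prodCongrLeft, Fintype.prod_bool]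
      push_cast
      simp
      ring
    simp only [hs]
    congr 1

end Pool.Agent.Helper33.KG
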