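import Pool.Agent.Helper33.KG1

/-!
# The Gauss-Bonnet sum of a tensor with the symmetries of a Kähler curvature tensor
-/

set_option autoImplicit false

namespace Pool.Agent.Helper33.KG

open Finset Complex

variable {m : ℕ}

/-- the Gauss-Bonnet sum -/
def G (T : (Fin m × Bool) → (Fin m × Bool) → (Fin m × Bool) → (Fin m × Bool) → ℂ) : ℂ :=
  ∑ σ : Equiv.Perm (Fin m × Bool), ∑ τ : Equiv.Perm (Fin m × Bool), sg σ * sg τ *
    ∏ b : Fin m, T (σ (b, false)) (σ (b, true)) (τ (b, false)) (τ (b, true))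

theorem G_eq1 (T : (Fin m × Bool) → (Fin m × Bool) → (Fin m × Bool) → (Fin m × Bool) → ℂ) :
    G T = ∑ τ : Equiv.Perm (Fin m × Bool), sg τ *
      Alt (fun b i j => T i j (τ (b, false)) (τ (b, true))) := by
  unfold G Alt
  rw [sum_comm]
  refine sum_congr rfl fun τ _ => ?_
  rw [mul_sum]
  refine sum_congr rfl fun σ _ => ?_
  ring

theorem G_eq2 (T : (Fin m × Bool) → (Fin m × Bool) → (Fin m × Bool) → (Fin m × Bool) → ℂ) :
    G T = ∑ σ : Equiv.Perm (Fin m × Bool), sg σ *
      Alt (fun b k l => T (σ (b, false)) (σ (b, true)) k l) := by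
  unfold G Alt
  refine sum_congr rfl fun σ _ => ?_
  rw [mul_sum]
  refine sum_congr rfl fun τ _ => ?_
  ring

/-- change of basis in the first two arguments -/
def ch1 (M : Matrix (Fin m × Bool) (Fin m × Bool) ℂ)
    (T : (Fin m × Bool) → (Fin m × Bool) → (Fin m × Bool) → (Fin m × Bool) → ℂ)
    (i j k l : Fin m × Bool) : ℂ :=
  ∑ p : (Fin m × Bool) × (Fin m × Bool), M i p.1 * M j p.2 * T p.1 p.2 k l

/-- change of basis in the last two arguments -/
def ch2 (M : Matrix (Fin m × Bool) (Fin m × Bool) ℂ)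
    (T : (Fin m × Bool) → (Fin m × Bool) → (Fin m × Bool) → (Fin m × Bool) → ℂ)
    (i j k l : Fin m × Bool) : ℂ :=
  ∑ p : (Fin m × Bool) × (Fin m × Bool), M k p.1 * M l p.2 * T i j p.1 p.2

theorem G_ch1 (M : Matrix (Fin m × Bool) (Fin m × Bool) ℂ)
    (T : (Fin m × Bool) → (Fin m × Bool) → (Fin m × Bool) → (Fin m × Bool) → ℂ) :
    G (ch1 M T) = M.det * G T := by
  rw [G_eq1, G_eq1, mul_sum]
  refine sum_congr rfl fun τ _ => ?_
  have h := alt_change M (fun b i j => T i j (τ (b, false)) (τ (b, true)))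
  unfold ch1
  rw [h]
  ring

theorem G_ch2 (M : Matrix (Fin m × Bool) (Fin m × Bool) ℂ)
    (T : (Fin m × Bool) → (Fin m × Bool) → (Fin m × Bool) → (Fin m × Bool) → ℂ) :
    G (ch2 M T) = M.det * G T := by
  rw [G_eq2, G_eq2, mul_sum]
  refine sum_congr rfl fun σ _ => ?_
  have h := alt_change M (fun b k l => T (σ (b, false)) (σ (b, true)) k l)
  unfold ch2
  rw [h]
  ring

/-- the basis of vectors `u - i J u`, `u + i J u` -/
def MZ (m : ℕ) : Matrix (Fin m × Bool) (Fin m × Bool) ℂ :=
  Matrix.of fun i j => if i.1 = j.1 then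
    (if j.2 then (if i.2 then I else -I) else 1) else 0

theorem det_MZ : (MZ m).det = (2 * I) ^ m := by
  have h : MZ m = Matrix.reindex (Equiv.prodComm Bool (Fin m)) (Equiv.prodComm Bool (Fin m))
      (Matrix.blockDiagonal (fun _ : Fin m =>
        (Matrix.of fun β γ : Bool => if γ then (if β then I else -I) else (1 : ℂ)))) := by
    ext i j
    obtain ⟨b, β⟩ := i
    obtain ⟨c, γ⟩ := j
    simp [MZ, Matrix.blockDiagonal_apply]
  rw [h, Matrix.det_reindex_self, Matrix.det_blockDiagonal]
  have h2 : (Matrix.of fun β γ : Bool => if γ then (if β then I else -I) else (1 : ℂ)).det =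
      2 * I := by
    have e : (Matrix.of fun β γ : Bool => if γ then (if β then I else -I) else (1 : ℂ)) =
        Matrix.reindex finTwoEquiv finTwoEquiv !![(1 : ℂ), -I; 1, I] := by
      ext β γ
      cases β <;> cases γ <;> simp [finTwoEquiv]
    rw [e, Matrix.det_reindex_self, Matrix.det_fin_two_of]
    ring
  rw [h2, prod_const, card_univ, Fintype.card_fin]

theorem sum_MZ (β γ : Bool) (b c : Fin m) (f : (Fin m × Bool) → (Fin m × Bool) → ℂ) :
    ∑ p : (Fin m × Bool) × (Fin m × Bool), MZ m (b, β) p.1 * MZ m (c, γ) p.2 * f p.1 p.2 =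
      f (b, false) (c, false) + (if γ then I else -I) * f (b, false) (c, true) +
      (if β then I else -I) * f (b, true) (c, false) +
      (if β then I else -I) * (if γ then I else -I) * f (b, true) (c, true) := by
  rw [Fintype.sum_prod_type]
  have h1 : ∀ x : Fin m × Bool, ∑ y : Fin m × Bool, MZ m (b, β) x * MZ m (c, γ) y * f x y =
      MZ m (b, β) x * (f x (c, false) + (if γ then I else -I) * f x (c, true)) := by
    intro x
    rw [Fintype.sum_prod_type]
    simp only [MZ, Matrix.of_apply, Fintype.sum_bool, mul_ite, ite_mul, mul_zero, zero_mul, mul_one,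
      if_true, Bool.false_eq_true, if_false]
    rw [Finset.sum_eq_single c]
    · simp only [if_true]
      split_ifs <;> ring
    · intro d _ hd
      simp [hd.symm]
    · intro h; exact absurd (mem_univ _) h
  rw [sum_congr rfl fun x _ => h1 x, Fintype.sum_prod_type]
  simp only [MZ, Matrix.of_apply, Fintype.sum_bool, mul_ite, ite_mul, mul_zero, zero_mul, mul_one,
      if_true, Bool.false_eq_true, if_false]
  rw [Finset.sum_eq_single b]
  · simp only [if_true]
    split_ifs <;> ring
  · intro d _ hd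
    simp [hd.symm]
  · intro h; exact absurd (mem_univ _) h

/-- antisymmetric forms of type `(1,1)` -/
structure K11 (f : (Fin m × Bool) → (Fin m × Bool) → ℂ) : Prop where
  anti : ∀ i j, f j i = - f i j
  tt : ∀ b c, f (b, true) (c, true) = f (b, false) (c, false)
  tf : ∀ b c, f (b, true) (c, false) = - f (b, false) (c, true)

/-- the value on `u_b - i J u_b`, `u_c + i J u_c` -/
noncomputable def hz (f : (Fin m × Bool) → (Fin m × Bool) → ℂ) (b c : Fin m) : ℂ :=
  2 * (f (b, false) (c, false) + I * f (b, false) (c, true))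

/-- **Reduction of one pair.** -/
theorem alt_k11 (F : Fin m → (Fin m × Bool) → (Fin m × Bool) → ℂ) (hF : ∀ b, K11 (F b)) :
    I ^ m * Alt F = ∑ ρ : Equiv.Perm (Fin m), ∑ θ : Equiv.Perm (Fin m), sg ρ * sg θ *
      ∏ b : Fin m, hz (F b) (ρ b) (θ b) := by
  have h1 := alt_change (MZ m) F
  rw [det_MZ] at h1
  obtain ⟨H, hH⟩ : ∃ H : Fin m → (Fin m × Bool) → (Fin m × Bool) → ℂ,
      H = fun b i j => if i.2 = false ∧ j.2 = true then hz (F b) i.1 j.1 else 0 := ⟨_, rfl⟩
  have h2 : (fun (b : Fin m) (i j : Fin m × Bool) =>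
      ∑ p : (Fin m × Bool) × (Fin m × Bool), MZ m i p.1 * MZ m j p.2 * F b p.1 p.2) =
      fun b i j => H b i j - H b j i := by
    funext b i j
    obtain ⟨c, β⟩ := i
    obtain ⟨d, γ⟩ := j
    rw [sum_MZ, hH, (hF b).tt, (hF b).tf]
    have e1 : F b (c, false) (d, true) = F b (d, false) (c, true) := by
      have := (hF b).anti (d, false) (c, true)
      rw [(hF b).tf] at this
      linear_combination -this
    have e2 := (hF b).anti (d, false) (c, false)
    have hI : I * I = -1 := I_mul_I
    cases β <;> cases γ <;> simp [hz]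
    · ring
    · linear_combination 2 * e2 - 2 * I * e1
  rw [h2, alt_flip, alt_type] at h1
  · have h3 : (2 : ℂ) ^ m ≠ 0 := pow_ne_zero _ two_ne_zero
    have h4 : ∑ ρ : Equiv.Perm (Fin m), ∑ θ : Equiv.Perm (Fin m), sg ρ * sg θ *
        ∏ b : Fin m, H b (ρ b, false) (θ b, true) =
        ∑ ρ : Equiv.Perm (Fin m), ∑ θ : Equiv.Perm (Fin m), sg ρ * sg θ *
      ∏ b : Fin m, hz (F b) (ρ b) (θ b) := by
      rw [hH]
      simp
    rw [h4, mul_pow, mul_assoc] at h1
    exact (mul_left_cancel₀ h3 h1).symm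
  · intro b i j hij
    rw [hH]
    simp only [ite_eq_right_iff, and_imp]
    intro h5 h6
    rcases hij with h | h
    · rw [h] at h5; exact absurd h5 (by simp)
    · rw [h] at h6; exact absurd h6 (by simp)

end Pool.Agent.Helper33.KG
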