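import Pool.Agent.Helper33.KG2
import Pool.Agent.H864R3.Chern3

/-!
# The Gauss-Bonnet sum in real dimension six and the double mixed discriminant
-/

set_option autoImplicit false

namespace Pool.Agent.Helper33.KG

open Finset Complex

variable {m : ℕ}

/-- tensors which are antisymmetric forms of type `(1,1)` in both pairs -/
structure K22 (T : (Fin m × Bool) → (Fin m × Bool) → (Fin m × Bool) → (Fin m × Bool) → ℂ) :
    Prop where
  left : ∀ k l, K11 (fun i j => T i j k l)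
  right : ∀ i j, K11 (fun k l => T i j k l)

/-- the component on `z_b, z̄_c, z_d, z̄_e` -/
noncomputable def bz (T : (Fin m × Bool) → (Fin m × Bool) → (Fin m × Bool) → (Fin m × Bool) → ℂ)
    (b c d e : Fin m) : ℂ := hz (fun k l => hz (fun i j => T i j k l) b c) d e

theorem G_k22 (T : (Fin m × Bool) → (Fin m × Bool) → (Fin m × Bool) → (Fin m × Bool) → ℂ)
    (hT : K22 T) : (-1) ^ m * G T =
      ∑ ρ : Equiv.Perm (Fin m), ∑ θ : Equiv.Perm (Fin m), ∑ ρ' : Equiv.Perm (Fin m),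
        ∑ θ' : Equiv.Perm (Fin m), sg ρ * sg θ * (sg ρ' * sg θ') *
          ∏ b : Fin m, bz T (ρ b) (θ b) (ρ' b) (θ' b) := by
  have hI : (-1 : ℂ) ^ m = I ^ m * I ^ m := by rw [← mul_pow, I_mul_I]
  rw [hI, mul_assoc, G_eq1]
  have h1 : I ^ m * ∑ τ : Equiv.Perm (Fin m × Bool), sg τ *
      Alt (fun b i j => T i j (τ (b, false)) (τ (b, true))) =
      ∑ τ : Equiv.Perm (Fin m × Bool), sg τ *
        ∑ ρ : Equiv.Perm (Fin m), ∑ θ : Equiv.Perm (Fin m), sg ρ * sg θ *
          ∏ b : Fin m, hz (fun i j => T i j (τ (b, false)) (τ (b, true))) (ρ b) (θ b) := by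
    rw [mul_sum]
    refine sum_congr rfl fun τ _ => ?_
    rw [← alt_k11 (fun b i j => T i j (τ (b, false)) (τ (b, true))) (fun b => hT.left _ _)]
    ring
  rw [h1]
  have h2 : ∑ τ : Equiv.Perm (Fin m × Bool), sg τ *
        ∑ ρ : Equiv.Perm (Fin m), ∑ θ : Equiv.Perm (Fin m), sg ρ * sg θ *
          ∏ b : Fin m, hz (fun i j => T i j (τ (b, false)) (τ (b, true))) (ρ b) (θ b) =
      ∑ ρ : Equiv.Perm (Fin m), ∑ θ : Equiv.Perm (Fin m), sg ρ * sg θ *
        Alt (fun b k l => hz (fun i j => T i j k l) (ρ b) (θ b)) := by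
    unfold Alt
    simp only [mul_sum]
    rw [sum_comm]
    refine sum_congr rfl fun ρ _ => ?_
    rw [sum_comm]
    refine sum_congr rfl fun θ _ => ?_
    refine sum_congr rfl fun τ _ => ?_
    ring
  rw [h2, mul_sum]
  refine sum_congr rfl fun ρ _ => ?_
  rw [mul_sum]
  refine sum_congr rfl fun θ _ => ?_
  have hk : ∀ b : Fin m, K11 (fun k l => hz (fun i j => T i j k l) (ρ b) (θ b)) := by
    intro b
    refine ⟨fun k l => ?_, fun c d => ?_, fun c d => ?_⟩
    · simp only [hz]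
      rw [(hT.right _ _).anti k l, (hT.right _ _).anti k l]
      ring
    · simp only [hz]
      rw [(hT.right _ _).tt c d, (hT.right _ _).tt c d]
    · simp only [hz]
      rw [(hT.right _ _).tf c d, (hT.right _ _).tf c d]
      ring
  have h3 := alt_k11 (fun b k l => hz (fun i j => T i j k l) (ρ b) (θ b)) hk
  have h4 : I ^ m * (sg ρ * sg θ * Alt fun b k l => hz (fun i j => T i j k l) (ρ b) (θ b)) =
      sg ρ * sg θ * (I ^ m * Alt fun b k l => hz (fun i j => T i j k l) (ρ b) (θ b)) := by ring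
  rw [h4, h3, mul_sum]
  refine sum_congr rfl fun ρ' _ => ?_
  rw [mul_sum]
  refine sum_congr rfl fun θ' _ => ?_
  unfold bz
  ring

/-- the family of matrices -/
noncomputable def Bm (T : (Fin 3 × Bool) → (Fin 3 × Bool) → (Fin 3 × Bool) → (Fin 3 × Bool) → ℂ)
    (k l : Fin 3) : Matrix (Fin 3) (Fin 3) ℂ := Matrix.of fun a b => bz T k l a b

theorem sg_sq {J : Type} [Fintype J] [DecidableEq J] (σ : Equiv.Perm J) : sg σ * sg σ = 1 := by
  unfold sg
  rcases Int.units_eq_one_or (Equiv.Perm.sign σ) with h | h <;> rw [h] <;> simp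

theorem four_perms (B : Fin 3 → Fin 3 → Fin 3 → Fin 3 → ℂ) :
    ∑ ρ : Equiv.Perm (Fin 3), ∑ θ : Equiv.Perm (Fin 3), ∑ ρ' : Equiv.Perm (Fin 3),
        ∑ θ' : Equiv.Perm (Fin 3), sg ρ * sg θ * (sg ρ' * sg θ') *
          ∏ b : Fin 3, B (ρ b) (θ b) (ρ' b) (θ' b) =
    6 * H864R3.Phi6 (fun k l => Matrix.of fun a b => B k l a b) := by
  have h1 : ∀ ρ : Equiv.Perm (Fin 3), ∑ θ : Equiv.Perm (Fin 3), ∑ ρ' : Equiv.Perm (Fin 3),
        ∑ θ' : Equiv.Perm (Fin 3), sg ρ * sg θ * (sg ρ' * sg θ') *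
          ∏ b : Fin 3, B (ρ b) (θ b) (ρ' b) (θ' b) =
      H864R3.Phi6 (fun k l => Matrix.of fun a b => B k l a b) := by
    intro ρ
    unfold H864R3.Phi6
    rw [← Equiv.sum_comp (Equiv.mulRight ρ)]
    refine sum_congr rfl fun θ _ => ?_
    rw [← Equiv.sum_comp (Equiv.mulRight ρ), mul_sum]
    refine sum_congr rfl fun α _ => ?_
    rw [← Equiv.sum_comp (Equiv.mulRight ρ), mul_sum]
    refine sum_congr rfl fun κ _ => ?_
    simp only [Equiv.coe_mulRight, sg_mul, Equiv.Perm.mul_apply, Matrix.of_apply]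
    rw [Equiv.prod_comp ρ (fun k => B k (θ k) (α k) (κ k))]
    have h2 := sg_sq ρ
    have h3 : sg ρ * (sg θ * sg ρ) * (sg α * sg ρ * (sg κ * sg ρ)) =
        (sg ρ * sg ρ) * (sg ρ * sg ρ) * (sg θ * (sg α * sg κ)) := by ring
    rw [h3, h2]
    unfold sg
    ring
  rw [sum_congr rfl fun ρ _ => h1 ρ, sum_const, card_univ, Fintype.card_perm, Fintype.card_fin,
    nsmul_eq_mul]
  norm_num [Nat.factorial]

theorem G_six (T : (Fin 3 × Bool) → (Fin 3 × Bool) → (Fin 3 × Bool) → (Fin 3 × Bool) → ℂ)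
    (hT : K22 T) : G T = -(6 * H864R3.Phi6 (Bm T)) := by
  have h := G_k22 T hT
  rw [four_perms (bz T)] at h
  unfold Bm
  rw [← h]
  norm_num

/-! ### the quadratic form -/

/-- coordinates of the real vector of `ξ` -/
def vx (ξ : Fin m → ℂ) : Fin m × Bool → ℝ := fun q => if q.2 then (ξ q.1).im else (ξ q.1).re

/-- coordinates of `J` of the real vector of `ξ` -/
def jx (ξ : Fin m → ℂ) : Fin m × Bool → ℝ := fun q => if q.2 then (ξ q.1).re else -(ξ q.1).im

theorem hz_sum {f : (Fin m × Bool) → (Fin m × Bool) → ℂ} (hf : K11 f) (ξ : Fin m → ℂ) :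
    ∑ b, ∑ c, ξ b * star (ξ c) * hz f b c =
      2 * I * ∑ i, ∑ j, ((vx ξ i : ℝ) : ℂ) * ((jx ξ j : ℝ) : ℂ) * f i j := by
  -- real and imaginary parts
  have e0 : ∀ b c, f (b, false) (c, true) = f (c, false) (b, true) := by
    intro b c
    have := hf.anti (c, false) (b, true)
    rw [hf.tf] at this
    linear_combination -this
  have hR : ∑ i, ∑ j, ((vx ξ i : ℝ) : ℂ) * ((jx ξ j : ℝ) : ℂ) * f i j =
      ∑ b, ∑ c, ((((ξ b).re * (ξ c).re + (ξ b).im * (ξ c).im : ℝ) : ℂ) * f (b, false) (c, true) +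
        (((ξ b).im * (ξ c).re - (ξ b).re * (ξ c).im : ℝ) : ℂ) * f (b, false) (c, false)) := by
    rw [Fintype.sum_prod_type]
    refine sum_congr rfl fun b _ => ?_
    rw [Fintype.sum_bool, Fintype.sum_prod_type, Fintype.sum_prod_type, ← sum_add_distrib]
    refine sum_congr rfl fun c _ => ?_
    rw [Fintype.sum_bool, Fintype.sum_bool, hf.tt, hf.tf]
    simp only [vx, jx, if_true, Bool.false_eq_true, if_false]
    push_cast
    ring
  have s1 : ∑ b, ∑ c, (((ξ b).re * (ξ c).re + (ξ b).im * (ξ c).im : ℝ) : ℂ) *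
      f (b, false) (c, false) = 0 := by
    have h : ∑ b, ∑ c, (((ξ b).re * (ξ c).re + (ξ b).im * (ξ c).im : ℝ) : ℂ) *
      f (b, false) (c, false) = - ∑ b, ∑ c, (((ξ b).re * (ξ c).re + (ξ b).im * (ξ c).im : ℝ) : ℂ) *
      f (b, false) (c, false) := by
      conv_lhs => rw [sum_comm]
      rw [← sum_neg_distrib]
      refine sum_congr rfl fun b _ => ?_
      rw [← sum_neg_distrib]
      refine sum_congr rfl fun c _ => ?_
      rw [hf.anti (b, false) (c, false)]
      push_cast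
      ring
    have h2 : (2 : ℂ) * ∑ b, ∑ c, (((ξ b).re * (ξ c).re + (ξ b).im * (ξ c).im : ℝ) : ℂ) *
      f (b, false) (c, false) = 0 := by linear_combination h
    exact (mul_eq_zero.1 h2).resolve_left two_ne_zero
  have s2 : ∑ b, ∑ c, (((ξ b).im * (ξ c).re - (ξ b).re * (ξ c).im : ℝ) : ℂ) *
      f (b, false) (c, true) = 0 := by
    have h : ∑ b, ∑ c, (((ξ b).im * (ξ c).re - (ξ b).re * (ξ c).im : ℝ) : ℂ) *
      f (b, false) (c, true) = - ∑ b, ∑ c, (((ξ b).im * (ξ c).re - (ξ b).re * (ξ c).im : ℝ) : ℂ) *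
      f (b, false) (c, true) := by
      conv_lhs => rw [sum_comm]
      rw [← sum_neg_distrib]
      refine sum_congr rfl fun b _ => ?_
      rw [← sum_neg_distrib]
      refine sum_congr rfl fun c _ => ?_
      rw [e0 c b]
      push_cast
      ring
    have h2 : (2 : ℂ) * ∑ b, ∑ c, (((ξ b).im * (ξ c).re - (ξ b).re * (ξ c).im : ℝ) : ℂ) *
      f (b, false) (c, true) = 0 := by linear_combination h
    exact (mul_eq_zero.1 h2).resolve_left two_ne_zero
  rw [hR]
  have hL : ∑ b, ∑ c, ξ b * star (ξ c) * hz f b c =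
      2 * (∑ b, ∑ c, (((ξ b).re * (ξ c).re + (ξ b).im * (ξ c).im : ℝ) : ℂ) *
        f (b, false) (c, false)) - 2 * (∑ b, ∑ c, (((ξ b).im * (ξ c).re - (ξ b).re * (ξ c).im : ℝ) : ℂ) *
        f (b, false) (c, true)) + 2 * I * ∑ b, ∑ c,
        ((((ξ b).re * (ξ c).re + (ξ b).im * (ξ c).im : ℝ) : ℂ) * f (b, false) (c, true) +
        (((ξ b).im * (ξ c).re - (ξ b).re * (ξ c).im : ℝ) : ℂ) * f (b, false) (c, false)) := by
    simp only [mul_sum]
    rw [← sum_sub_distrib, ← sum_add_distrib]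
    refine sum_congr rfl fun b _ => ?_
    rw [← sum_sub_distrib, ← sum_add_distrib]
    refine sum_congr rfl fun c _ => ?_
    have hb : ξ b = ((ξ b).re : ℂ) + ((ξ b).im : ℂ) * I := (re_add_im _).symm
    have hc : star (ξ c) = ((ξ c).re : ℂ) - ((ξ c).im : ℂ) * I := by
      apply Complex.ext <;> simp
    rw [hc]
    conv_lhs => rw [hb]
    unfold hz
    push_cast
    have hI : I ^ 2 = -1 := I_sq
    linear_combination (2 * (-(ξ b).im * (ξ c).im * f (b, false) (c, false) -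
      (ξ b).re * (ξ c).im * f (b, false) (c, true) + (ξ b).im * (ξ c).re * f (b, false) (c, true)
      - I * (ξ b).im * (ξ c).im * f (b, false) (c, true))) * hI
  rw [hL, s1, s2]
  ring

end Pool.Agent.Helper33.KG
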