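import Pool.Agent.Helper33.KG3
import Pool.Agent.Y519.HB.Last

/-!
# The Gauss-Bonnet-Chern integrand of a Kähler curvature tensor of nonpositive bisectional
curvature in real dimension six
-/

set_option autoImplicit false

namespace Pool.Agent.Helper33.KG

open Finset Complex Pool.Agent.W666.GB Pool.Agent.W669.HD Pool.Agent.Y519.HB
open scoped ComplexOrder

variable {V : Type} [NormedAddCommGroup V] [InnerProductSpace ℝ V]

/-- orthogonal complex structures -/
structure CxStr (J : V →ₗ[ℝ] V) : Prop where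
  sq : ∀ x, J (J x) = -x
  isom : ∀ x y, inner ℝ (J x) (J y) = inner ℝ x y

/-- the symmetry of the curvature tensors of Kähler manifolds -/
def KaeSym (J : V →ₗ[ℝ] V) (R : V → V → V → V → ℝ) : Prop :=
  ∀ x y z w, R (J x) (J y) z w = R x y z w

section adapted

variable {R : V → V → V → V → ℝ} {J : V →ₗ[ℝ] V} {e : Fin 3 × Bool → V}

/-- components as complex numbers -/
noncomputable def TC (e : Fin 3 × Bool → V) (R : V → V → V → V → ℝ)
    (i j k l : Fin 3 × Bool) : ℂ := ((R (e i) (e j) (e k) (e l) : ℝ) : ℂ)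

theorem neg1 (hR : AlgCurv R) (x y z w : V) : R (-x) y z w = - R x y z w := by
  have := hR.smul (-1) x y z w
  simpa using this

theorem k22_TC (hR : AlgCurv R) (hJ : ∀ x, J (J x) = -x) (hK : KaeSym J R)
    (he : ∀ b, e (b, true) = J (e (b, false))) : K22 (TC e R) := by
  have hK' : ∀ x y z w, R x y (J z) (J w) = R x y z w := by
    intro x y z w
    rw [← hR.pair, hK, hR.pair]
  have a1 : ∀ x y z w, R (J x) y z w = - R x (J y) z w := by
    intro x y z w
    rw [← hK (J x) y z w, hJ, neg1 hR]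
  have a2 : ∀ x y z w, R x y (J z) w = - R x y z (J w) := by
    intro x y z w
    rw [← hR.pair, a1, hR.pair]
  have an : ∀ x y z w, R x y w z = - R x y z w := by
    intro x y z w
    rw [← hR.pair, hR.anti z w, hR.pair]
  refine ⟨fun k l => ⟨fun i j => ?_, fun b c => ?_, fun b c => ?_⟩,
    fun i j => ⟨fun k l => ?_, fun b c => ?_, fun b c => ?_⟩⟩
  · simp only [TC]; rw [hR.anti (e i) (e j)]; push_cast; ring
  · simp only [TC]; rw [he, he, hK]
  · simp only [TC]; rw [he, he, a1]; push_cast; ring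
  · simp only [TC]; rw [an _ _ (e k) (e l)]; push_cast; ring
  · simp only [TC]; rw [he, he, hK']
  · simp only [TC]; rw [he, he, a2]; push_cast; ring

/-- real vector of `ξ` -/
noncomputable def vv (e : Fin 3 × Bool → V) (ξ : Fin 3 → ℂ) : V := ∑ q, vx ξ q • e q

theorem J_vv (hJ : ∀ x, J (J x) = -x) (he : ∀ b, e (b, true) = J (e (b, false)))
    (ξ : Fin 3 → ℂ) : J (vv e ξ) = ∑ q, jx ξ q • e q := by
  unfold vv
  rw [map_sum, Fintype.sum_prod_type, Fintype.sum_prod_type]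
  refine sum_congr rfl fun b _ => ?_
  rw [Fintype.sum_bool, Fintype.sum_bool, map_smul, map_smul, he b, hJ]
  simp only [vx, jx, if_true, Bool.false_eq_true, if_false]
  rw [smul_neg, neg_smul]
  abel

/-- the matrix of the form at `ξ` -/
noncomputable def Mxi (T : (Fin 3 × Bool) → (Fin 3 × Bool) → (Fin 3 × Bool) → (Fin 3 × Bool) → ℂ)
    (ξ : Fin 3 → ℂ) : Matrix (Fin 3) (Fin 3) ℂ :=
  ∑ i : Fin 3, ∑ j : Fin 3, (ξ i * star (ξ j)) • Bm T i j

theorem Mxi_apply (T : (Fin 3 × Bool) → (Fin 3 × Bool) → (Fin 3 × Bool) → (Fin 3 × Bool) → ℂ)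
    (ξ : Fin 3 → ℂ) (d f : Fin 3) :
    Mxi T ξ d f = hz (fun k l => ∑ b, ∑ c, ξ b * star (ξ c) * hz (fun i j => T i j k l) b c) d f := by
  unfold Mxi
  simp only [Matrix.sum_apply, Matrix.smul_apply, smul_eq_mul, Bm, Matrix.of_apply, bz, hz,
    mul_sum]
  rw [← sum_add_distrib, mul_sum]
  refine sum_congr rfl fun b _ => ?_
  rw [← sum_add_distrib, mul_sum]
  refine sum_congr rfl fun c _ => ?_
  ring

theorem quad (hR : AlgCurv R) (hJ : ∀ x, J (J x) = -x) (hK : KaeSym J R)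
    (he : ∀ b, e (b, true) = J (e (b, false))) (ξ η : Fin 3 → ℂ) :
    ∑ d, ∑ f, η d * star (η f) * Mxi (TC e R) ξ d f =
      ((-(4 * R (vv e ξ) (J (vv e ξ)) (vv e η) (J (vv e η))) : ℝ) : ℂ) := by
  have hT := k22_TC hR hJ hK he
  have h1 : ∀ k l, ∑ b, ∑ c, ξ b * star (ξ c) * hz (fun i j => TC e R i j k l) b c =
      2 * I * ∑ i, ∑ j, ((vx ξ i : ℝ) : ℂ) * ((jx ξ j : ℝ) : ℂ) * TC e R i j k l :=
    fun k l => hz_sum (hT.left k l) ξ
  simp only [Mxi_apply, h1]
  have hk : K11 (fun k l => 2 * I * ∑ i, ∑ j, ((vx ξ i : ℝ) : ℂ) * ((jx ξ j : ℝ) : ℂ) *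
      TC e R i j k l) := by
    refine ⟨fun k l => ?_, fun b c => ?_, fun b c => ?_⟩
    · simp only [(hT.right _ _).anti k l, mul_neg, sum_neg_distrib]
    · simp only [(hT.right _ _).tt b c]
    · simp only [(hT.right _ _).tf b c, mul_neg, sum_neg_distrib]
  rw [hz_sum hk η]
  have h2 : R (vv e ξ) (J (vv e ξ)) (vv e η) (J (vv e η)) =
      ∑ i, ∑ j, ∑ k, ∑ l, vx ξ i * jx ξ j * vx η k * jx η l * R (e i) (e j) (e k) (e l) := by
    rw [J_vv hJ he, J_vv hJ he]
    unfold vv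
    rw [R_ev4 hR, ev4_eq]
  rw [h2]
  push_cast
  simp only [mul_sum]
  rw [← sum_neg_distrib]
  -- reorder
  have h3 : ∀ (f : Fin 3 × Bool → Fin 3 × Bool → Fin 3 × Bool → Fin 3 × Bool → ℂ),
      ∑ k, ∑ l, ∑ i, ∑ j, f i j k l = ∑ i, ∑ j, ∑ k, ∑ l, f i j k l := by
    intro f
    simp only [← Fintype.sum_prod_type']
    refine Fintype.sum_equiv ⟨fun x => (x.2.2.1, x.2.2.2, x.1, x.2.1),
          fun x => (x.2.2.1, x.2.2.2, x.1, x.2.1), fun _ => rfl, fun _ => rfl⟩ _ _ ?_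
    intro x
    rfl
  rw [h3]
  refine sum_congr rfl fun i _ => ?_
  rw [← sum_neg_distrib]
  refine sum_congr rfl fun j _ => ?_
  rw [← sum_neg_distrib]
  refine sum_congr rfl fun k _ => ?_
  rw [← sum_neg_distrib]
  refine sum_congr rfl fun l _ => ?_
  have hI : I ^ 2 = -1 := I_sq
  simp only [TC]
  linear_combination (4 * ((vx η k : ℝ) : ℂ) * ((jx η l : ℝ) : ℂ) * ((vx ξ i : ℝ) : ℂ) *
    ((jx ξ j : ℝ) : ℂ) * ((R (e i) (e j) (e k) (e l) : ℝ) : ℂ)) * hI

theorem conj_hz {f : (Fin 3 × Bool) → (Fin 3 × Bool) → ℂ} (hf : K11 f)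
    (hr : ∀ i j, star (f i j) = f i j) (b c : Fin 3) : star (hz f b c) = - hz f c b := by
  have e0 : f (c, false) (b, true) = f (b, false) (c, true) := by
    have := hf.anti (b, false) (c, true)
    rw [hf.tf] at this
    linear_combination -this
  unfold hz
  rw [hf.anti (b, false) (c, false), e0]
  simp only [star_mul', star_add, hr]
  have : star I = -I := by simp
  rw [this]
  have h2 : star (2 : ℂ) = 2 := by simp
  rw [h2]
  ring

theorem herm (hR : AlgCurv R) (hJ : ∀ x, J (J x) = -x) (hK : KaeSym J R)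
    (he : ∀ b, e (b, true) = J (e (b, false))) (ξ : Fin 3 → ℂ) :
    (Mxi (TC e R) ξ).IsHermitian := by
  have hT := k22_TC hR hJ hK he
  have h1 : ∀ k l, ∑ b, ∑ c, ξ b * star (ξ c) * hz (fun i j => TC e R i j k l) b c =
      2 * I * ∑ i, ∑ j, ((vx ξ i : ℝ) : ℂ) * ((jx ξ j : ℝ) : ℂ) * TC e R i j k l :=
    fun k l => hz_sum (hT.left k l) ξ
  have hk : K11 (fun k l => ∑ i, ∑ j, ((vx ξ i : ℝ) : ℂ) * ((jx ξ j : ℝ) : ℂ) *
      TC e R i j k l) := by
    refine ⟨fun k l => ?_, fun b c => ?_, fun b c => ?_⟩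
    · simp only [(hT.right _ _).anti k l, mul_neg, sum_neg_distrib]
    · simp only [(hT.right _ _).tt b c]
    · simp only [(hT.right _ _).tf b c, mul_neg, sum_neg_distrib]
  have hr : ∀ k l, star (∑ i, ∑ j, ((vx ξ i : ℝ) : ℂ) * ((jx ξ j : ℝ) : ℂ) *
      TC e R i j k l) = ∑ i, ∑ j, ((vx ξ i : ℝ) : ℂ) * ((jx ξ j : ℝ) : ℂ) *
      TC e R i j k l := by
    intro k l
    simp only [star_sum, star_mul', TC]
    simp
  have hlin : ∀ (g : (Fin 3 × Bool) → (Fin 3 × Bool) → ℂ) (d f : Fin 3),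
      hz (fun k l => 2 * I * g k l) d f = 2 * I * hz g d f := by
    intro g d f
    unfold hz
    ring
  ext d f
  rw [Matrix.conjTranspose_apply, Mxi_apply, Mxi_apply]
  simp only [h1]
  rw [hlin, hlin, star_mul', conj_hz hk hr]
  have : star (2 * I : ℂ) = - (2 * I) := by
    rw [star_mul']
    simp
  rw [this]
  ring

theorem psd (hR : AlgCurv R) (hJ : ∀ x, J (J x) = -x) (hK : KaeSym J R)
    (he : ∀ b, e (b, true) = J (e (b, false))) (hb : ∀ x y, R x (J x) y (J y) ≤ 0)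
    (ξ : Fin 3 → ℂ) : (Mxi (TC e R) ξ).PosSemidef := by
  refine Matrix.PosSemidef.of_dotProduct_mulVec_nonneg (herm hR hJ hK he ξ) fun x => ?_
  have h1 : star x ⬝ᵥ (Matrix.mulVec (Mxi (TC e R) ξ) x) =
      ∑ d, ∑ f, (star x) d * star ((star x) f) * Mxi (TC e R) ξ d f := by
    simp only [dotProduct, Matrix.mulVec, mul_sum]
    refine sum_congr rfl fun d _ => sum_congr rfl fun f _ => ?_
    simp only [Pi.star_apply, star_star]
    ring
  rw [h1, quad hR hJ hK he]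
  have h2 := hb (vv e ξ) (vv e (star x))
  have h3 : (0 : ℝ) ≤ -(4 * R (vv e ξ) (J (vv e ξ)) (vv e (star x)) (J (vv e (star x)))) := by
    linarith
  exact_mod_cast h3

theorem pd (hR : AlgCurv R) (hJ : ∀ x, J (J x) = -x) (hK : KaeSym J R)
    (he : ∀ b, e (b, true) = J (e (b, false)))
    (hli : ∀ ξ : Fin 3 → ℂ, ξ ≠ 0 → vv e ξ ≠ 0)
    (hb : ∀ x y, x ≠ 0 → y ≠ 0 → R x (J x) y (J y) < 0)
    (ξ : Fin 3 → ℂ) (hξ : ξ ≠ 0) : (Mxi (TC e R) ξ).PosDef := by
  refine Matrix.PosDef.of_dotProduct_mulVec_pos (herm hR hJ hK he ξ) fun {x} hx => ?_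
  have h1 : star x ⬝ᵥ (Matrix.mulVec (Mxi (TC e R) ξ) x) =
      ∑ d, ∑ f, (star x) d * star ((star x) f) * Mxi (TC e R) ξ d f := by
    simp only [dotProduct, Matrix.mulVec, mul_sum]
    refine sum_congr rfl fun d _ => sum_congr rfl fun f _ => ?_
    simp only [Pi.star_apply, star_star]
    ring
  rw [h1, quad hR hJ hK he]
  have h2 := hb (vv e ξ) (vv e (star x)) (hli ξ hξ) (hli _ (star_ne_zero.2 hx))
  have h3 : (0 : ℝ) < -(4 * R (vv e ξ) (J (vv e ξ)) (vv e (star x)) (J (vv e (star x)))) := by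
    linarith
  exact_mod_cast h3

end adapted

end Pool.Agent.Helper33.KG
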