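import Pool.Agent.Helper33.KG4

/-!
# The sign in real dimension six
-/

set_option autoImplicit false

namespace Pool.Agent.Helper33.KG

open Finset Complex Pool.Agent.W666.GB Pool.Agent.W669.HD Pool.Agent.Y519.HB
open scoped ComplexOrder

variable {V : Type} [NormedAddCommGroup V] [InnerProductSpace ℝ V]

theorem gbc_G (e : OrthonormalBasis (Fin 3 × Bool) ℝ V) (R : V → V → V → V → ℝ) :
    ((gbc e R : ℝ) : ℂ) = 1 / ((8 * (Real.pi : ℂ)) ^ 3 * 6) * G (TC (fun q => e q) R) := by
  unfold gbc G TC sg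
  push_cast
  norm_num [Nat.factorial]

theorem adapted_nonpos (e : OrthonormalBasis (Fin 3 × Bool) ℝ V) {R : V → V → V → V → ℝ}
    (hR : AlgCurv R) {J : V →ₗ[ℝ] V} (hJ : ∀ x, J (J x) = -x) (hK : KaeSym J R)
    (he : ∀ b, e (b, true) = J (e (b, false))) (hb : ∀ x y, R x (J x) y (J y) ≤ 0) :
    gbc e R ≤ 0 := by
  have h1 : 0 ≤ H864R3.Phi6 (Bm (TC (fun q => e q) R)) :=
    H864R3.core_nonneg fun ξ => psd hR hJ hK he hb ξ
  have h2 := gbc_G e R
  rw [G_six _ (k22_TC hR hJ hK he)] at h2
  have hπ := Real.pi_pos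
  have h3 : ((-(gbc e R) : ℝ) : ℂ) = ((1 / ((8 * Real.pi) ^ 3 * 6) * 6 : ℝ) : ℂ) *
      H864R3.Phi6 (Bm (TC (fun q => e q) R)) := by
    push_cast
    rw [h2]
    ring
  have h4 : (0 : ℂ) ≤ ((1 / ((8 * Real.pi) ^ 3 * 6) * 6 : ℝ) : ℂ) := by
    have : (0 : ℝ) ≤ 1 / ((8 * Real.pi) ^ 3 * 6) * 6 := by positivity
    exact_mod_cast this
  have h5 : (0 : ℂ) ≤ ((-(gbc e R) : ℝ) : ℂ) := by
    rw [h3]
    exact mul_nonneg h4 h1
  have h6 : (0 : ℝ) ≤ -(gbc e R) := by exact_mod_cast h5
  linarith

theorem adapted_neg (e : OrthonormalBasis (Fin 3 × Bool) ℝ V) {R : V → V → V → V → ℝ}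
    (hR : AlgCurv R) {J : V →ₗ[ℝ] V} (hJ : ∀ x, J (J x) = -x) (hK : KaeSym J R)
    (he : ∀ b, e (b, true) = J (e (b, false)))
    (hb : ∀ x y, x ≠ 0 → y ≠ 0 → R x (J x) y (J y) < 0) : gbc e R < 0 := by
  have hli : ∀ ξ : Fin 3 → ℂ, ξ ≠ 0 → vv (fun q => e q) ξ ≠ 0 := by
    intro ξ hξ h0
    apply hξ
    have h1 := Fintype.linearIndependent_iff.1 e.toBasis.linearIndependent (vx ξ) (by
      simpa [vv] using h0)
    funext b
    apply Complex.ext
    · have := h1 (b, false)
      simpa [vx] using this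
    · have := h1 (b, true)
      simpa [vx] using this
  have h1 : 0 < H864R3.Phi6 (Bm (TC (fun q => e q) R)) :=
    H864R3.core_pos fun ξ hξ => pd hR hJ hK he hli hb ξ hξ
  have h2 := gbc_G e R
  rw [G_six _ (k22_TC hR hJ hK he)] at h2
  have hπ := Real.pi_pos
  have h3 : ((-(gbc e R) : ℝ) : ℂ) = ((1 / ((8 * Real.pi) ^ 3 * 6) * 6 : ℝ) : ℂ) *
      H864R3.Phi6 (Bm (TC (fun q => e q) R)) := by
    push_cast
    rw [h2]
    ring
  have h4 : (0 : ℂ) < ((1 / ((8 * Real.pi) ^ 3 * 6) * 6 : ℝ) : ℂ) := by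
    have : (0 : ℝ) < 1 / ((8 * Real.pi) ^ 3 * 6) * 6 := by positivity
    exact_mod_cast this
  have h5 : (0 : ℂ) < ((-(gbc e R) : ℝ) : ℂ) := by
    rw [h3]
    exact mul_pos h4 h1
  have h6 : (0 : ℝ) < -(gbc e R) := by exact_mod_cast h5
  linarith

/-! ### adapted bases -/

/-- the family `u_b, J u_b` -/
def fam {k : ℕ} (J : V →ₗ[ℝ] V) (u : Fin k → V) : Fin k × Bool → V :=
  fun q => if q.2 then J (u q.1) else u q.1

theorem CxStr.skew {J : V →ₗ[ℝ] V} (hJ : CxStr J) (x y : V) :
    inner ℝ (J x) y = - inner ℝ x (J y) := by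
  rw [← hJ.isom (J x) y, hJ.sq, inner_neg_left]

theorem CxStr.self {J : V →ₗ[ℝ] V} (hJ : CxStr J) (x : V) : inner ℝ x (J x) = 0 := by
  have h := hJ.skew x x
  rw [real_inner_comm] at h
  linarith

theorem exists_fam [FiniteDimensional ℝ V] {J : V →ₗ[ℝ] V} (hJ : CxStr J) (k : ℕ)
    (hk : 2 * k ≤ Module.finrank ℝ V) : ∃ u : Fin k → V, Orthonormal ℝ (fam J u) := by
  induction k with
  | zero =>
    exact ⟨Fin.elim0, ⟨fun q => q.1.elim0, fun q => q.1.elim0⟩⟩
  | succ k ih =>
    obtain ⟨u, hu⟩ := ih (by omega)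
    -- a unit vector orthogonal to the family
    have hex : ∃ v : V, ‖v‖ = 1 ∧ ∀ q, inner ℝ (fam J u q) v = 0 := by
      have hlt : Module.finrank ℝ (Submodule.span ℝ (Set.range (fam J u))) <
          Module.finrank ℝ V := by
        refine lt_of_le_of_lt (finrank_range_le_card (fam J u)) ?_
        simp only [Fintype.card_prod, Fintype.card_fin, Fintype.card_bool]
        omega
      have hne : (Submodule.span ℝ (Set.range (fam J u)))ᗮ ≠ ⊥ := by
        intro hbot
        rw [Submodule.orthogonal_eq_bot_iff] at hbot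
        rw [hbot, finrank_top] at hlt
        exact lt_irrefl _ hlt
      obtain ⟨w, hw, hw0⟩ := Submodule.exists_mem_ne_zero_of_ne_bot hne
      refine ⟨‖w‖⁻¹ • w, ?_, fun q => ?_⟩
      · rw [norm_smul, norm_inv, norm_norm, inv_mul_cancel₀ (norm_ne_zero_iff.2 hw0)]
      · rw [inner_smul_right, (Submodule.mem_orthogonal _ _).1 hw _
          (Submodule.subset_span ⟨q, rfl⟩), mul_zero]
    obtain ⟨v, hv1, hv⟩ := hex
    have hvJ : ∀ q, inner ℝ (fam J u q) (J v) = 0 := by
      rintro ⟨b, β⟩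
      cases β
      · have h := hv (b, true)
        simp only [fam, if_true] at h
        simp only [fam, Bool.false_eq_true, if_false]
        rw [hJ.skew] at h
        linarith
      · have h := hv (b, false)
        simp only [fam, Bool.false_eq_true, if_false] at h
        simp only [fam, if_true]
        rw [hJ.isom]
        exact h
    refine ⟨Fin.snoc u v, ?_⟩
    rw [orthonormal_iff_ite]
    have hu' := orthonormal_iff_ite.1 hu
    have f1 : ∀ (b : Fin k) (β : Bool), fam J (Fin.snoc u v : Fin (k + 1) → V) (b.castSucc, β) =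
        fam J u (b, β) := by
      intro b β
      cases β <;> simp [fam]
    have f2 : fam J (Fin.snoc u v : Fin (k + 1) → V) (Fin.last k, false) = v := by simp [fam]
    have f3 : fam J (Fin.snoc u v : Fin (k + 1) → V) (Fin.last k, true) = J v := by simp [fam]
    have vv1 : inner ℝ v v = (1 : ℝ) := by
      rw [real_inner_self_eq_norm_sq, hv1]; norm_num
    rintro ⟨b, β⟩ ⟨c, γ⟩
    induction b using Fin.lastCases with
    | last =>
      induction c using Fin.lastCases with
      | last =>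
        cases β <;> cases γ
        · rw [f2]; simpa using vv1
        · rw [f2, f3, hJ.self]; simp
        · rw [f2, f3, real_inner_comm, hJ.self]; simp
        · rw [f3, hJ.isom]; simpa using vv1
      | cast c =>
        have hne : ((Fin.last k, β) : Fin (k + 1) × Bool) ≠ (c.castSucc, γ) := by
          intro h
          have := congrArg Prod.fst h
          exact absurd this (Fin.castSucc_lt_last c).ne'
        rw [if_neg hne, f1]
        cases β
        · rw [f2, real_inner_comm, hv]
        · rw [f3, real_inner_comm, hvJ]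
    | cast b =>
      induction c using Fin.lastCases with
      | last =>
        have hne : ((b.castSucc, β) : Fin (k + 1) × Bool) ≠ (Fin.last k, γ) := by
          intro h
          have := congrArg Prod.fst h
          exact absurd this (Fin.castSucc_lt_last b).ne
        rw [if_neg hne, f1]
        cases γ
        · rw [f2, hv]
        · rw [f3, hvJ]
      | cast c =>
        rw [f1, f1, hu']
        simp [Fin.castSucc_inj]

theorem exists_adapted [FiniteDimensional ℝ V] {J : V →ₗ[ℝ] V} (hJ : CxStr J)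
    (hd : Module.finrank ℝ V = 6) :
    ∃ e : OrthonormalBasis (Fin 3 × Bool) ℝ V, ∀ b, e (b, true) = J (e (b, false)) := by
  obtain ⟨u, hu⟩ := exists_fam hJ 3 (by omega)
  have hspan : ⊤ ≤ Submodule.span ℝ (Set.range (fam J u)) := by
    have h1 : LinearIndependent ℝ (fam J u) := hu.linearIndependent
    have h2 : Fintype.card (Fin 3 × Bool) = Module.finrank ℝ V := by
      rw [hd]
      simp
    exact (h1.span_eq_top_of_card_eq_finrank' h2).ge
  refine ⟨OrthonormalBasis.mk hu hspan, fun b => ?_⟩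
  rw [OrthonormalBasis.coe_mk]
  simp [fam]

/-! ### independence of the basis -/

theorem gbc_indep {k : ℕ} (e e' : OrthonormalBasis (Fin k × Bool) ℝ V)
    {R : V → V → V → V → ℝ} (hR : AlgCurv R) : gbc e R = gbc e' R := by
  classical
  have hg : gm (fun _ : Fin k => cp e' (negT R)) =
      (Matrix.of fun i j => e.repr (e' i) j).det ^ 2 * gm (fun _ : Fin k => cp e (negT R)) := by
    rw [← EE_full]
    unfold Pool.Agent.Y519.HB.EE gm
    refine sum_congr rfl fun σ _ => sum_congr rfl fun τ _ => ?_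
    congr 1
    refine prod_congr rfl fun b _ => ?_
    have h1 : ∀ q, e' q = ∑ j, e.repr (e' q) j • e j := fun q => (e.sum_repr (e' q)).symm
    have h2 := R_ev4 hR (fun j => e j) (fun j => e.repr (e' (σ (b, false))) j)
      (fun j => e.repr (e' (σ (b, true))) j) (fun j => e.repr (e' (τ (b, false))) j)
      (fun j => e.repr (e' (τ (b, true))) j)
    rw [← h1, ← h1, ← h1, ← h1] at h2
    simp only [cp, negT]
    rw [h2]
    unfold ev4
    rw [← sum_neg_distrib]
    refine sum_congr rfl fun p _ => ?_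
    have h3 : cp e (negT R) p.1.1 p.1.2 p.2.1 p.2.2 =
      - R (e p.1.1) (e p.1.2) (e p.2.1) (e p.2.2) := rfl
    rw [h3]
    ring
  have hdet : (Matrix.of fun i j => e.repr (e' i) j).det ^ 2 = 1 := by
    have h1 : (Matrix.of fun i j => e.repr (e' i) j) *
        (Matrix.of fun i j => e.repr (e' i) j).transpose = 1 := by
      ext i j
      rw [Matrix.mul_apply, Matrix.one_apply]
      simp only [Matrix.transpose_apply, Matrix.of_apply]
      have h2 := orthonormal_iff_ite.1 e'.orthonormal i j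
      rw [← h2, ← e.repr.inner_map_map]
      simp only [PiLp.inner_apply, RCLike.inner_apply, conj_trivial]
      exact sum_congr rfl fun x _ => by ring
    have h2 := congrArg Matrix.det h1
    rw [Matrix.det_mul, Matrix.det_transpose, Matrix.det_one] at h2
    rw [sq]
    exact h2
  have h1 := gbc_eq e R
  have h2 := gbc_eq e' R
  rw [hg, hdet, one_mul] at h2
  rw [← h1] at h2
  have h3 : ((-1 : ℝ) ^ k) ≠ 0 := pow_ne_zero _ (by norm_num)
  exact (mul_left_cancel₀ h3 h2).symm

/-- **Real dimension six, nonpositive bisectional curvature.** -/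
theorem six_nonpos (e : OrthonormalBasis (Fin 3 × Bool) ℝ V) {R : V → V → V → V → ℝ}
    (hR : AlgCurv R) {J : V →ₗ[ℝ] V} (hJ : CxStr J) (hK : KaeSym J R)
    (hb : ∀ x y, R x (J x) y (J y) ≤ 0) : gbc e R ≤ 0 := by
  have hfin : FiniteDimensional ℝ V := Module.Finite.of_basis e.toBasis
  have hd : Module.finrank ℝ V = 6 := by
    rw [Module.finrank_eq_card_basis e.toBasis]
    simp
  obtain ⟨e', he'⟩ := exists_adapted hJ hd
  rw [gbc_indep e e' hR]
  exact adapted_nonpos e' hR hJ.sq hK he' hb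

/-- **Real dimension six, negative bisectional curvature.** -/
theorem six_neg (e : OrthonormalBasis (Fin 3 × Bool) ℝ V) {R : V → V → V → V → ℝ}
    (hR : AlgCurv R) {J : V →ₗ[ℝ] V} (hJ : CxStr J) (hK : KaeSym J R)
    (hb : ∀ x y, x ≠ 0 → y ≠ 0 → R x (J x) y (J y) < 0) : gbc e R < 0 := by
  have hfin : FiniteDimensional ℝ V := Module.Finite.of_basis e.toBasis
  have hd : Module.finrank ℝ V = 6 := by
    rw [Module.finrank_eq_card_basis e.toBasis]
    simp
  obtain ⟨e', he'⟩ := exists_adapted hJ hd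
  rw [gbc_indep e e' hR]
  exact adapted_neg e' hR hJ.sq hK he' hb

/-- The bisectional curvature is a sum of two sectional curvatures. -/
theorem bisec_eq {R : V → V → V → V → ℝ} (hR : AlgCurv R) {J : V →ₗ[ℝ] V}
    (hJ : ∀ x, J (J x) = -x) (hK : KaeSym J R) (x y : V) :
    R x (J x) y (J y) = R x y x y + R x (J y) x (J y) := by
  have hb := hR.bianchi x (J x) y (J y)
  have h1 : R y x (J x) (J y) = - R x y x y := by
    rw [← hR.pair, hK, hR.pair, hR.anti]
  have h2 : R (J x) y x (J y) = - R x (J y) x (J y) := by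
    rw [← hK (J x) y, hJ, neg1 hR]
  rw [h1, h2] at hb
  linarith

end Pool.Agent.Helper33.KG
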