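import Pool.Agent.Helper33.KG5

/-!
# Kähler pieces in block sums
-/

set_option autoImplicit false

namespace Pool.Agent.Helper33.KG

open Finset Pool.Agent.W666.GB Pool.Agent.W669.HD Pool.Agent.Y519.HB

variable {V : Type} [NormedAddCommGroup V] [InnerProductSpace ℝ V]

/-- `W` carries an orthogonal complex structure such that the restriction of `S` to `W` has the
symmetry of the curvature tensors of Kähler manifolds. -/
def KaehlerOn (W : Submodule ℝ V) (S : V → V → V → V → ℝ) : Prop :=
  ∃ J : W →ₗ[ℝ] W, CxStr J ∧ KaeSym J (fun x y z w : W => S x y z w)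

/-- `W` has dimension at most five, or it has dimension six and `S` is a Kähler tensor on `W`. -/
def Piece (W : Submodule ℝ V) (S : V → V → V → V → ℝ) : Prop :=
  Module.finrank ℝ W ≤ 5 ∨ (Module.finrank ℝ W = 6 ∧ KaehlerOn W S)

/-- the Hopf sign on subspaces of dimension at most five -/
theorem small_hopf {S : V → V → V → V → ℝ} (hS : AlgCurv S) (hs : ∀ a b, S a b a b ≤ 0) {k : ℕ}
    (E : Submodule ℝ V) (ε : OrthonormalBasis (Fin k × Bool) ℝ E) (hk : 2 * k ≤ 5) :
    0 ≤ (-1) ^ k * gbc ε (fun x y z w : E => S x y z w) := by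
  have hfin : FiniteDimensional ℝ E := Module.Finite.of_basis ε.toBasis
  have hE : Module.finrank ℝ (⊤ : Submodule ℝ E) ≤ 5 := by
    rw [finrank_top, Module.finrank_eq_card_basis ε.toBasis]
    simp only [Fintype.card_prod, Fintype.card_fin, Fintype.card_bool]
    omega
  have h2 : TwoFive 0 (fun x y z w : E => S x y z w) := by
    refine twoFive_one (restrict_curv hS E) hE ?_ (fun x y => hs x y)
    intro a ha y z w
    rw [Submodule.top_orthogonal_eq_bot, Submodule.mem_bot] at ha
    rw [ha]
    have := hS.smul 0 0 (y : V) (z : V) (w : V)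
    simpa using this
  exact (roundGB_nonneg le_rfl).trans (two_five ε le_rfl h2)

/-- **A six-dimensional Kähler tensor of nonpositive sectional curvature has the Hopf sign on all
even-dimensional subspaces.** -/
theorem kaehler_hopf [FiniteDimensional ℝ V] {S : V → V → V → V → ℝ} (hS : AlgCurv S)
    (hs : ∀ a b, S a b a b ≤ 0) {W : Submodule ℝ V} (hd : Module.finrank ℝ W = 6)
    (hK : KaehlerOn W S) : HopfOn W S := by
  intro k E hE ε
  have hk : Module.finrank ℝ E = 2 * k := by
    rw [Module.finrank_eq_card_basis ε.toBasis]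
    simp only [Fintype.card_prod, Fintype.card_fin, Fintype.card_bool]
    omega
  rcases Nat.lt_or_ge 5 (2 * k) with h5 | h5
  · have h6 : Module.finrank ℝ E ≤ 6 := hd ▸ Submodule.finrank_mono hE
    have hk3 : k = 3 := by omega
    subst hk3
    have hEW : E = W := Submodule.eq_of_le_of_finrank_eq hE (by rw [hk, hd])
    subst hEW
    obtain ⟨J, hJ, hJK⟩ := hK
    have h := six_nonpos ε (restrict_curv hS E) hJ hJK (fun x y => by
      rw [bisec_eq (restrict_curv hS E) hJ.sq hJK]
      have h1 := hs (x : V) (y : V)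
      have h2 := hs (x : V) (J y : V)
      linarith)
    have h7 : ((-1 : ℝ) ^ 3) = -1 := by norm_num
    rw [h7]
    linarith
  · exact small_hopf hS hs E ε h5

/-- the Hopf sign on all subspaces of the space on which the tensor lives gives the Hopf sign on all
subspaces -/
theorem hopf_up {m : ℕ} (e : OrthonormalBasis (Fin m × Bool) ℝ V) {S : V → V → V → V → ℝ}
    (hS : AlgCurv S) {W : Submodule ℝ V} (hL : LivesOn W S) (hH : HopfOn W S)
    (U : Submodule ℝ V) : HopfOn U S := by
  intro k E _ ε
  have hher := her_of_hopf e hS hL hH (Fin k) (fun q j => e.repr (ε q : V) j)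
  rw [gbc_eq]
  have hπ := Real.pi_pos
  have hc : 0 < 1 / ((8 * Real.pi) ^ k * (k.factorial : ℝ)) := by positivity
  refine mul_nonneg hc.le ?_
  have heq : Pool.Agent.Y519.HB.EE (fun _ : Fin k => cp e (negT S))
      (fun q j => e.repr (ε q : V) j) =
      gm (fun _ : Fin k => cp ε (negT fun x y z w : E => S x y z w)) := by
    unfold Pool.Agent.Y519.HB.EE gm
    refine sum_congr rfl fun σ _ => sum_congr rfl fun τ _ => ?_
    congr 1
    refine prod_congr rfl fun b _ => ?_
    have h1 : ∀ q, (ε q : V) = ∑ j, e.repr (ε q : V) j • e j := fun q =>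
      (e.sum_repr (ε q : V)).symm
    have h2 := R_ev4 hS (fun j => e j) (fun j => e.repr (ε (σ (b, false)) : V) j)
      (fun j => e.repr (ε (σ (b, true)) : V) j) (fun j => e.repr (ε (τ (b, false)) : V) j)
      (fun j => e.repr (ε (τ (b, true)) : V) j)
    rw [← h1, ← h1, ← h1, ← h1] at h2
    have h4 : cp ε (negT fun x y z w : E => S x y z w) (σ (b, false)) (σ (b, true)) (τ (b, false))
      (τ (b, true)) = - S (ε (σ (b, false)) : V) (ε (σ (b, true)) : V) (ε (τ (b, false)) : V)
      (ε (τ (b, true)) : V) := rfl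
    beta_reduce
    rw [h4, h2]
    unfold ev4
    rw [← sum_neg_distrib]
    refine sum_congr rfl fun p _ => ?_
    have h3 : cp e (negT S) p.1.1 p.1.2 p.2.1 p.2.2 =
      - S (e p.1.1) (e p.1.2) (e p.2.1) (e p.2.2) := rfl
    rw [h3]
    ring
  rw [← heq]
  exact hher

theorem piece_hopf {m : ℕ} (e : OrthonormalBasis (Fin m × Bool) ℝ V) {S : V → V → V → V → ℝ}
    (hS : AlgCurv S) (hs : ∀ a b, S a b a b ≤ 0) {W : Submodule ℝ V} (hL : LivesOn W S)
    (hP : Piece W S) (U : Submodule ℝ V) : HopfOn U S := by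
  have hfin : FiniteDimensional ℝ V := Module.Finite.of_basis e.toBasis
  rcases hP with h | ⟨h, hK⟩
  · exact hopf_twoFive (twoFive_one hS h hL hs) U
  · exact hopf_up e hS hL (kaehler_hopf hS hs h hK) U

/-- The space is an orthogonal sum of blocks `U i` of any dimensions; `R` is the sum of curvature
tensors `S i` of nonpositive sectional curvature, `S i` living on a subspace `W i` of `U i` which has
dimension at most five, or has dimension six and carries an orthogonal complex structure for which
`S i` is a Kähler tensor; minus squares `(x ∧ y)²` with `x` in one block and `y` in one block; minus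
`δ` times the unit tensor. -/
def KBlocks (δ : ℝ) (R : V → V → V → V → ℝ) : Prop :=
  ∃ (r : ℕ) (U W : Fin r → Submodule ℝ V) (S : Fin r → V → V → V → V → ℝ) (n : ℕ)
    (x y : Fin n → V) (p q : Fin n → Fin r), OrthSum U ∧ (∀ i, W i ≤ U i) ∧
    (∀ i, Piece (W i) (S i)) ∧ (∀ i, AlgCurv (S i)) ∧ (∀ i, LivesOn (W i) (S i)) ∧
    (∀ i a b, S i a b a b ≤ 0) ∧ (∀ k, x k ∈ U (p k)) ∧ (∀ k, y k ∈ U (q k)) ∧
    ∀ a b c d, R a b c d = (∑ i, S i a b c d) - (∑ k, sqDec (x k) (y k) a b c d) -
      δ * unitT a b c d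

theorem kblocks_hopf {m : ℕ} (e : OrthonormalBasis (Fin m × Bool) ℝ V) {δ : ℝ}
    {R : V → V → V → V → ℝ} (h : KBlocks δ R) : HopfBlocks δ R := by
  obtain ⟨r, U, W, S, n, x, y, p, q, hO, hW, hP, hS, hL, hs, hx, hy, hR⟩ := h
  refine ⟨r, U, S, n, x, y, p, q, hO, hS, fun i z hz a b c => ?_, fun i => ?_, hx, hy, hR⟩
  · exact hL i z (Submodule.orthogonal_le (hW i) hz) a b c
  · exact piece_hopf e (hS i) (hs i) (hL i) (hP i) (U i)

/-- The tensors of multiply warped type with `R + δ · (unit tensor)` of nonpositive sectional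
curvature: a tensor on each block and one Kulkarni–Nomizu product `h ∧ k` for each pair of blocks.
Each block has dimension at most five, or it has dimension six and its own tensor is a Kähler
tensor for an orthogonal complex structure. -/
def KWarp (δ : ℝ) (R : V → V → V → V → ℝ) : Prop :=
  ∃ (r : ℕ) (U : Fin r → Submodule ℝ V) (S : Fin r → V → V → V → V → ℝ)
    (h k : Fin r → Fin r → V → V → ℝ), OrthSum U ∧ (∀ i, Piece (U i) (S i)) ∧
    (∀ i, AlgCurv (S i)) ∧ (∀ i, LivesOn (U i) (S i)) ∧
    (∀ i j, SymForm (U i) (h i j)) ∧ (∀ i j, SymForm (U j) (k i j)) ∧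
    (∀ a b c d, R a b c d + δ * unitT a b c d = (∑ i, S i a b c d) +
      ∑ i, ∑ j, if i < j then kn (h i j) (k i j) a b c d else 0) ∧
    ∀ a b, R a b a b + δ * unitT a b a b ≤ 0

theorem kwarp_warp {m : ℕ} (e : OrthonormalBasis (Fin m × Bool) ℝ V) {δ : ℝ}
    {R : V → V → V → V → ℝ} (h : KWarp δ R) : WarpType δ R := by
  have hfin : FiniteDimensional ℝ V := Module.Finite.of_basis e.toBasis
  obtain ⟨r, U, S, h, k, hO, hP, hS, hL, hh, hk, hR, hK⟩ := h
  refine ⟨r, U, S, h, k, hO, fun i => ?_, hS, hL, hh, hk, hR, hK⟩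
  rcases hP i with h5 | h6
  · exact Or.inl h5
  refine Or.inr (piece_hopf e (hS i) ?_ (hL i) (Or.inr h6) (U i))
  have perp : ∀ i j, i ≠ j → ∀ x ∈ U i, x ∈ (U j)ᗮ := by
    intro i j hij x hx
    rw [Submodule.mem_orthogonal]
    intro u hu
    exact hO.1 j i (Ne.symm hij) u hu x hx
  -- the sectional values of the tensor of the block
  have hin : ∀ a ∈ U i, ∀ b ∈ U i, S i a b a b ≤ 0 := by
    intro a ha b hb
    have h1 := hR a b a b
    have h2 : ∑ j, S j a b a b = S i a b a b := by
      refine Finset.sum_eq_single i (fun j _ hj => ?_) (fun h0 => absurd (mem_univ i) h0)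
      exact hL j a (perp i j (Ne.symm hj) a ha) b a b
    have h3 : ∑ l, ∑ j, (if l < j then kn (h l j) (k l j) a b a b else 0) = 0 := by
      refine Finset.sum_eq_zero fun l _ => Finset.sum_eq_zero fun j _ => ?_
      split_ifs with hlj
      · by_cases hli : i = l
        · have hji : i ≠ j := fun h0 => by
            rw [← hli, ← h0] at hlj
            exact lt_irrefl _ hlj
          have e1 : ∀ y, k l j a y = 0 := fun y => (hk l j).lives a (perp i j hji a ha) y
          have e2 : ∀ y, k l j b y = 0 := fun y => (hk l j).lives b (perp i j hji b hb) y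
          unfold kn
          rw [e1, e2, e2, e1]
          ring
        · have e1 : ∀ y, h l j a y = 0 := fun y => (hh l j).lives a (perp i l hli a ha) y
          have e2 : ∀ y, h l j b y = 0 := fun y => (hh l j).lives b (perp i l hli b hb) y
          unfold kn
          rw [e1, e2, e1, e2]
          ring
      · rfl
    rw [h2, h3, add_zero] at h1
    rw [← h1]
    exact hK a b
  intro a b
  have h1 := lives_eq (hS i) (hL i)
    ((U i).sub_starProjection_mem_orthogonal a) ((U i).sub_starProjection_mem_orthogonal b)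
    ((U i).sub_starProjection_mem_orthogonal a) ((U i).sub_starProjection_mem_orthogonal b)
  rw [h1]
  exact hin _ ((U i).starProjection_apply_mem a) _ ((U i).starProjection_apply_mem b)

/-- **The bound for both classes.** -/
theorem kcls_bound {m : ℕ} (e : OrthonormalBasis (Fin m × Bool) ℝ V) {δ : ℝ} (hδ : 0 ≤ δ)
    {R : V → V → V → V → ℝ} (h : KBlocks δ R ∨ KWarp δ R) :
    roundGB m δ ≤ (-1) ^ m * gbc e R := by
  rcases h with h | h
  · exact cls_bound e hδ (Or.inl (kblocks_hopf e h))
  · exact cls_bound e hδ (Or.inr (Or.inr (kwarp_warp e h)))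

end Pool.Agent.Helper33.KG
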