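import Pool.Agent.Helper33.KG6

/-!
# The positive case
-/

set_option autoImplicit false

namespace Pool.Agent.Helper33.KG

open Finset Pool.Agent.W666.GB Pool.Agent.W669.HD Pool.Agent.Y519.HB

variable {V : Type} [NormedAddCommGroup V] [InnerProductSpace ℝ V]

theorem neg_curv {R : V → V → V → V → ℝ} (hR : AlgCurv R) : AlgCurv (negT R) where
  add x x' y z w := by simp only [negT, hR.add]; ring
  smul t x y z w := by simp only [negT, hR.smul]; ring
  anti x y z w := by simp only [negT]; rw [hR.anti]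
  pair x y z w := by simp only [negT]; rw [hR.pair]
  bianchi x y z w := by
    have h1 := hR.bianchi x y z w
    simp only [negT]
    linarith

theorem neg_lives {R : V → V → V → V → ℝ} {W : Submodule ℝ V} (h : LivesOn W R) :
    LivesOn W (negT R) := fun x hx y z w => by
  simp only [negT, h x hx y z w, neg_zero]

/-- the integrand of the negative tensor -/
theorem gbc_neg {m : ℕ} (e : OrthonormalBasis (Fin m × Bool) ℝ V) (R : V → V → V → V → ℝ) :
    (-1) ^ m * gbc e (negT R) = gbc e R := by
  unfold gbc negT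
  have h : ∀ σ τ : Equiv.Perm (Fin m × Bool),
      ∏ b : Fin m, -R (e (σ (b, false))) (e (σ (b, true))) (e (τ (b, false))) (e (τ (b, true))) =
      (-1) ^ m * ∏ b : Fin m,
        R (e (σ (b, false))) (e (σ (b, true))) (e (τ (b, false))) (e (τ (b, true))) := by
    intro σ τ
    rw [Finset.prod_neg, Finset.card_univ, Fintype.card_fin]
  simp only [h]
  have h2 : ∀ σ τ : Equiv.Perm (Fin m × Bool), ((Equiv.Perm.sign σ : ℤ) : ℝ) *
      ((Equiv.Perm.sign τ : ℤ) : ℝ) * ((-1) ^ m * ∏ b : Fin m,
        R (e (σ (b, false))) (e (σ (b, true))) (e (τ (b, false))) (e (τ (b, true)))) =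
      (-1) ^ m * (((Equiv.Perm.sign σ : ℤ) : ℝ) * ((Equiv.Perm.sign τ : ℤ) : ℝ) * ∏ b : Fin m,
        R (e (σ (b, false))) (e (σ (b, true))) (e (τ (b, false))) (e (τ (b, true)))) := by
    intro σ τ
    ring
  simp only [h2, ← mul_sum]
  have h3 : ((-1 : ℝ) ^ m) * (-1) ^ m = 1 := by
    rw [← mul_pow]
    norm_num
  rw [mul_left_comm, ← mul_assoc ((-1 : ℝ) ^ m), h3, one_mul]

/-- Admissible tensor of the block `U`: a curvature tensor which is a sum of two curvature tensors of
nonnegative sectional curvature living on subspaces of `U` of dimension at most five, or a curvature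
tensor of nonnegative sectional curvature living on a six-dimensional subspace of `U` which has an
orthogonal complex structure for which it is a Kähler tensor. -/
def GoodOn (U : Submodule ℝ V) (T : V → V → V → V → ℝ) : Prop :=
  (∃ (W W' : Submodule ℝ V) (P Q : V → V → V → V → ℝ), W ≤ U ∧ W' ≤ U ∧
    Module.finrank ℝ W ≤ 5 ∧ Module.finrank ℝ W' ≤ 5 ∧ AlgCurv P ∧ AlgCurv Q ∧
    LivesOn W P ∧ LivesOn W' Q ∧ (∀ a b, 0 ≤ P a b a b) ∧ (∀ a b, 0 ≤ Q a b a b) ∧
    T = addT P Q) ∨
  (∃ W : Submodule ℝ V, W ≤ U ∧ Module.finrank ℝ W = 6 ∧ AlgCurv T ∧ LivesOn W T ∧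
    KaehlerOn W T ∧ ∀ a b, 0 ≤ T a b a b)

theorem good_curv {U : Submodule ℝ V} {T : V → V → V → V → ℝ} (h : GoodOn U T) : AlgCurv T := by
  rcases h with ⟨W, W', P, Q, _, _, _, _, hP, hQ, _, _, _, _, rfl⟩ | ⟨W, _, _, hT, _⟩
  · exact add_curv hP hQ
  · exact hT

theorem good_lives {U : Submodule ℝ V} {T : V → V → V → V → ℝ} (h : GoodOn U T) :
    LivesOn U T := by
  rcases h with ⟨W, W', P, Q, hW, hW', _, _, _, _, lP, lQ, _, _, rfl⟩ | ⟨W, hW, _, _, hL, _⟩
  · intro z hz a b c
    simp only [addT]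
    rw [lP z (Submodule.orthogonal_le hW hz), lQ z (Submodule.orthogonal_le hW' hz), add_zero]
  · exact fun z hz a b c => hL z (Submodule.orthogonal_le hW hz) a b c

theorem kaehler_neg {W : Submodule ℝ V} {T : V → V → V → V → ℝ} (h : KaehlerOn W T) :
    KaehlerOn W (negT T) := by
  obtain ⟨J, hJ, hK⟩ := h
  refine ⟨J, hJ, fun x y z w => ?_⟩
  have := hK x y z w
  simp only [negT]
  rw [neg_inj]
  exact this

theorem good_hopf {m : ℕ} (e : OrthonormalBasis (Fin m × Bool) ℝ V) {U : Submodule ℝ V}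
    {T : V → V → V → V → ℝ} (h : GoodOn U T) : HopfOn U (negT T) := by
  have hfin : FiniteDimensional ℝ V := Module.Finite.of_basis e.toBasis
  rcases h with ⟨W, W', P, Q, hW, hW', dW, dW', hP, hQ, lP, lQ, sP, sQ, rfl⟩ |
    ⟨W, hW, hd, hT, hL, hK, hs⟩
  · refine hopf_twoFive ⟨W, W', negT P, negT Q, 0, Fin.elim0, Fin.elim0, dW, dW', neg_curv hP,
      neg_curv hQ, neg_lives lP, neg_lives lQ, fun u v => by simpa [negT] using sP u v,
      fun u v => by simpa [negT] using sQ u v, fun a b c d => ?_⟩ U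
    simp only [negT, addT, Finset.univ_eq_empty, Finset.sum_empty, zero_mul]
    ring
  · have hs' : ∀ a b, negT T a b a b ≤ 0 := fun a b => by simpa [negT] using hs a b
    exact hopf_up e (neg_curv hT) (neg_lives hL)
      (kaehler_hopf (neg_curv hT) hs' hd (kaehler_neg hK)) U

/-- The space is an orthogonal sum of blocks of any dimensions; `R` is the sum of admissible tensors
of the blocks, squares `(x ∧ y)²` with `x` in one block and `y` in one block, and `δ` times the unit
tensor. -/
def PBlocks (δ : ℝ) (R : V → V → V → V → ℝ) : Prop :=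
  ∃ (r : ℕ) (U : Fin r → Submodule ℝ V) (T : Fin r → V → V → V → V → ℝ) (n : ℕ)
    (x y : Fin n → V) (p q : Fin n → Fin r), OrthSum U ∧ (∀ i, GoodOn (U i) (T i)) ∧
    (∀ k, x k ∈ U (p k)) ∧ (∀ k, y k ∈ U (q k)) ∧
    ∀ a b c d, R a b c d = (∑ i, T i a b c d) + (∑ k, sqDec (x k) (y k) a b c d) +
      δ * unitT a b c d

/-- The tensors of multiply warped type with sectional curvatures at least `δ`: a tensor on each block
and one Kulkarni–Nomizu product `h ∧ k` for each pair of blocks; each block has dimension at most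
five, or it has dimension six and its own tensor is a Kähler tensor for an orthogonal complex
structure. -/
def PWarp (δ : ℝ) (R : V → V → V → V → ℝ) : Prop :=
  ∃ (r : ℕ) (U : Fin r → Submodule ℝ V) (S : Fin r → V → V → V → V → ℝ)
    (h k : Fin r → Fin r → V → V → ℝ), OrthSum U ∧ (∀ i, Piece (U i) (S i)) ∧
    (∀ i, AlgCurv (S i)) ∧ (∀ i, LivesOn (U i) (S i)) ∧
    (∀ i j, SymForm (U i) (h i j)) ∧ (∀ i j, SymForm (U j) (k i j)) ∧
    (∀ a b c d, R a b c d - δ * unitT a b c d = (∑ i, S i a b c d) +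
      ∑ i, ∑ j, if i < j then kn (h i j) (k i j) a b c d else 0) ∧
    ∀ a b, 0 ≤ R a b a b - δ * unitT a b a b

theorem pblocks_hopf {m : ℕ} (e : OrthonormalBasis (Fin m × Bool) ℝ V) {δ : ℝ}
    {R : V → V → V → V → ℝ} (h : PBlocks δ R) : HopfBlocks δ (negT R) := by
  obtain ⟨r, U, T, n, x, y, p, q, hO, hT, hx, hy, hR⟩ := h
  refine ⟨r, U, fun i => negT (T i), n, x, y, p, q, hO, fun i => neg_curv (good_curv (hT i)),
    fun i => neg_lives (good_lives (hT i)), fun i => good_hopf e (hT i), hx, hy, ?_⟩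
  intro a b c d
  simp only [negT, sum_neg_distrib]
  rw [hR]
  ring

theorem symForm_neg {U : Submodule ℝ V} {h : V → V → ℝ} (hh : SymForm U h) :
    SymForm U (fun x y => - h x y) where
  add x x' y := by rw [hh.add]; ring
  smul t x y := by rw [hh.smul]; ring
  symm x y := by rw [hh.symm]
  lives x hx y := by rw [hh.lives x hx, neg_zero]

theorem pwarp_kwarp {δ : ℝ} {R : V → V → V → V → ℝ} (h : PWarp δ R) : KWarp δ (negT R) := by
  obtain ⟨r, U, S, h, k, hO, hP, hS, hL, hh, hk, hR, hK⟩ := h
  refine ⟨r, U, fun i => negT (S i), fun i j x y => - h i j x y, k, hO, fun i => ?_,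
    fun i => neg_curv (hS i), fun i => neg_lives (hL i), fun i j => symForm_neg (hh i j), hk, ?_, ?_⟩
  · rcases hP i with h5 | ⟨h6, hKae⟩
    · exact Or.inl h5
    · exact Or.inr ⟨h6, kaehler_neg hKae⟩
  · intro a b c d
    have h1 := hR a b c d
    have h2 : ∀ i j, (if i < j then kn (fun x y => - h i j x y) (k i j) a b c d else 0) =
        -(if i < j then kn (h i j) (k i j) a b c d else 0) := by
      intro i j
      split_ifs
      · unfold kn
        ring
      · simp
    simp only [h2, negT, sum_neg_distrib]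
    linarith
  · intro a b
    have h1 := hK a b
    simp only [negT]
    linarith

/-- **The bound for both classes, positive case.** -/
theorem pcls_bound {m : ℕ} (e : OrthonormalBasis (Fin m × Bool) ℝ V) {δ : ℝ} (hδ : 0 ≤ δ)
    {R : V → V → V → V → ℝ} (h : PBlocks δ R ∨ PWarp δ R) : roundGB m δ ≤ gbc e R := by
  rw [← gbc_neg]
  rcases h with h | h
  · exact cls_bound e hδ (Or.inl (pblocks_hopf e h))
  · exact cls_bound e hδ (Or.inr (Or.inr (kwarp_warp e (pwarp_kwarp h))))

/-- Superadditivity, positive case. -/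
theorem pos_super {m : ℕ} (hm : 0 < m) (e : OrthonormalBasis (Fin m × Bool) ℝ V) {δ : ℝ}
    (hδ : 0 ≤ δ) {n : ℕ} {x y : Fin n → V} {S T : V → V → V → V → ℝ} (hS : AlgCurv S)
    (hH : ∀ k < m, ∀ (E : Submodule ℝ V) (e : OrthonormalBasis (Fin k × Bool) ℝ E),
      0 ≤ gbc e (fun x y z w : E => S x y z w))
    (hT : ∀ a b c d, T a b c d = (∑ k, sqDec (x k) (y k) a b c d) + δ * unitT a b c d) :
    gbc e S + gbc e T ≤ gbc e (addT S T) ∧ roundGB m δ ≤ gbc e T := by
  have h := mono_super hm e hδ (neg_curv hS) (fun k hk E ε => by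
      have h1 := hH k hk E ε
      rw [← gbc_neg] at h1
      exact h1) (T := negT T) (x := x) (y := y) (fun a b c d => by
      simp only [negT]
      rw [hT]
      ring)
  have h2 : addT (negT S) (negT T) = negT (addT S T) := by
    funext a b c d
    simp only [addT, negT]
    ring
  rw [h2, gbc_neg, gbc_neg, gbc_neg] at h
  exact h

/-- Superadditivity in dimension six, positive case. -/
theorem pos_six_super (e : OrthonormalBasis (Fin 3 × Bool) ℝ V) {δ : ℝ}
    (hδ : 0 ≤ δ) {n : ℕ} {x y : Fin n → V} {S T : V → V → V → V → ℝ} (hS : AlgCurv S)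
    (hs : ∀ a b, 0 ≤ S a b a b)
    (hT : ∀ a b c d, T a b c d = (∑ k, sqDec (x k) (y k) a b c d) + δ * unitT a b c d) :
    gbc e S + gbc e T ≤ gbc e (addT S T) ∧ roundGB 3 δ ≤ gbc e T := by
  have h := six_super e hδ (neg_curv hS) (fun a b => by simpa [negT] using hs a b)
    (T := negT T) (x := x) (y := y) (fun a b c d => by
      simp only [negT]
      rw [hT]
      ring)
  have h2 : addT (negT S) (negT T) = negT (addT S T) := by
    funext a b c d
    simp only [addT, negT]
    ring
  have h3 : ∀ R : V → V → V → V → ℝ, - gbc e (negT R) = gbc e R := by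
    intro R
    have := gbc_neg e R
    rw [← this]
    norm_num
  rw [h2] at h
  obtain ⟨h4, h5⟩ := h
  have a1 := h3 S
  have a2 := h3 T
  have a3 := h3 (addT S T)
  constructor
  · linarith
  · linarith

/-- **Real dimension six, nonnegative (positive) bisectional curvature.** -/
theorem six_pos (e : OrthonormalBasis (Fin 3 × Bool) ℝ V) {R : V → V → V → V → ℝ}
    (hR : AlgCurv R) {J : V →ₗ[ℝ] V} (hJ : CxStr J) (hK : KaeSym J R) :
    ((∀ x y, 0 ≤ R x (J x) y (J y)) → 0 ≤ gbc e R) ∧
    ((∀ x y, x ≠ 0 → y ≠ 0 → 0 < R x (J x) y (J y)) → 0 < gbc e R) := by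
  have h3 : - gbc e (negT R) = gbc e R := by
    have := gbc_neg e R
    rw [← this]
    norm_num
  have hK' : KaeSym J (negT R) := fun x y z w => by
    simp only [negT]
    rw [hK]
  constructor
  · intro hb
    have h := six_nonpos e (neg_curv hR) hJ hK' (fun x y => by simpa [negT] using hb x y)
    linarith
  · intro hb
    have h := six_neg e (neg_curv hR) hJ hK' (fun x y hx hy => by simpa [negT] using hb x y hx hy)
    linarith

end Pool.Agent.Helper33.KG
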