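import Pool.Agent.Y132.SI.Free

/-!
# Betti numbers of subgroups of right-angled Coxeter groups and vertices with bad links

`B` is a set of vertices of a finite graph `G` such that the links of all the other vertices belong to a
class for which the `ℓ²`-homology vanishes above the middle.  The Betti numbers above the middle of all
far enough subgroups of finite index of the right-angled Coxeter group are then bounded by the number of
the cliques contained in `B`.
-/

set_option autoImplicit false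

namespace Pool.Agent.Helper33.NS

open Module Pool.Agent.W907.SG Pool.Agent.W907.SM Pool.Agent.W461.SGN Pool.Agent.W397.SG
  Pool.Agent.TH652.Above Pool.Agent.Y132.SI

open Classical in
/-- The number of the cliques of `G` with `i` elements which are contained in `B`. -/
noncomputable def cliqueNum {V : Type} [Fintype V] (G : SimpleGraph V) (B : Set V) (i : ℕ) : ℕ :=
  (Finset.univ.filter fun T : Finset V =>
    G.IsClique (T : Set V) ∧ (T : Set V) ⊆ B ∧ T.card = i).card

open Classical in
/-- the chains over a set of vertices as a product -/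
theorem KK_dimA {V X F : Type} [Field F] [Fintype V] [Fintype X] [LinearOrder V] (G : SimpleGraph V)
    (a : V → X → X) (A : Set V) (i : ℕ) : finrank F (KK G (pull F a) A ∅ i) =
      ∑ T : Finset V, if G.IsClique (T : Set V) ∧ (T : Set V) ⊆ A ∧ T.card = i then
        finrank F (ET F a T) else 0 := by
  obtain ⟨p, hp⟩ : ∃ p : Finset V → Submodule F (X → F), p = fun T : Finset V =>
    if G.IsClique (T : Set V) ∧ (T : Set V) ⊆ A ∧ T.card = i then ET F a T else ⊥ := ⟨_, rfl⟩
  have hmem : ∀ c : Finset V → (X → F), c ∈ KK G (pull F a) A ∅ i ↔ ∀ T, c T ∈ p T := by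
    intro c
    rw [mem_KK]
    constructor
    · rintro ⟨h1, h2⟩ T
      rw [hp]
      simp only []
      split_ifs with h
      · intro t ht x
        have := h2 T t (Or.inl ht)
        exact congrFun this x
      · rw [Submodule.mem_bot]
        exact h1 T h
    · intro h
      refine ⟨fun T hT => ?_, fun T t ht => ?_⟩
      · have h3 := h T
        rw [hp] at h3
        simp only [] at h3
        rw [if_neg hT] at h3
        exact h3
      · have h3 := h T
        rw [hp] at h3
        simp only [] at h3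
        have ht' : t ∈ T := by
          rcases ht with ht | ht
          · exact ht
          · exact absurd ht (Set.notMem_empty t)
        split_ifs at h3 with h4
        · funext x
          exact h3 t ht' x
        · have h5 : c T = 0 := h3
          rw [h5, map_zero, neg_zero]
  have e : KK G (pull F a) A ∅ i ≃ₗ[F] (∀ T : Finset V, p T) :=
    { toFun := fun c T => ⟨c.1 T, (hmem c.1).1 c.2 T⟩
      map_add' := fun _ _ => rfl
      map_smul' := fun _ _ => rfl
      invFun := fun g => ⟨fun T => (g T).1, (hmem _).2 fun T => (g T).2⟩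
      left_inv := fun _ => rfl
      right_inv := fun _ => rfl }
  rw [e.finrank_eq, Module.finrank_pi_fintype]
  refine Finset.sum_congr rfl fun T _ => ?_
  by_cases h : G.IsClique (T : Set V) ∧ (T : Set V) ⊆ A ∧ T.card = i
  · have h1 : p T = ET F a T := by rw [hp]; exact if_pos h
    rw [h1, if_pos h]
  · have h1 : p T = ⊥ := by rw [hp]; exact if_neg h
    rw [h1, if_neg h, finrank_bot]

/-- the trivial bound -/
theorem beta_le_cliques {V X : Type} [Fintype V] [Fintype X] [LinearOrder V] (G : SimpleGraph V)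
    (a : V → X → X) (hinv : ∀ v x, a v (a v x) = x)
    (hcomm : ∀ u v, G.Adj u v → ∀ x, a u (a v x) = a v (a u x))
    (hσ : ∀ (T : Finset V) (t : V), t ∉ T → G.IsClique ((insert t T : Finset V) : Set V) →
      ∃ σ : X → Bool, (∀ x, σ (a t x) = !(σ x)) ∧ ∀ u ∈ T, ∀ x, σ (a u x) = σ x)
    (A : Set V) (i : ℕ) :
    2 ^ i * beta G (pull ℝ a) A ∅ i ≤ cliqueNum G A i * Fintype.card X := by
  classical
  have h1 : beta G (pull ℝ a) A ∅ i ≤ finrank ℝ (KK G (pull ℝ a) A ∅ i) := by
    unfold beta
    refine (Nat.sub_le _ _).trans ?_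
    exact Submodule.finrank_mono inf_le_left
  refine (Nat.mul_le_mul_left _ h1).trans ?_
  rw [KK_dimA, Finset.mul_sum, cliqueNum, Finset.card_eq_sum_ones, Finset.sum_mul,
    Finset.sum_filter]
  refine Finset.sum_le_sum fun T _ => ?_
  by_cases h : G.IsClique (T : Set V) ∧ (T : Set V) ⊆ A ∧ T.card = i
  · rw [if_pos h, if_pos (by convert h)]
    have h3 := ET_dim' (two_ne_zero : (2 : ℝ) ≠ 0) G a hinv hcomm hσ T h.1
    rw [h.2.2] at h3
    rw [mul_comm, h3, one_mul]
  · rw [if_neg h, mul_zero]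
    exact Nat.zero_le _

/-- the Betti numbers of the subcomplex spanned by `B` dominate, up to a small error, the Betti numbers
of the whole complex in the degrees above the middle of the links of the other vertices -/
theorem beta_le_bad {V : Type} [Fintype V] [LinearOrder V] (G : SimpleGraph V) (B : Set V) (k : ℕ)
    (hB : ∀ v, v ∉ B → AQ k (G.induce (G.neighborSet v))) (i : ℕ) (hi : k < 2 * i)
    (D : Finset V) (hD : ∀ v ∈ D, v ∉ B) :
    ∀ N : ℕ, ∃ E : Finset (W G), (1 : W G) ∉ E ∧ ∀ (X : Type) [Fintype X] (a : V → X → X)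
      (ev : X → W G → X), (∀ v x, a v (a v x) = x) →
      (∀ u v, G.Adj u v → ∀ x, a u (a v x) = a v (a u x)) →
      (∀ x, ev x 1 = x) → (∀ x g h, ev x (g * h) = ev (ev x g) h) →
      (∀ x v, ev x ((cox G).simple v) = a v x) →
      (∀ g ∈ E, ∀ x, ev x g ≠ x) →
      N * beta G (pull ℝ a) (B ∪ (D : Set V)) ∅ (i + 1) ≤
        N * beta G (pull ℝ a) B ∅ (i + 1) + Fintype.card X := by
  classical
  induction D using Finset.induction_on with
  | empty =>
    intro N
    refine ⟨∅, Finset.notMem_empty _, fun X _ a ev _ _ _ _ _ _ => ?_⟩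
    rw [Finset.coe_empty, Set.union_empty]
    omega
  | insert v D hv ih =>
    intro N
    have hvB : v ∉ B := hD v (Finset.mem_insert_self _ _)
    obtain ⟨E1, hE1, h1⟩ := ih (fun u hu => hD u (Finset.mem_insert_of_mem hu)) (2 * N)
    have hL : LV (G.induce ((B ∪ (D : Set V)) ∩ G.neighborSet v)) i := by
      have h2 := (Q_of_AQ (hB v hvB)).2 {x | x.1 ∈ B ∪ (D : Set V)} i hi
      rw [lv_sub] at h2
      refine lv_set ?_ h2
      ext x
      simp only [Set.mem_inter_iff, Set.mem_image, Subtype.exists, exists_and_right,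
        exists_eq_right]
      constructor
      · rintro ⟨h3, h4⟩
        exact ⟨h4, h3⟩
      · rintro ⟨h3, h4⟩
        exact ⟨h4, h3⟩
    obtain ⟨E2, hE2, h2⟩ := Pool.Agent.W338.SG.small_restrict small tr G
      ((B ∪ (D : Set V)) ∩ G.neighborSet v) i (hL _ _) (2 * N)
    refine ⟨E1 ∪ E2, ?_, fun X _ a ev k1 k2 k3 k4 k5 k6 => ?_⟩
    · rw [Finset.mem_union]
      exact fun h => h.elim hE1 hE2
    have c1 := h1 X a ev k1 k2 k3 k4 k5 (fun g hg => k6 g (Finset.mem_union_left _ hg))
    have c2 := h2 X a ev k1 k2 k3 k4 k5 (fun g hg => k6 g (Finset.mem_union_right _ hg))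
    have hvA : v ∉ B ∪ (D : Set V) := by
      rintro (h | h)
      · exact hvB h
      · exact hv h
    have b1 := (vert V ℝ (X → ℝ) G (pull ℝ a) (B ∪ (D : Set V)) ∅ v hvA (by simp)).2 i
    have b2 := eig V ℝ (X → ℝ) G (pull ℝ a) ((B ∪ (D : Set V)) ∩ G.neighborSet v) ∅ v
      (by norm_num) (fun m => by
        funext x
        rw [pull_apply, pull_apply, k1])
      (fun u hu m => by
        have hu' : G.Adj u v := by
          rcases hu with hu | hu
          · exact ((G.mem_neighborSet v u).1 hu.2).symm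
          · exact absurd hu (by simp)
        funext x
        rw [pull_apply, pull_apply, pull_apply, pull_apply, k2 u v hu']) i
    have hset : B ∪ ((insert v D : Finset V) : Set V) = insert v (B ∪ (D : Set V)) := by
      rw [Finset.coe_insert, Set.union_insert]
    rw [hset]
    have b3 := Nat.mul_le_mul_left (2 * N) (b1.trans (Nat.add_le_add_left b2 _))
    rw [Nat.mul_add] at b3
    have b4 : 2 * N * beta G (pull ℝ a) (insert v (B ∪ (D : Set V))) ∅ (i + 1) =
        2 * (N * beta G (pull ℝ a) (insert v (B ∪ (D : Set V))) ∅ (i + 1)) := by ring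
    have b5 : 2 * N * beta G (pull ℝ a) B ∅ (i + 1) =
        2 * (N * beta G (pull ℝ a) B ∅ (i + 1)) := by ring
    omega

/-- the bound by the number of cliques of bad vertices, for finite sets -/
theorem beta_le_num {V : Type} [Fintype V] [LinearOrder V] (G : SimpleGraph V) (B : Set V) (k : ℕ)
    (hB : ∀ v, v ∉ B → AQ k (G.induce (G.neighborSet v))) (i : ℕ) (hi : k + 2 < 2 * i) (N : ℕ) :
    ∃ E : Finset (W G), (1 : W G) ∉ E ∧ ∀ (X : Type) [Fintype X] (a : V → X → X)
      (ev : X → W G → X), (∀ v x, a v (a v x) = x) →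
      (∀ u v, G.Adj u v → ∀ x, a u (a v x) = a v (a u x)) →
      (∀ x, ev x 1 = x) → (∀ x g h, ev x (g * h) = ev (ev x g) h) →
      (∀ x v, ev x ((cox G).simple v) = a v x) →
      (∀ g ∈ E, ∀ x, ev x g ≠ x) →
      2 ^ i * N * beta G (pull ℝ a) Set.univ ∅ i ≤
        N * (cliqueNum G B i * Fintype.card X) + 2 ^ i * Fintype.card X := by
  classical
  obtain ⟨j, rfl⟩ : ∃ j, i = j + 1 := ⟨i - 1, by omega⟩
  obtain ⟨E1, hE1, h1⟩ := beta_le_bad G B k hB j (by omega) (Finset.univ.filter fun v => v ∉ B)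
    (by simp) N
  obtain ⟨E0, hE01, hE02⟩ := exists_tor G
  refine ⟨E1 ∪ E0, ?_, fun X _ a ev k1 k2 k3 k4 k5 k6 => ?_⟩
  · rw [Finset.mem_union]
    exact fun h => h.elim hE1 hE01
  have c1 := h1 X a ev k1 k2 k3 k4 k5 (fun g hg => k6 g (Finset.mem_union_left _ hg))
  have hu : B ∪ ((Finset.univ.filter fun v => v ∉ B : Finset V) : Set V) = Set.univ := by
    ext v
    simp only [Finset.coe_filter, Finset.mem_univ, true_and, Set.mem_union, Set.mem_ofPred_eq,
      Set.mem_univ, iff_true]
    exact em _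
  rw [hu] at c1
  have c2 := beta_le_cliques G a k1 k2 (fun T t ht hc => exists_sigma G a ev k3 k4 k5
    (fun T hT g hg hg1 x => k6 g (Finset.mem_union_right _ (hE02 T hT g hg hg1)) x) T t ht hc)
    B (j + 1)
  calc 2 ^ (j + 1) * N * beta G (pull ℝ a) Set.univ ∅ (j + 1)
      = 2 ^ (j + 1) * (N * beta G (pull ℝ a) Set.univ ∅ (j + 1)) := by ring
    _ ≤ 2 ^ (j + 1) * (N * beta G (pull ℝ a) B ∅ (j + 1) + Fintype.card X) :=
        Nat.mul_le_mul_left _ c1
    _ = N * (2 ^ (j + 1) * beta G (pull ℝ a) B ∅ (j + 1)) + 2 ^ (j + 1) * Fintype.card X := by ring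
    _ ≤ _ := Nat.add_le_add_right (Nat.mul_le_mul_left _ c2) _

/-- the same with real numbers, all degrees together -/
theorem beta_le_eps {V : Type} [Fintype V] [LinearOrder V] (G : SimpleGraph V) (B : Set V) (k : ℕ)
    (hB : ∀ v, v ∉ B → AQ k (G.induce (G.neighborSet v))) (ε : ℝ) (hε : 0 < ε) :
    ∃ E : Finset (W G), (1 : W G) ∉ E ∧ ∀ (X : Type) [Fintype X] (a : V → X → X)
      (ev : X → W G → X), (∀ v x, a v (a v x) = x) →
      (∀ u v, G.Adj u v → ∀ x, a u (a v x) = a v (a u x)) →
      (∀ x, ev x 1 = x) → (∀ x g h, ev x (g * h) = ev (ev x g) h) →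
      (∀ x v, ev x ((cox G).simple v) = a v x) →
      (∀ g ∈ E, ∀ x, ev x g ≠ x) → ∀ i : ℕ, k + 2 < 2 * i →
      (beta G (pull ℝ a) Set.univ ∅ i : ℝ) ≤
        ((cliqueNum G B i : ℝ) / 2 ^ i + ε) * Fintype.card X := by
  classical
  obtain ⟨N, hN⟩ := exists_nat_gt (1 / ε)
  have hN0 : (0 : ℝ) < N := lt_of_le_of_lt (by positivity) hN
  have hNε : 1 < N * ε := (div_lt_iff₀ hε).1 hN
  have h1 : ∀ i : ℕ, ∃ E : Finset (W G), (1 : W G) ∉ E ∧ (k + 2 < 2 * i →
      ∀ (X : Type) [Fintype X] (a : V → X → X)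
      (ev : X → W G → X), (∀ v x, a v (a v x) = x) →
      (∀ u v, G.Adj u v → ∀ x, a u (a v x) = a v (a u x)) →
      (∀ x, ev x 1 = x) → (∀ x g h, ev x (g * h) = ev (ev x g) h) →
      (∀ x v, ev x ((cox G).simple v) = a v x) →
      (∀ g ∈ E, ∀ x, ev x g ≠ x) →
      2 ^ i * N * beta G (pull ℝ a) Set.univ ∅ i ≤
        N * (cliqueNum G B i * Fintype.card X) + 2 ^ i * Fintype.card X) := by
    intro i
    by_cases hi : k + 2 < 2 * i
    · obtain ⟨E, h2, h3⟩ := beta_le_num G B k hB i hi N
      exact ⟨E, h2, fun _ => h3⟩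
    · exact ⟨∅, Finset.notMem_empty _, fun h => absurd h hi⟩
  choose Ef hEf1 hEf2 using h1
  refine ⟨(Finset.range (Fintype.card V + 1)).biUnion Ef, ?_, ?_⟩
  · rw [Finset.mem_biUnion]
    rintro ⟨i, _, h⟩
    exact hEf1 i h
  intro X _ a ev k1 k2 k3 k4 k5 k6 i hi
  have hX : (0 : ℝ) ≤ Fintype.card X := Nat.cast_nonneg _
  by_cases hiK : i < Fintype.card V + 1
  · have h2 := hEf2 i hi X a ev k1 k2 k3 k4 k5 (fun g hg x =>
      k6 g (Finset.mem_biUnion.2 ⟨i, Finset.mem_range.2 hiK, hg⟩) x)
    have h3 : (2 : ℝ) ^ i * N * (beta G (pull ℝ a) Set.univ ∅ i : ℝ) ≤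
        N * (cliqueNum G B i * Fintype.card X) + 2 ^ i * Fintype.card X := by exact_mod_cast h2
    have h2i : (0 : ℝ) < 2 ^ i := by positivity
    have h4 : (2 : ℝ) ^ i * N * (beta G (pull ℝ a) Set.univ ∅ i : ℝ) ≤
        2 ^ i * N * (((cliqueNum G B i : ℝ) / 2 ^ i + ε) * Fintype.card X) := by
      refine h3.trans ?_
      have h5 : (2 : ℝ) ^ i * N * (((cliqueNum G B i : ℝ) / 2 ^ i + ε) * Fintype.card X) =
          N * (cliqueNum G B i * Fintype.card X) + 2 ^ i * (N * ε) * Fintype.card X := by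
        field_simp
      rw [h5]
      have h6 : (2 : ℝ) ^ i * Fintype.card X ≤ 2 ^ i * (N * ε) * Fintype.card X := by
        refine mul_le_mul_of_nonneg_right ?_ hX
        nlinarith
      linarith
    exact le_of_mul_le_mul_left h4 (by positivity)
  · rw [beta_big G _ Set.univ ∅ (by omega), Nat.cast_zero]
    positivity

/-- **The bound for the Betti numbers of the subgroups of finite index.** -/
theorem betti_le_bad {V : Type} [Fintype V] [LinearOrder V] (G : SimpleGraph V) (B : Set V) (k : ℕ)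
    (hB : ∀ v, v ∉ B → AQ k (G.induce (G.neighborSet v))) (ε : ℝ) (hε : 0 < ε) :
    ∃ E : Finset (W G), (1 : W G) ∉ E ∧ ∀ H : Subgroup (W G), H.FiniteIndex →
      (∀ g ∈ E, ∀ x : W G, x * g * x⁻¹ ∉ H) → ∀ i : ℕ, k + 2 < 2 * i →
        (finrank ℝ (HInv G H i) : ℝ) ≤ ((cliqueNum G B i : ℝ) / 2 ^ i + ε) * H.index := by
  classical
  obtain ⟨E, hE1, hE2⟩ := beta_le_eps G B k hB ε hε
  refine ⟨E, hE1, fun H hfin hE i hi => ?_⟩
  have : Finite (Quotient (QuotientGroup.rightRel H)) :=
    Finite.of_equiv _ (QuotientGroup.quotientRightRelEquivQuotientLeftRel H).symm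
  let _ : Fintype (Quotient (QuotientGroup.rightRel H)) := Fintype.ofFinite _
  have hcard : (Fintype.card (Quotient (QuotientGroup.rightRel H)) : ℝ) = H.index := by
    rw [← Nat.card_eq_fintype_card, Nat.card_congr (QuotientGroup.quotientRightRelEquivQuotientLeftRel H)]
    rfl
  have h4 := hE2 _ (aa G H) (ev G H) (aa_inv G H) (fun u v h x => aa_comm G H u v h x)
    (ev_one G H) (ev_mul G H) (fun _ _ => rfl) (fun g hg x => ev_free G H (fun y => hE g hg y) x) i hi
  rw [hcard] at h4
  rw [finrank_HInv]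
  exact h4

end Pool.Agent.Helper33.NS
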