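import Pool.Agent.Helper33.NS1

/-!
# The Singer conjecture and the Charney-Davis inequality up to the bad simplices
-/

set_option autoImplicit false

namespace Pool.Agent.Helper33.NS

open Module Pool.Agent.W907.SG Pool.Agent.W907.SM Pool.Agent.W461.SGN Pool.Agent.W397.SG
  Pool.Agent.TH652.Above Pool.Agent.Y132.SI

/-- The numbers of the cliques contained in `B` with `m + 2`, `m + 4`, ... elements, weighted with
`2^{-size}`. -/
noncomputable def badEven {V : Type} [Fintype V] (G : SimpleGraph V) (B : Set V) (m : ℕ) : ℚ :=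
  ∑ j ∈ (Finset.range (m + 1)).filter Even, (cliqueNum G B (m + 2 + j) : ℚ) / 2 ^ (m + 2 + j)

/-- The numbers of the cliques contained in `B` with `m + 3`, `m + 5`, ... elements, weighted with
`2^{-size}`. -/
noncomputable def badOdd {V : Type} [Fintype V] (G : SimpleGraph V) (B : Set V) (m : ℕ) : ℚ :=
  ∑ j ∈ (Finset.range (m + 1)).filter (fun j => ¬ Even j),
    (cliqueNum G B (m + 2 + j) : ℚ) / 2 ^ (m + 2 + j)

/-- above the top degree there are no chains -/
theorem beta_top {V X : Type} [Fintype V] [Fintype X] [LinearOrder V] {G : SimpleGraph V} {n : ℕ}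
    (hS : HSph n G) (a : V → X → X) {i : ℕ} (hi : n < i) : beta G (pull ℝ a) Set.univ ∅ i = 0 := by
  have h : KK G (pull ℝ a) Set.univ ∅ i = ⊥ := by
    rw [eq_bot_iff]
    intro c hc
    rw [Submodule.mem_bot]
    funext T
    refine hc.1 T ?_
    rintro ⟨h1, _, h3⟩
    have := Pool.Agent.TH652.Dual.no_big hS h1
    omega
  unfold beta ZZ
  rw [h, bot_inf_eq, finrank_bot, Nat.zero_sub]

/-- a symmetric sum -/
theorem sum_symm (m : ℕ) (f : ℕ → ℝ) (hf : ∀ i, i ≤ 2 * m + 2 → f i = f (2 * m + 2 - i)) :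
    ∑ i ∈ Finset.range (2 * m + 3), f i = f (m + 1) + 2 * ∑ j ∈ Finset.range (m + 1), f (m + 2 + j) := by
  have e : 2 * m + 3 = (m + 2) + (m + 1) := by ring
  rw [e, Finset.sum_range_add, Finset.sum_range_succ]
  have h1 : ∑ i ∈ Finset.range (m + 1), f i = ∑ j ∈ Finset.range (m + 1), f (m + 2 + j) := by
    rw [← Finset.sum_range_reflect]
    refine Finset.sum_congr rfl fun j hj => ?_
    have hj' := Finset.mem_range.1 hj
    rw [hf (m + 1 - 1 - j) (by omega)]
    congr 1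
    omega
  rw [h1]
  ring

/-- finite sets with signs -/
theorem level {V : Type} [Fintype V] [LinearOrder V] (G : SimpleGraph V) (m : ℕ)
    (hS : HSph (2 * m + 2) G) (B : Set V)
    (hB : ∀ v, v ∉ B → AQ (2 * m + 1) (G.induce (G.neighborSet v))) (ε : ℝ) (hε : 0 < ε) :
    ∃ E : Finset (W G), (1 : W G) ∉ E ∧ ∀ (X : Type) [Fintype X] (a : V → X → X)
      (ev : X → W G → X) (sgn : V → X → Bool), (∀ v x, a v (a v x) = x) →
      (∀ u v, G.Adj u v → ∀ x, a u (a v x) = a v (a u x)) →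
      (∀ v x, sgn v (a v x) = !(sgn v x)) → (∀ u v, u ≠ v → ∀ x, sgn u (a v x) = sgn u x) →
      (∀ x, ev x 1 = x) → (∀ x g h, ev x (g * h) = ev (ev x g) h) →
      (∀ x v, ev x ((cox G).simple v) = a v x) →
      (∀ g ∈ E, ∀ x, ev x g ≠ x) →
      (∀ i : ℕ, m + 1 < i → (beta G (pull ℝ a) Set.univ ∅ i : ℝ) ≤
        ((cliqueNum G B i : ℝ) / 2 ^ i + ε) * Fintype.card X) ∧
      (∀ i : ℕ, i < m + 1 → (beta G (pull ℝ a) Set.univ ∅ i : ℝ) ≤
        ((cliqueNum G B (2 * m + 2 - i) : ℝ) / 2 ^ (2 * m + 2 - i) + ε) * Fintype.card X) ∧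
      (beta G (pull ℝ a) Set.univ ∅ (m + 1) : ℝ) ≤
        ((-1) ^ (m + 1) * (chiW G : ℝ) + 2 * (badEven G B m : ℝ) + ε) * Fintype.card X ∧
      ((-1) ^ (m + 1) * (chiW G : ℝ) - 2 * (badOdd G B m : ℝ) - ε) * Fintype.card X ≤
        (beta G (pull ℝ a) Set.univ ∅ (m + 1) : ℝ) := by
  classical
  obtain ⟨δ, hδ0, hδε, hδm⟩ : ∃ δ : ℝ, 0 < δ ∧ δ ≤ ε ∧ 2 * (m + 1) * δ ≤ ε := by
    refine ⟨ε / (2 * (m + 1)), by positivity, ?_, ?_⟩
    · rw [div_le_iff₀ (by positivity)]
      nlinarith [Nat.cast_nonneg (α := ℝ) m]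
    · rw [mul_div_cancel₀]
      positivity
  obtain ⟨E, hE1, hE2⟩ := beta_le_eps G B (2 * m + 1) hB δ hδ0
  refine ⟨E, hE1, fun X _ a ev sgn k1 k2 s1 s2 k3 k4 k5 k6 => ?_⟩
  have hX : (0 : ℝ) ≤ Fintype.card X := Nat.cast_nonneg _
  obtain ⟨b, hb⟩ : ∃ b : ℕ → ℝ, ∀ j, b j = (beta G (pull ℝ a) Set.univ ∅ j : ℝ) := ⟨_, fun _ => rfl⟩
  have hb0 : ∀ j, 0 ≤ b j := fun j => by rw [hb]; exact Nat.cast_nonneg _
  have hup : ∀ i : ℕ, m + 1 < i → b i ≤ ((cliqueNum G B i : ℝ) / 2 ^ i + δ) * Fintype.card X := by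
    intro i hi
    rw [hb]
    exact hE2 X a ev k1 k2 k3 k4 k5 k6 i (by omega)
  have hdual : ∀ i : ℕ, i ≤ 2 * m + 2 → b i = b (2 * m + 2 - i) := by
    intro i hi
    rw [hb, hb, Pool.Agent.TH652.Dual.duality_sgn (n := 2 * m + 2) hS k1 k2 s1 s2
      (i := i) (j := 2 * m + 2 - i) (by omega)]
  have htop : ∀ i : ℕ, 2 * m + 2 < i → b i = 0 := fun i hi => by
    rw [hb, beta_top hS a hi, Nat.cast_zero]
  have heul : ∑ j ∈ Finset.range (Fintype.card V + 1), (-1 : ℝ) ^ j * b j =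
      Fintype.card X * (chiW G : ℝ) := by
    have h3 := Pool.Agent.W723.SM.beta_sum (two_ne_zero : (2 : ℝ) ≠ 0) G a sgn k1 k2 s1 s2
    have h4 := congrArg (fun q : ℚ => (q : ℝ)) h3
    push_cast at h4
    rw [← h4]
    exact Finset.sum_congr rfl fun j _ => by rw [hb]
  have hbig : ∀ i : ℕ, Fintype.card V < i → b i = 0 := fun i hi => by
    rw [hb, beta_big G _ Set.univ ∅ hi, Nat.cast_zero]
  have heul2 : ∑ j ∈ Finset.range (2 * m + 3), (-1 : ℝ) ^ j * b j =
      Fintype.card X * (chiW G : ℝ) := by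
    rw [← heul]
    have h1 : ∀ K : ℕ, (∀ i, K ≤ i → b i = 0) → ∑ j ∈ Finset.range K, (-1 : ℝ) ^ j * b j =
        ∑ j ∈ Finset.range (K + (Fintype.card V + 1) + (2 * m + 3)), (-1 : ℝ) ^ j * b j := by
      intro K hK
      refine Finset.sum_subset (Finset.range_mono (by omega)) fun j _ hj => ?_
      rw [hK j (by simpa using hj), mul_zero]
    have h2 := h1 (2 * m + 3) (fun i hi => htop i (by omega))
    have h3 := h1 (Fintype.card V + 1) (fun i hi => hbig i (by omega))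
    rw [h2]
    have h4 : ∑ j ∈ Finset.range (Fintype.card V + 1), (-1 : ℝ) ^ j * b j =
        ∑ j ∈ Finset.range (2 * m + 3 + (Fintype.card V + 1) + (2 * m + 3)), (-1 : ℝ) ^ j * b j := by
      refine Finset.sum_subset (Finset.range_mono (by omega)) fun j _ hj => ?_
      rw [hbig j (by simpa using hj), mul_zero]
    rw [h4]
  rw [sum_symm m (fun i => (-1 : ℝ) ^ i * b i) (fun i hi => by
    rw [hdual i hi]
    congr 1
    rcases Nat.even_or_odd i with h | h
    · rw [h.neg_one_pow, Even.neg_one_pow]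
      rcases h with ⟨r, hr⟩
      exact ⟨m + 1 - r, by omega⟩
    · rw [h.neg_one_pow, Odd.neg_one_pow]
      rcases h with ⟨r, hr⟩
      exact ⟨m - r, by omega⟩)] at heul2
  have hsign : ∀ j : ℕ, (-1 : ℝ) ^ (m + 1) * (-1) ^ (m + 2 + j) = - (-1) ^ j := by
    intro j
    have h1 : (-1 : ℝ) ^ (m + 1) * (-1) ^ (m + 2 + j) = ((-1) ^ (m + 1) * (-1) ^ (m + 1)) * (-1) * (-1) ^ j := by
      ring
    have h2 : (-1 : ℝ) ^ (m + 1) * (-1) ^ (m + 1) = 1 := by
      rw [← mul_pow]; norm_num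
    rw [h1, h2]
    ring
  have hsq : (-1 : ℝ) ^ (m + 1) * (-1) ^ (m + 1) = 1 := by
    rw [← mul_pow]; norm_num
  -- the Euler characteristic in terms of the middle
  have hmid : b (m + 1) = (-1) ^ (m + 1) * (chiW G : ℝ) * Fintype.card X +
      2 * ∑ j ∈ Finset.range (m + 1), (-1 : ℝ) ^ j * b (m + 2 + j) := by
    have h1 : (-1 : ℝ) ^ (m + 1) * ((-1) ^ (m + 1) * b (m + 1) +
        2 * ∑ j ∈ Finset.range (m + 1), (-1 : ℝ) ^ (m + 2 + j) * b (m + 2 + j)) =
        b (m + 1) - 2 * ∑ j ∈ Finset.range (m + 1), (-1 : ℝ) ^ j * b (m + 2 + j) := by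
      rw [mul_add, ← mul_assoc, hsq, one_mul, Finset.mul_sum, Finset.mul_sum, Finset.mul_sum,
        sub_eq_add_neg]
      congr 1
      rw [← Finset.sum_neg_distrib]
      refine Finset.sum_congr rfl fun j _ => ?_
      linear_combination (2 * b (m + 2 + j)) * hsign j
    rw [heul2] at h1
    linarith
  have hsplit : ∑ j ∈ Finset.range (m + 1), (-1 : ℝ) ^ j * b (m + 2 + j) =
      ∑ j ∈ (Finset.range (m + 1)).filter Even, b (m + 2 + j) -
      ∑ j ∈ (Finset.range (m + 1)).filter (fun j => ¬ Even j), b (m + 2 + j) := by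
    rw [← Finset.sum_filter_add_sum_filter_not (Finset.range (m + 1)) Even, sub_eq_add_neg,
      ← Finset.sum_neg_distrib]
    congr 1
    · refine Finset.sum_congr rfl fun j hj => ?_
      rw [(Finset.mem_filter.1 hj).2.neg_one_pow, one_mul]
    · refine Finset.sum_congr rfl fun j hj => ?_
      rw [(Nat.not_even_iff_odd.1 (Finset.mem_filter.1 hj).2).neg_one_pow]
      ring
  have hbound : ∀ p : ℕ → Prop, ∀ [DecidablePred p],
      ∑ j ∈ (Finset.range (m + 1)).filter p, b (m + 2 + j) ≤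
      (∑ j ∈ (Finset.range (m + 1)).filter p, (cliqueNum G B (m + 2 + j) : ℝ) / 2 ^ (m + 2 + j) +
        (m + 1) * δ) * Fintype.card X := by
    intro p _
    have h1 : ∑ j ∈ (Finset.range (m + 1)).filter p, b (m + 2 + j) ≤
        ∑ j ∈ (Finset.range (m + 1)).filter p,
          ((cliqueNum G B (m + 2 + j) : ℝ) / 2 ^ (m + 2 + j) + δ) * Fintype.card X :=
      Finset.sum_le_sum fun j _ => hup (m + 2 + j) (by omega)
    refine h1.trans ?_
    rw [← Finset.sum_mul, Finset.sum_add_distrib, Finset.sum_const, nsmul_eq_mul]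
    refine mul_le_mul_of_nonneg_right ?_ hX
    have h2 : (((Finset.range (m + 1)).filter p).card : ℝ) ≤ m + 1 := by
      have := Finset.card_filter_le (Finset.range (m + 1)) p
      rw [Finset.card_range] at this
      exact_mod_cast this
    have h3 := mul_le_mul_of_nonneg_right h2 hδ0.le
    linarith
  have hE : ((badEven G B m : ℚ) : ℝ) = ∑ j ∈ (Finset.range (m + 1)).filter Even,
      (cliqueNum G B (m + 2 + j) : ℝ) / 2 ^ (m + 2 + j) := by
    unfold badEven
    push_cast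
    rfl
  have hO : ((badOdd G B m : ℚ) : ℝ) = ∑ j ∈ (Finset.range (m + 1)).filter (fun j => ¬ Even j),
      (cliqueNum G B (m + 2 + j) : ℝ) / 2 ^ (m + 2 + j) := by
    unfold badOdd
    push_cast
    rfl
  have hpos : ∀ p : ℕ → Prop, ∀ [DecidablePred p],
      0 ≤ ∑ j ∈ (Finset.range (m + 1)).filter p, b (m + 2 + j) := fun p _ =>
    Finset.sum_nonneg fun j _ => hb0 _
  have hc : (2 * (m + 1) * δ) * (Fintype.card X : ℝ) ≤ ε * Fintype.card X :=
    mul_le_mul_of_nonneg_right hδm hX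
  refine ⟨fun i hi => ?_, fun i hi => ?_, ?_, ?_⟩
  · rw [← hb]
    refine (hup i hi).trans (mul_le_mul_of_nonneg_right ?_ hX)
    linarith
  · rw [← hb, hdual i (by omega)]
    refine (hup _ (by omega)).trans (mul_le_mul_of_nonneg_right ?_ hX)
    linarith
  · rw [← hb, hmid, hsplit, hE]
    have h1 := hbound Even
    have h2 := hpos (fun j => ¬ Even j)
    nlinarith
  · rw [← hb, hmid, hsplit, hO]
    have h1 := hbound (fun j => ¬ Even j)
    have h2 := hpos Even
    nlinarith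

/-- **The Charney-Davis inequality up to the bad simplices.** -/
theorem charney_davis_bad {V : Type} [Fintype V] [LinearOrder V] (G : SimpleGraph V) (m : ℕ)
    (hS : HSph (2 * m + 2) G) (B : Set V)
    (hB : ∀ v, v ∉ B → AQ (2 * m + 1) (G.induce (G.neighborSet v))) :
    - (2 * badEven G B m) ≤ (-1 : ℚ) ^ (m + 1) * chiW G := by
  classical
  by_contra hneg
  push Not at hneg
  have hneg' : (-1 : ℝ) ^ (m + 1) * (chiW G : ℝ) < - (2 * (badEven G B m : ℝ)) := by
    exact_mod_cast hneg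
  obtain ⟨ε, hε0, hε⟩ : ∃ ε : ℝ, 0 < ε ∧
      (-1 : ℝ) ^ (m + 1) * (chiW G : ℝ) + 2 * (badEven G B m : ℝ) + ε < 0 := by
    refine ⟨(- (2 * (badEven G B m : ℝ)) - (-1 : ℝ) ^ (m + 1) * (chiW G : ℝ)) / 2, by linarith, ?_⟩
    linarith
  obtain ⟨E, hE1, hE2⟩ := level G m hS B hB ε hε0
  have : Fact (Nat.Prime 3) := ⟨Nat.prime_three⟩
  obtain ⟨Y, fY, nY, P, ev, h1, h2, h3, h4⟩ := nilp 3 V G E (by norm_num) hE1
  have h5 := (hE2 Y P.a ev P.sgn P.inv P.comm P.sgn_self P.sgn_other h1 h2 h3 h4).2.2.1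
  have h6 : (0 : ℝ) ≤ (beta G (pull ℝ P.a) Set.univ ∅ (m + 1) : ℝ) := Nat.cast_nonneg _
  have h7 : (0 : ℝ) < Fintype.card Y := by exact_mod_cast Fintype.card_pos
  have h8 := mul_neg_of_neg_of_pos hε h7
  linarith

/-- **The Singer conjecture up to the bad simplices**: the Betti numbers of the subgroups of finite
index of the commutator subgroup. -/
theorem near_singer {V : Type} [Fintype V] [LinearOrder V] (G : SimpleGraph V) (m : ℕ)
    (hS : HSph (2 * m + 2) G) (B : Set V)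
    (hB : ∀ v, v ∉ B → AQ (2 * m + 1) (G.induce (G.neighborSet v))) (ε : ℝ) (hε : 0 < ε) :
    ∃ E : Finset (W G), (1 : W G) ∉ E ∧ ∀ H : Subgroup (W G), H ≤ commutator (W G) → H.FiniteIndex →
      (∀ g ∈ E, ∀ x : W G, x * g * x⁻¹ ∉ H) →
      (∀ i : ℕ, m + 1 < i → (finrank ℝ (HInv G H i) : ℝ) ≤
        ((cliqueNum G B i : ℝ) / 2 ^ i + ε) * H.index) ∧
      (∀ i : ℕ, i < m + 1 → (finrank ℝ (HInv G H i) : ℝ) ≤
        ((cliqueNum G B (2 * m + 2 - i) : ℝ) / 2 ^ (2 * m + 2 - i) + ε) * H.index) ∧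
      (finrank ℝ (HInv G H (m + 1)) : ℝ) ≤
        ((-1) ^ (m + 1) * (chiW G : ℝ) + 2 * (badEven G B m : ℝ) + ε) * H.index ∧
      ((-1) ^ (m + 1) * (chiW G : ℝ) - 2 * (badOdd G B m : ℝ) - ε) * H.index ≤
        (finrank ℝ (HInv G H (m + 1)) : ℝ) := by
  classical
  obtain ⟨E, hE1, hE2⟩ := level G m hS B hB ε hε
  refine ⟨E, hE1, fun H hH hfin hE => ?_⟩
  have : Finite (Quotient (QuotientGroup.rightRel H)) :=
    Finite.of_equiv _ (QuotientGroup.quotientRightRelEquivQuotientLeftRel H).symm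
  let _ : Fintype (Quotient (QuotientGroup.rightRel H)) := Fintype.ofFinite _
  have hcard : (Fintype.card (Quotient (QuotientGroup.rightRel H)) : ℝ) = H.index := by
    rw [← Nat.card_eq_fintype_card, Nat.card_congr (QuotientGroup.quotientRightRelEquivQuotientLeftRel H)]
    rfl
  have h4 := hE2 _ (aa G H) (ev G H) (sn G H hH) (aa_inv G H) (fun u v h x => aa_comm G H u v h x)
    (sn_self G H hH) (fun u v h x => sn_other G H hH u v h x)
    (ev_one G H) (ev_mul G H) (fun _ _ => rfl) (fun g hg x => ev_free G H (fun y => hE g hg y) x)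
  rw [hcard] at h4
  simp only [finrank_HInv]
  exact h4

end Pool.Agent.Helper33.NS
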