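import Pool.Agent.Helper33.NS2

/-!
# Vanishing in the degrees in which there are no bad simplices
-/

set_option autoImplicit false

namespace Pool.Agent.Helper33.NS

open Module Pool.Agent.W907.SG Pool.Agent.W907.SM Pool.Agent.W461.SGN Pool.Agent.W397.SG
  Pool.Agent.TH652.Above Pool.Agent.Y132.SI

/-- vanishing in a degree `i > k / 2 + 1` if `B` contains no clique with `i` elements -/
theorem l2van_bad {V : Type} [Fintype V] [LinearOrder V] (G : SimpleGraph V) (B : Set V) (k : ℕ)
    (hB : ∀ v, v ∉ B → AQ k (G.induce (G.neighborSet v))) (i : ℕ) (hi : k + 2 < 2 * i)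
    (h0 : cliqueNum G B i = 0) : L2Van G i := by
  classical
  refine large V G i fun N E hE => ?_
  obtain ⟨E', hE', hs⟩ := beta_le_num G B k hB i hi N
  have : Fact (Nat.Prime 3) := ⟨Nat.prime_three⟩
  obtain ⟨Y, fY, nY, P, ev, h1, h2, h3, h4⟩ := nilp 3 V G (E ∪ E') (by norm_num) (by
    rw [Finset.mem_union, not_or]
    exact ⟨hE, hE'⟩)
  refine ⟨Y, fY, nY, P.a, ev, P.inv, P.comm, h1, h2, h3, fun g hg => h4 g (Finset.mem_union_left _ hg), ?_⟩
  have h5 := hs Y P.a ev P.inv P.comm h1 h2 h3 fun g hg => h4 g (Finset.mem_union_right _ hg)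
  rw [h0, zero_mul, mul_zero, zero_add, mul_assoc] at h5
  exact Nat.le_of_mul_le_mul_left h5 (by positivity)

/-- the same for homology spheres, with duality -/
theorem l2van_sphere {V : Type} [Fintype V] [LinearOrder V] (G : SimpleGraph V) (m : ℕ)
    (hS : HSph (2 * m + 2) G) (B : Set V)
    (hB : ∀ v, v ∉ B → AQ (2 * m + 1) (G.induce (G.neighborSet v))) (i : ℕ) (hi : m + 1 < i)
    (h0 : cliqueNum G B i = 0) :
    L2Van G i ∧ ∀ j, i + j = 2 * m + 2 → L2Van G j := by
  have h1 := l2van_bad G B (2 * m + 1) hB i (by omega) h0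
  exact ⟨h1, fun j hj => Pool.Agent.TH652.Dual.l2_duality (n := 2 * m + 2) hS (i := j) (j := i)
    (by omega) h1⟩

end Pool.Agent.Helper33.NS
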