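import Pool.Agent.Helper33.NS4

/-!
# The last entry of the `γ`-vector of flag homology spheres
-/

set_option autoImplicit false

namespace Pool.Agent.Helper33.NSF

open Module Pool.Agent.W907.SG Pool.Agent.W907.SM Pool.Agent.W461.SGN Pool.Agent.W397.SG
  Pool.Agent.TH652.Above Pool.Agent.Y132.SI
open Pool.Agent.Helper33.NS (cliqueNum)

/-- The `h`-polynomial of the flag complex of `G`, of dimension `d - 1`:
`∑ f_i t^i (1 - t)^{d - i}`, where `f_i` is the number of the cliques with `i` elements. -/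
noncomputable def hPoly {V : Type} [Fintype V] (G : SimpleGraph V) (d : ℕ) (t : ℚ) : ℚ :=
  ∑ i ∈ Finset.range (d + 1), (cliqueNum G Set.univ i : ℚ) * t ^ i * (1 - t) ^ (d - i)

/-- `γ_0, ..., γ_{d/2}` is the `γ`-vector of the flag complex of `G`, of dimension `d - 1`:
`h(t) = ∑ γ_j t^j (1 + t)^{d - 2j}`. -/
def IsGammaVector {V : Type} [Fintype V] (G : SimpleGraph V) (d : ℕ) (γ : ℕ → ℚ) : Prop :=
  ∀ t : ℚ, hPoly G d t = ∑ j ∈ Finset.range (d / 2 + 1), γ j * t ^ j * (1 + t) ^ (d - 2 * j)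

/-- the Euler characteristic in terms of the numbers of cliques -/
theorem chiW_eq {V : Type} [Fintype V] [LinearOrder V] (G : SimpleGraph V) {n : ℕ} (hS : HSph n G) :
    chiW G = ∑ i ∈ Finset.range (n + 1), (cliqueNum G Set.univ i : ℚ) * (-1 / 2) ^ i := by
  classical
  have h1 : ∀ i, (cliqueNum G Set.univ i : ℚ) * (-1 / 2) ^ i =
      ∑ T : Finset V, if T.card = i then (if G.IsClique (T : Set V) then (-1 / 2 : ℚ) ^ T.card else 0)
        else 0 := by
    intro i
    unfold cliqueNum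
    rw [Finset.card_eq_sum_ones, Nat.cast_sum, Finset.sum_mul, Finset.sum_filter]
    refine Finset.sum_congr rfl fun T _ => ?_
    by_cases h : G.IsClique (T : Set V)
    · by_cases h2 : T.card = i
      · subst h2
        simp [h]
      · simp [h2]
    · simp [h]
  simp only [h1]
  rw [Finset.sum_comm, chiW]
  refine Finset.sum_congr rfl fun T _ => ?_
  rw [Finset.sum_ite_eq]
  by_cases h : G.IsClique (T : Set V)
  · rw [if_pos h, if_pos]
    · rw [if_pos h]
    · rw [Finset.mem_range]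
      have := Pool.Agent.TH652.Dual.no_big hS h
      omega
  · rw [if_neg h]
    split_ifs <;> rfl

/-- `h(-1) = 2^d χ(W)` -/
theorem hPoly_neg_one {V : Type} [Fintype V] [LinearOrder V] (G : SimpleGraph V) {n : ℕ}
    (hS : HSph n G) : hPoly G n (-1) = 2 ^ n * chiW G := by
  rw [chiW_eq G hS, Finset.mul_sum]
  unfold hPoly
  refine Finset.sum_congr rfl fun i hi => ?_
  have hi' : i ≤ n := Nat.lt_succ_iff.1 (Finset.mem_range.1 hi)
  have e : (2 : ℚ) ^ n = 2 ^ (n - i) * 2 ^ i := by rw [← pow_add, Nat.sub_add_cancel hi']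
  have h2 : (2 : ℚ) ^ i * (-1 / 2) ^ i = (-1) ^ i := by
    rw [← mul_pow]; norm_num
  have h3 : (1 - (-1) : ℚ) = 2 := by norm_num
  rw [h3, e, ← h2]
  ring

/-- the last entry of the `γ`-vector is `(-1)^{d/2} 2^d χ(W)` -/
theorem gamma_top {V : Type} [Fintype V] [LinearOrder V] (G : SimpleGraph V) (m : ℕ)
    (hS : HSph (2 * m + 2) G) (γ : ℕ → ℚ) (hγ : IsGammaVector G (2 * m + 2) γ) :
    γ (m + 1) = 2 ^ (2 * m + 2) * ((-1) ^ (m + 1) * chiW G) := by
  have h1 := hγ (-1)
  rw [hPoly_neg_one G hS] at h1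
  have e : (2 * m + 2) / 2 + 1 = m + 1 + 1 := by omega
  rw [e, Finset.sum_range_succ, Finset.sum_eq_zero, zero_add] at h1
  · have h2 : 2 * m + 2 - 2 * (m + 1) = 0 := by omega
    rw [h2, pow_zero, mul_one] at h1
    have h3 : ((-1 : ℚ) ^ (m + 1)) * (-1) ^ (m + 1) = 1 := by
      rw [← mul_pow]; norm_num
    linear_combination (-γ (m + 1)) * h3 - (-1) ^ (m + 1) * h1
  · intro j hj
    have hj' := Finset.mem_range.1 hj
    have h2 : (1 + (-1) : ℚ) = 0 := by norm_num
    rw [h2, zero_pow (by omega), mul_zero]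

end Pool.Agent.Helper33.NSF
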