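import Pool.Agent.Helper33.BF4

/-!
# Links: homology spheres and the conditions on flags
-/

set_option autoImplicit false
set_option linter.unusedSectionVars false

namespace Pool.Agent.Helper33.BF

open Module Pool.Agent.W907.SG Pool.Agent.W907.SM Pool.Agent.W461.SGN Pool.Agent.W397.SG
  Pool.Agent.TH652.Above Pool.Agent.Y132.SI Pool.Agent.Helper33.NS

variable {V : Type} [Fintype V] [LinearOrder V]

/-- the vertices of a set of vertices of the link -/
def vs {T : Set V} (R : Finset T) : Finset V := R.map (Function.Embedding.subtype _)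

theorem mem_vs {T : Set V} {R : Finset T} {x : V} : x ∈ vs R ↔ ∃ h : x ∈ T, (⟨x, h⟩ : T) ∈ R := by
  unfold vs
  simp [Finset.mem_map]

theorem card_vs {T : Set V} (R : Finset T) : (vs R).card = R.card := Finset.card_map _

theorem vs_insert {T : Set V} (u : T) (R : Finset T) : vs (insert u R) = insert u.1 (vs R) := by
  classical
  unfold vs
  rw [Finset.map_insert]
  rfl

theorem clique_vs {G : SimpleGraph V} {T : Finset V} (hT : G.IsClique (T : Set V))
    {R : Finset (lk G T)} (hR : (G.induce (lk G T)).IsClique (R : Set (lk G T))) :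
    G.IsClique ((T ∪ vs R : Finset V) : Set V) := by
  intro x hx y hy hxy
  rcases Finset.mem_union.1 (Finset.mem_coe.1 hx) with hx | hx <;>
    rcases Finset.mem_union.1 (Finset.mem_coe.1 hy) with hy | hy
  · exact hT (by exact_mod_cast hx) (by exact_mod_cast hy) hxy
  · obtain ⟨h, _⟩ := mem_vs.1 hy
    exact (h x hx).symm
  · obtain ⟨h, _⟩ := mem_vs.1 hx
    exact h y hy
  · obtain ⟨h, hh⟩ := mem_vs.1 hx
    obtain ⟨h', hh'⟩ := mem_vs.1 hy
    exact hR (by exact_mod_cast hh) (by exact_mod_cast hh') (fun e => hxy (congrArg Subtype.val e))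

theorem disj_vs {G : SimpleGraph V} {T : Finset V} (R : Finset (lk G T)) : Disjoint T (vs R) := by
  rw [Finset.disjoint_left]
  intro x hx hx'
  obtain ⟨h, _⟩ := mem_vs.1 hx'
  exact G.loopless.irrefl x (h x hx)

theorem mem_lk_vs {G : SimpleGraph V} {T : Finset V} {R : Finset (lk G T)} {x : V} :
    x ∈ lk G (T ∪ vs R) ↔ ∃ h : x ∈ lk G T, (⟨x, h⟩ : lk G T) ∈ lk (G.induce (lk G T)) R := by
  constructor
  · intro h
    refine ⟨fun u hu => h u (Finset.mem_union_left _ hu), fun u hu => ?_⟩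
    exact h u.1 (Finset.mem_union_right _ (mem_vs.2 ⟨u.2, hu⟩))
  · rintro ⟨h, h2⟩ u hu
    rcases Finset.mem_union.1 hu with hu | hu
    · exact h u hu
    · obtain ⟨h3, h4⟩ := mem_vs.1 hu
      exact h2 ⟨u, h3⟩ h4

/-- links of homology spheres -/
theorem hsph_link {n : ℕ} {G : SimpleGraph V} (hS : HSph n G) {T : Finset V}
    (hT : G.IsClique (T : Set V)) [Fintype (lk G T)] : HSph (n - T.card) (G.induce (lk G T)) := by
  classical
  intro R hR i
  have h1 := hS (T ∪ vs R) (clique_vs hT hR) i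
  have hn : (T ∪ vs R).card ≤ n := Pool.Agent.TH652.Dual.no_big hS (clique_vs hT hR)
  have hc : (T ∪ vs R).card = T.card + R.card := by
    rw [Finset.card_union_of_disjoint (disj_vs R), card_vs]
  rw [hc] at h1 hn
  have e : (i + R.card = n - T.card) ↔ (i + (T.card + R.card) = n) := by omega
  simp only [e]
  rw [← h1]
  have t1 := tr (lk (G.induce (lk G T)) R) (lk G T) ℝ ℝ (G.induce (lk G T))
    ((G.induce (lk G T)).induce (lk (G.induce (lk G T)) R))
    (fun _ => (- LinearMap.id : ℝ →ₗ[ℝ] ℝ)) (fun u => u.1) (Subtype.strictMono_coe _)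
    (fun u u' => Iff.rfl) i
  have t2 := tr (lk (G.induce (lk G T)) R) V ℝ ℝ G
    ((G.induce (lk G T)).induce (lk (G.induce (lk G T)) R))
    (fun _ => (- LinearMap.id : ℝ →ₗ[ℝ] ℝ)) (fun u => u.1.1)
    (fun a b hab => hab)
    (fun u u' => Iff.rfl) i
  rw [Subtype.range_coe] at t1
  have e2 : Set.range (fun u : lk (G.induce (lk G T)) R => u.1.1) = lk G (T ∪ vs R) := by
    ext x
    rw [mem_lk_vs]
    constructor
    · rintro ⟨u, rfl⟩
      exact ⟨u.1.2, u.2⟩
    · rintro ⟨h, h2⟩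
      exact ⟨⟨⟨x, h⟩, h2⟩, rfl⟩
  rw [e2] at t2
  rw [t1, t2]

/-- the sets of vertices for the link of `T` -/
def linkB (G : SimpleGraph V) (B : ℕ → Finset V → Set V) (T : Finset V) :
    ℕ → Finset (lk G T) → Set (lk G T) := fun k R => {u | u.1 ∈ B k (T ∪ vs R)}

theorem goodFlags_link {G : SimpleGraph V} {B : ℕ → Finset V → Set V} {I J : ℕ} (hB : GoodFlags G B I)
    {T : Finset V} (hT : G.IsClique (T : Set V)) (hJ : I ≤ J + T.card) :
    GoodFlags (G.induce (lk G T)) (linkB G B T) J := by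
  classical
  intro R k hR hk hkI u hu hun
  have hc : (T ∪ vs R).card = T.card + R.card := by
    rw [Finset.card_union_of_disjoint (disj_vs R), card_vs]
  have h1 := hB (T ∪ vs R) k (clique_vs hT hR) hk (by rw [hc]; omega) u.1
    (mem_lk_vs.2 ⟨u.2, hu⟩) hun
  have e : insert u.1 (T ∪ vs R) = T ∪ vs (insert u R) := by
    rw [vs_insert, Finset.union_insert]
  rw [e] at h1
  refine AQ.iso _ _ ⟨?_⟩ h1
  refine
    { toFun := fun x => ⟨⟨x.1, (mem_lk_vs.1 x.2).1⟩, (mem_lk_vs.1 x.2).2⟩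
      invFun := fun x => ⟨x.1.1, mem_lk_vs.2 ⟨x.1.2, x.2⟩⟩
      left_inv := fun _ => rfl
      right_inv := fun _ => rfl
      map_rel_iff' := Iff.rfl }

/-- the number of bad cliques of the link -/
theorem badCl_link (G : SimpleGraph V) (B : ℕ → Finset V → Set V) (T : Finset V) [Fintype (lk G T)]
    (i : ℕ) :
    badCl (G.induce (lk G T)) (linkB G B T) i ≤ badNum G B T (lk G T) i := by
  classical
  unfold badCl badNum
  refine Finset.card_le_card_of_injOn (fun R => vs R) ?_ ?_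
  · intro R hR
    have hR' := Finset.mem_filter.1 (Finset.mem_coe.1 hR)
    obtain ⟨_, g1, _, g3, g4⟩ := hR'
    refine Finset.mem_coe.2 (Finset.mem_filter.2 ⟨Finset.mem_univ _, ?_, ?_, ?_, ?_⟩)
    · intro x hx y hy hxy
      obtain ⟨h, hh⟩ := mem_vs.1 (Finset.mem_coe.1 hx)
      obtain ⟨h', hh'⟩ := mem_vs.1 (Finset.mem_coe.1 hy)
      exact g1 (by exact_mod_cast hh) (by exact_mod_cast hh') (fun e => hxy (congrArg Subtype.val e))
    · intro x hx
      exact (mem_vs.1 (Finset.mem_coe.1 hx)).1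
    · rw [card_vs, g3]
    · intro Q hQ hlt hcard
      obtain ⟨Q', rfl⟩ : ∃ Q' : Finset (lk G T), vs Q' = Q := by
        refine ⟨R.filter fun x => x.1 ∈ Q, ?_⟩
        ext x
        rw [mem_vs]
        constructor
        · rintro ⟨h, h2⟩
          exact (Finset.mem_filter.1 h2).2
        · intro hx
          obtain ⟨h, h2⟩ := mem_vs.1 (hQ hx)
          exact ⟨h, Finset.mem_filter.2 ⟨h2, hx⟩⟩
      rw [card_vs] at hcard ⊢
      have hQR : Q' ⊆ R := by
        intro x hx
        obtain ⟨h, h2⟩ := mem_vs.1 (hQ (mem_vs.2 ⟨x.2, hx⟩))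
        exact h2
      have h5 := g4 Q' hQR (fun s hs t ht => by
        have ht' := Finset.mem_sdiff.1 ht
        exact hlt s.1 (mem_vs.2 ⟨s.2, hs⟩) t.1 (Finset.mem_sdiff.2 ⟨mem_vs.2 ⟨t.2, ht'.1⟩, fun h => by
          obtain ⟨_, h7⟩ := mem_vs.1 h
          exact ht'.2 h7⟩)) hcard
      intro x hx
      have hx' := Finset.mem_sdiff.1 (Finset.mem_coe.1 hx)
      obtain ⟨h, h2⟩ := mem_vs.1 hx'.1
      have h6 : (⟨x, h⟩ : lk G T) ∈ ((R \ Q' : Finset (lk G T)) : Set (lk G T)) := by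
        refine Finset.mem_coe.2 (Finset.mem_sdiff.2 ⟨h2, fun h8 => ?_⟩)
        exact hx'.2 (mem_vs.2 ⟨h, h8⟩)
      have h7 := h5 h6
      have h8 : x ∈ B (i - Q'.card) (T ∪ vs (∅ ∪ Q')) := h7
      rwa [Finset.empty_union] at h8
  · intro R _ R' _ h
    exact Finset.map_injective _ h

end Pool.Agent.Helper33.BF
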