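import Pool.Agent.Helper33.WF1
import Pool.Agent.Y365.FS.Wt2

/-!
# The weighted Charney-Davis inequality up to the bad cliques of the links
-/

set_option autoImplicit false
set_option linter.unusedSectionVars false

namespace Pool.Agent.Helper33.BF

open Module Pool.Agent.W907.SG Pool.Agent.W907.SM Pool.Agent.W461.SGN Pool.Agent.W397.SG
  Pool.Agent.TH652.Above Pool.Agent.Y132.SI Pool.Agent.Helper33.NS
open Pool.Agent.W497.FS (cl lam lkF fe mem_cl mem_lkF)
open Y365.FS (bN GoodOrders)

/-- The sum of `f_i / 2^i` over `i = l + 2, l + 4, ..., ≤ 2 l + 2`, where `f_i` is the number of the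
cliques with `i` elements in the link of `T` which are bad with respect to `T`. -/
noncomputable def linkEven {V : Type} [Fintype V] [LinearOrder V] (G : SimpleGraph V)
    (B : ℕ → Finset V → Set V) (T : Finset V) (l : ℕ) : ℚ :=
  ∑ j ∈ (Finset.range (l + 1)).filter Even,
    (badNum G B T (Pool.Agent.W907.SM.lk G T) (l + 2 + j) : ℚ) / 2 ^ (l + 2 + j)

variable {V : Type} [Fintype V] [LinearOrder V]

theorem linkEven_nonneg (G : SimpleGraph V) (B : ℕ → Finset V → Set V) (T : Finset V) (l : ℕ) :
    0 ≤ linkEven G B T l := Finset.sum_nonneg fun j _ => by positivity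

/-- the Euler characteristic of the link -/
theorem lam_eq (G : SimpleGraph V) (T : Finset V) [Fintype (Pool.Agent.W907.SM.lk G T)] :
    lam G (lkF G Finset.univ T) = chiW (G.induce (Pool.Agent.W907.SM.lk G T)) := by
  classical
  have e : chiW (G.induce (Pool.Agent.W907.SM.lk G T)) = ∑ R ∈ Finset.univ.filter
      (fun R : Finset (Pool.Agent.W907.SM.lk G T) =>
        (G.induce (Pool.Agent.W907.SM.lk G T)).IsClique (R : Set _)), (-1 / 2 : ℚ) ^ R.card := by
    rw [chiW, Finset.sum_filter]
    refine Finset.sum_congr rfl fun R _ => ?_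
    by_cases h : (G.induce (Pool.Agent.W907.SM.lk G T)).IsClique (R : Set _)
    · rw [if_pos h, if_pos h]
    · rw [if_neg h, if_neg h]
  rw [lam, fe, e]
  symm
  refine Finset.sum_bij (fun R _ => vs R) ?_ ?_ ?_ ?_
  · intro R hR
    have h1 := (Finset.mem_filter.1 hR).2
    refine mem_cl.2 ⟨fun x hx => ?_, fun x hx y hy hxy => ?_⟩
    · obtain ⟨h, _⟩ := mem_vs.1 hx
      exact mem_lkF.2 ⟨Finset.mem_univ _, fun y hy => (h y hy).symm⟩
    · obtain ⟨h, hh⟩ := mem_vs.1 hx
      obtain ⟨h', hh'⟩ := mem_vs.1 hy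
      exact h1 (by exact_mod_cast hh) (by exact_mod_cast hh') (fun e => hxy (congrArg Subtype.val e))
  · intro R _ R' _ h
    exact Finset.map_injective _ h
  · intro Q hQ
    obtain ⟨h1, h2⟩ := mem_cl.1 hQ
    have h3 : ∀ x ∈ Q, x ∈ Pool.Agent.W907.SM.lk G T := fun x hx u hu =>
      ((mem_lkF.1 (h1 hx)).2 u hu).symm
    refine ⟨Finset.univ.filter fun x => x.1 ∈ Q, ?_, ?_⟩
    · refine Finset.mem_filter.2 ⟨Finset.mem_univ _, ?_⟩
      intro x hx y hy hxy
      exact h2 x.1 (Finset.mem_filter.1 (Finset.mem_coe.1 hx)).2 y.1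
        (Finset.mem_filter.1 (Finset.mem_coe.1 hy)).2 (fun e => hxy (Subtype.ext e))
    · ext x
      rw [mem_vs]
      constructor
      · rintro ⟨h, h4⟩
        exact (Finset.mem_filter.1 h4).2
      · intro hx
        exact ⟨h3 x hx, Finset.mem_filter.2 ⟨Finset.mem_univ _, hx⟩⟩
  · intro R _
    rw [card_vs]

/-- the Charney-Davis inequality of the links -/
theorem cd_link (G : SimpleGraph V) (m : ℕ) (hS : HSph (2 * m + 2) G) (B : ℕ → Finset V → Set V)
    (hB : GoodFlags G B (m + 2)) (T : Finset V) (hT : G.IsClique (T : Set V)) (j l : ℕ)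
    (hj : T.card = 2 * j) (hl : j + l = m) :
    - (2 * linkEven G B T l) ≤ (-1) ^ (l + 1) * lam G (lkF G Finset.univ T) := by
  classical
  rw [lam_eq G T]
  have h1 : HSph (2 * l + 2) (G.induce (Pool.Agent.W907.SM.lk G T)) := by
    have h2 := hsph_link hS hT
    have e : 2 * m + 2 - T.card = 2 * l + 2 := by omega
    rwa [e] at h2
  have h3 := charney_davis_flags (G.induce (Pool.Agent.W907.SM.lk G T)) l h1 (linkB G B T)
    (goodFlags_link hB hT (by omega))
  refine le_trans ?_ h3
  have h4 : flagEven (G.induce (Pool.Agent.W907.SM.lk G T)) (linkB G B T) l ≤ linkEven G B T l := by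
    refine Finset.sum_le_sum fun i _ => ?_
    refine div_le_div_of_nonneg_right ?_ (by positivity)
    exact_mod_cast badCl_link G B T (l + 2 + i)
  linarith

/-- **The weighted Charney-Davis inequality up to the bad cliques of the links.** -/
theorem weighted_flags (G : SimpleGraph V) (m : ℕ) (hS : HSph (2 * m + 2) G)
    (B : ℕ → Finset V → Set V) (hB : GoodFlags G B (m + 2)) (N : Finset V → ℚ)
    (hN : GoodOrders (cl G Finset.univ) N) :
    - (∑ T ∈ (cl G Finset.univ).filter (fun T => Even T.card ∧ T.card ≤ 2 * m),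
        |bN N T| * (2 * linkEven G B T (m - T.card / 2))) ≤
      (-1) ^ (m + 1) * ∑ σ ∈ cl G Finset.univ, (-1) ^ σ.card / N σ := by
  classical
  rw [Y365.FS.weighted_eq, Finset.mul_sum, ← Finset.sum_neg_distrib, Finset.sum_filter]
  refine Finset.sum_le_sum fun T hT => ?_
  have hcl : G.IsClique (T : Set V) := fun x hx y hy hxy =>
    (mem_cl.1 hT).2 x (by exact_mod_cast hx) y (by exact_mod_cast hy) hxy
  have hbig := Pool.Agent.TH652.Dual.no_big hS hcl
  rcases Nat.even_or_odd T.card with hev | ho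
  · obtain ⟨j, hj⟩ := hev
    have h1 := (hN T hT).2 j (by omega)
    have h4 : (-1 : ℚ) ^ T.card = 1 := by rw [hj]; exact Even.neg_one_pow ⟨j, rfl⟩
    have h5 : |bN N T| = (-1) ^ j * bN N T := by
      rw [← abs_of_nonneg h1, abs_mul, abs_pow, abs_neg, abs_one, one_pow, one_mul]
    by_cases hm : T.card ≤ 2 * m
    · rw [if_pos ⟨⟨j, hj⟩, hm⟩]
      obtain ⟨l, hl⟩ : ∃ l, j + l = m := ⟨m - j, by omega⟩
      have h2 := cd_link G m hS B hB T hcl j l (by omega) hl
      have e1 : m - T.card / 2 = l := by omega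
      have h3 : (-1 : ℚ) ^ (m + 1) * ((-1) ^ T.card * bN N T * lam G (lkF G Finset.univ T)) =
          ((-1) ^ j * bN N T) * ((-1) ^ (l + 1) * lam G (lkF G Finset.univ T)) := by
        rw [h4, ← hl, pow_add, pow_add, pow_add]; ring
      rw [h3, e1, h5]
      have h6 := mul_le_mul_of_nonneg_left h2 h1
      linarith
    · rw [if_neg (fun h => hm h.2)]
      have hjm : j = m + 1 := by omega
      subst hjm
      have hem : lkF G Finset.univ T = ∅ := by
        rw [Finset.eq_empty_iff_forall_notMem]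
        intro x hx
        have hx2 := (mem_lkF.1 hx).2
        have hxT : x ∉ T := fun h => (hx2 x h).ne rfl
        have h7 : G.IsClique ((insert x T : Finset V) : Set V) := by
          rw [Finset.coe_insert, SimpleGraph.isClique_insert]
          exact ⟨hcl, fun b hb _ => (hx2 b hb).symm⟩
        have h8 := Pool.Agent.TH652.Dual.no_big hS h7
        rw [Finset.card_insert_of_notMem hxT] at h8
        omega
      rw [h4, hem, Pool.Agent.W497.FS.lam_empty, one_mul, mul_one]
      exact h1
  · rw [if_neg (fun h => (Nat.not_even_iff_odd.2 ho) h.1), (hN T hT).1 ho]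
    simp

end Pool.Agent.Helper33.BF
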