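import Pool.Agent.Helper33.WF2
import Pool.Agent.Helper33.NS5

/-!
# The last entry of the `γ`-vector of even-dimensional flag homology spheres
-/

set_option autoImplicit false
set_option linter.unusedSectionVars false

namespace Pool.Agent.Helper33.BF

open Module Pool.Agent.W907.SG Pool.Agent.W907.SM Pool.Agent.W461.SGN Pool.Agent.W397.SG
  Pool.Agent.TH652.Above Pool.Agent.Y132.SI Pool.Agent.Helper33.NS
open Pool.Agent.W497.FS (cl lam lkF fe mem_cl mem_lkF)
open Pool.Agent.Helper33.NSF (hPoly IsGammaVector)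

variable {V : Type} [Fintype V] [LinearOrder V]

/-- the derivative of the `h`-polynomial at `-1` -/
theorem deriv_h (f : ℕ → ℚ) (γ : ℕ → ℚ) (m : ℕ)
    (h : ∀ t : ℚ, ∑ i ∈ Finset.range (2 * m + 3 + 1), f i * t ^ i * (1 - t) ^ (2 * m + 3 - i) =
      ∑ j ∈ Finset.range ((2 * m + 3) / 2 + 1), γ j * t ^ j * (1 + t) ^ (2 * m + 3 - 2 * j)) :
    (-1) ^ (m + 1) * γ (m + 1) =
      - 2 ^ (2 * m + 2) * ∑ i ∈ Finset.range (2 * m + 3 + 1), f i * i * (-1 / 2) ^ i := by
  have e0 : (2 * m + 3) / 2 + 1 = m + 2 := by omega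
  rw [e0] at h
  -- the value at -1
  have h1 := h (-1)
  rw [Finset.sum_eq_zero (s := Finset.range (m + 2))] at h1
  swap
  · intro j hj
    have hj' := Finset.mem_range.1 hj
    have h2 : (1 + (-1) : ℚ) = 0 := by norm_num
    rw [h2, zero_pow (by omega), mul_zero]
  -- the derivatives
  have dL : ∀ i : ℕ, i ≤ 2 * m + 3 → HasDerivAt (fun t : ℚ => f i * t ^ i * (1 - t) ^ (2 * m + 3 - i))
      (- (2 : ℚ) ^ (2 * m + 2) * (f i * i * (-1 / 2) ^ i) -
        (2 * m + 3 : ℚ) / 2 * (f i * (-1) ^ i * (1 - (-1)) ^ (2 * m + 3 - i))) (-1) := by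
    intro i hi
    have a1 : HasDerivAt (fun t : ℚ => t ^ i) ((i : ℚ) * (-1) ^ (i - 1)) (-1) := hasDerivAt_pow i (-1)
    have a2 : HasDerivAt (fun t : ℚ => (1 - t)) (-1) (-1 : ℚ) := by
      simpa using (hasDerivAt_id (-1 : ℚ)).const_sub 1
    have a3 := a2.pow (2 * m + 3 - i)
    have a4 := (a1.const_mul (f i)).mul a3
    refine a4.congr_deriv ?_
    obtain ⟨k, hk⟩ : ∃ k, 2 * m + 3 = i + k := ⟨2 * m + 3 - i, by omega⟩
    have hk2 : 2 * m + 3 - i = k := by omega
    have hkq : (2 * m + 3 : ℚ) = i + k := by exact_mod_cast hk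
    rw [hk2, hkq]
    have e1 : (2 : ℚ) ^ (2 * m + 2) * (-1 / 2) ^ i = (-1) ^ i * 2 ^ k / 2 := by
      have e2 : (2 : ℚ) ^ (2 * m + 2) = 2 ^ i * 2 ^ k / 2 := by
        rw [← pow_add, ← hk]
        rw [pow_succ (2 : ℚ) (2 * m + 2)]
        ring
      rw [e2]
      have e3 : (2 : ℚ) ^ i * (-1 / 2) ^ i = (-1) ^ i := by rw [← mul_pow]; norm_num
      linear_combination (2 ^ k / 2) * e3
    have e4 : (1 - (-1) : ℚ) = 2 := by norm_num
    have e5 : (i : ℚ) * (-1) ^ (i - 1) = - (i * (-1) ^ i) := by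
      rcases i with _ | i
      · simp
      · rw [Nat.add_sub_cancel, pow_succ]; ring
    have e6 : (k : ℚ) * 2 ^ (k - 1) = k * 2 ^ k / 2 := by
      rcases k with _ | k
      · simp
      · rw [Nat.add_sub_cancel, pow_succ]; ring
    have e7 : ((fun t : ℚ => 1 - t) ^ k) (-1) = 2 ^ k := by
      rw [Pi.pow_apply]
      norm_num
    rw [e7]
    simp only [e4]
    rw [e5]
    linear_combination (- (f i * (-1) ^ i)) * e6 + (f i * i) * e1
  have dR : ∀ j : ℕ, j ≤ m → HasDerivAt (fun t : ℚ => γ j * t ^ j * (1 + t) ^ (2 * m + 3 - 2 * j))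
      0 (-1) := by
    intro j hj
    obtain ⟨k, hk⟩ : ∃ k, 2 * m + 3 - 2 * j = k + 2 := ⟨2 * m + 1 - 2 * j, by omega⟩
    rw [hk]
    have a1 : HasDerivAt (fun t : ℚ => t ^ j) ((j : ℚ) * (-1) ^ (j - 1)) (-1) := hasDerivAt_pow j (-1)
    have a2 : HasDerivAt (fun t : ℚ => (1 + t)) 1 (-1 : ℚ) := by
      simpa using (hasDerivAt_id (-1 : ℚ)).const_add 1
    have a3 := a2.pow (k + 2)
    have a4 := (a1.const_mul (γ j)).mul a3
    refine a4.congr_deriv ?_
    simp
  have dR' : HasDerivAt (fun t : ℚ => γ (m + 1) * t ^ (m + 1) * (1 + t) ^ (2 * m + 3 - 2 * (m + 1)))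
      ((-1) ^ (m + 1) * γ (m + 1)) (-1) := by
    have hk : 2 * m + 3 - 2 * (m + 1) = 1 := by omega
    rw [hk]
    have a1 : HasDerivAt (fun t : ℚ => t ^ (m + 1)) (((m + 1 : ℕ) : ℚ) * (-1) ^ (m + 1 - 1)) (-1) :=
      hasDerivAt_pow (m + 1) (-1)
    have a2 : HasDerivAt (fun t : ℚ => (1 + t)) 1 (-1 : ℚ) := by
      simpa using (hasDerivAt_id (-1 : ℚ)).const_add 1
    have a3 := a2.pow 1
    have a4 := (a1.const_mul (γ (m + 1))).mul a3
    refine a4.congr_deriv ?_
    simp
    ring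
  have sL := HasDerivAt.fun_sum (u := Finset.range (2 * m + 3 + 1)) (fun i hi => dL i (by
    have := Finset.mem_range.1 hi; omega))
  have sR := (HasDerivAt.fun_sum (u := Finset.range (m + 1)) (fun j hj => dR j (by
    have := Finset.mem_range.1 hj; omega))).add dR'
  have hfun : (fun t : ℚ => ∑ i ∈ Finset.range (2 * m + 3 + 1), f i * t ^ i * (1 - t) ^ (2 * m + 3 - i)) =
      (fun t : ℚ => ∑ j ∈ Finset.range (m + 1), γ j * t ^ j * (1 + t) ^ (2 * m + 3 - 2 * j)) +
      (fun t : ℚ => γ (m + 1) * t ^ (m + 1) * (1 + t) ^ (2 * m + 3 - 2 * (m + 1))) := by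
    funext t
    rw [h t, Finset.sum_range_succ]
    rfl
  rw [hfun] at sL
  have huniq := sL.unique sR
  rw [Finset.sum_const_zero, zero_add, Finset.sum_sub_distrib, ← Finset.mul_sum, ← Finset.mul_sum] at huniq
  have h3 : ∑ i ∈ Finset.range (2 * m + 3 + 1), f i * (-1) ^ i * (1 - (-1)) ^ (2 * m + 3 - i) = 0 := h1
  rw [h3, mul_zero, sub_zero] at huniq
  exact huniq.symm

/-- counting the pairs of a clique and one of its vertices -/
theorem sum_links (G : SimpleGraph V) :
    ∑ σ ∈ cl G Finset.univ, (σ.card : ℚ) * (-1 / 2) ^ σ.card =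
      - (1 / 2) * ∑ v : V, lam G (lkF G Finset.univ {v}) := by
  classical
  have h1 : ∀ σ ∈ cl G Finset.univ, (σ.card : ℚ) * (-1 / 2) ^ σ.card =
      ∑ v : V, if {v} ⊆ σ then (-1 / 2 : ℚ) ^ σ.card else 0 := by
    intro σ _
    rw [← Finset.sum_filter, Finset.sum_const, nsmul_eq_mul]
    congr 2
    refine congrArg Finset.card ?_
    ext v
    simp
  rw [Finset.sum_congr rfl h1, Finset.sum_comm, Finset.mul_sum]
  refine Finset.sum_congr rfl fun v _ => ?_
  have hv : ({v} : Finset V) ∈ cl G Finset.univ := mem_cl.2 ⟨Finset.subset_univ _, by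
    intro x hx y hy hxy
    rw [Finset.mem_singleton] at hx hy
    exact absurd (hx.trans hy.symm) hxy⟩
  rw [← Finset.sum_filter, Pool.Agent.W497.FS.sum_sup hv (fun n => (-1 / 2 : ℚ) ^ n), lam, fe,
    Finset.mul_sum]
  refine Finset.sum_congr rfl fun ρ _ => ?_
  rw [Finset.card_singleton, pow_succ]
  ring

/-- the sum of the numbers of cliques with weights -/
theorem sum_cliqueNum (G : SimpleGraph V) {n : ℕ} (hS : HSph n G) :
    ∑ i ∈ Finset.range (n + 1), (cliqueNum G Set.univ i : ℚ) * i * (-1 / 2) ^ i =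
      ∑ σ ∈ cl G Finset.univ, (σ.card : ℚ) * (-1 / 2) ^ σ.card := by
  classical
  have hcl : ∀ σ : Finset V, σ ∈ cl G Finset.univ ↔ G.IsClique (σ : Set V) := by
    intro σ
    rw [mem_cl]
    constructor
    · rintro ⟨_, h⟩ x hx y hy hxy
      exact h x (by exact_mod_cast hx) y (by exact_mod_cast hy) hxy
    · intro h
      exact ⟨Finset.subset_univ _, fun x hx y hy hxy => h (by exact_mod_cast hx) (by exact_mod_cast hy) hxy⟩
  have h1 : ∀ i, (cliqueNum G Set.univ i : ℚ) * i * (-1 / 2) ^ i =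
      ∑ T ∈ cl G Finset.univ, if T.card = i then (T.card : ℚ) * (-1 / 2 : ℚ) ^ T.card else 0 := by
    intro i
    rw [← Finset.sum_filter]
    have h2 : cliqueNum G Set.univ i = ((cl G Finset.univ).filter fun T => T.card = i).card := by
      unfold cliqueNum
      refine congrArg Finset.card ?_
      ext T
      simp only [Finset.mem_filter, Finset.mem_univ, true_and, hcl, Set.subset_univ]
    rw [h2, Finset.card_eq_sum_ones, Nat.cast_sum, Finset.sum_mul, Finset.sum_mul]
    refine Finset.sum_congr rfl fun T hT => ?_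
    have h3 := (Finset.mem_filter.1 hT).2
    rw [h3]
    simp
  simp only [h1]
  rw [Finset.sum_comm]
  refine Finset.sum_congr rfl fun T hT => ?_
  rw [Finset.sum_ite_eq, if_pos]
  rw [Finset.mem_range]
  have := Pool.Agent.TH652.Dual.no_big hS ((hcl T).1 hT)
  omega

/-- the last entry of the `γ`-vector in terms of the links of the vertices -/
theorem gamma_last (G : SimpleGraph V) (m : ℕ) (hS : HSph (2 * m + 3) G) (γ : ℕ → ℚ)
    (hγ : IsGammaVector G (2 * m + 3) γ) :
    γ (m + 1) = 2 ^ (2 * m + 1) * ∑ v : V, (-1) ^ (m + 1) * lam G (lkF G Finset.univ {v}) := by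
  have h1 := deriv_h (fun i => (cliqueNum G Set.univ i : ℚ)) γ m hγ
  rw [sum_cliqueNum G hS, sum_links] at h1
  have h3 : ((-1 : ℚ) ^ (m + 1)) * (-1) ^ (m + 1) = 1 := by
    rw [← mul_pow]; norm_num
  rw [← Finset.mul_sum]
  have h4 : (2 : ℚ) ^ (2 * m + 2) = 2 * 2 ^ (2 * m + 1) := by rw [pow_succ (2 : ℚ) (2 * m + 1)]; ring
  rw [h4] at h1
  linear_combination (-γ (m + 1)) * h3 + (-1) ^ (m + 1) * h1

/-- **The last entry of the `γ`-vector of even-dimensional flag homology spheres, up to the bad cliques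
of the links of the vertices.** -/
theorem gamma_last_flags (G : SimpleGraph V) (m : ℕ) (hS : HSph (2 * m + 3) G)
    (B : ℕ → Finset V → Set V) (hB : GoodFlags G B (m + 3)) (γ : ℕ → ℚ)
    (hγ : IsGammaVector G (2 * m + 3) γ) :
    - (2 ^ (2 * m + 2) * ∑ v : V, linkEven G B {v} m) ≤ γ (m + 1) := by
  classical
  rw [gamma_last G m hS γ hγ]
  have hc : ∀ v : V, - (2 * linkEven G B {v} m) ≤ (-1) ^ (m + 1) * lam G (lkF G Finset.univ {v}) := by
    intro v
    have hT : G.IsClique (({v} : Finset V) : Set V) := by simp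
    rw [lam_eq G {v}]
    have h1 : HSph (2 * m + 2) (G.induce (Pool.Agent.W907.SM.lk G {v})) := by
      have h2 := hsph_link hS hT
      have e : 2 * m + 3 - ({v} : Finset V).card = 2 * m + 2 := by
        rw [Finset.card_singleton]; omega
      rwa [e] at h2
    have h3 := charney_davis_flags (G.induce (Pool.Agent.W907.SM.lk G {v})) m h1 (linkB G B {v})
      (goodFlags_link hB hT (by rw [Finset.card_singleton]))
    refine le_trans ?_ h3
    have h4 : flagEven (G.induce (Pool.Agent.W907.SM.lk G {v})) (linkB G B {v}) m ≤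
        linkEven G B {v} m := by
      refine Finset.sum_le_sum fun i _ => ?_
      refine div_le_div_of_nonneg_right ?_ (by positivity)
      exact_mod_cast badCl_link G B {v} (m + 2 + i)
    linarith
  have h5 : ∑ v : V, - (2 * linkEven G B {v} m) ≤
      ∑ v : V, (-1) ^ (m + 1) * lam G (lkF G Finset.univ {v}) := Finset.sum_le_sum fun v _ => hc v
  have h6 := mul_le_mul_of_nonneg_left h5 (by positivity : (0 : ℚ) ≤ 2 ^ (2 * m + 1))
  refine le_trans (le_of_eq ?_) h6
  rw [Finset.sum_neg_distrib, ← Finset.mul_sum]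
  have h4 : (2 : ℚ) ^ (2 * m + 2) = 2 * 2 ^ (2 * m + 1) := by rw [pow_succ (2 : ℚ) (2 * m + 1)]; ring
  rw [h4]
  ring

end Pool.Agent.Helper33.BF
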